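import Mathlib

/-! The divisor bound and elementary asymptotics. -/

namespace Pool.Agent.Lib.MP_cdccbc_an

open Finset

lemma succ_pow_le_aux {k : ℕ} (hk : 0 < k) (v : ℕ) : (v + 1) ^ k ≤ 2 ^ v * k ^ k := by
  have h1 : v + 1 ≤ 2 ^ (v / k) * k := by
    have h2 : v / k + 1 ≤ 2 ^ (v / k) := Nat.lt_two_pow_self
    have h3 : v < (v / k + 1) * k := by
      rw [mul_comm]; exact Nat.lt_mul_div_succ v hk
    calc v + 1 ≤ (v / k + 1) * k := h3
      _ ≤ _ := Nat.mul_le_mul_right _ h2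
  calc (v + 1) ^ k ≤ (2 ^ (v / k) * k) ^ k := Nat.pow_le_pow_left h1 _
    _ = 2 ^ (v / k * k) * k ^ k := by rw [mul_pow, ← pow_mul]
    _ ≤ _ := Nat.mul_le_mul_right _ (Nat.pow_le_pow_right (by norm_num) (Nat.div_mul_le_self _ _))

lemma card_divisors_pow_le {k n : ℕ} (hk : 0 < k) (hn : n ≠ 0) :
    n.divisors.card ^ k ≤ n * (k ^ k) ^ 2 ^ k := by
  have h1 : ∀ p ∈ n.primeFactors, (n.factorization p + 1) ^ k ≤
      p ^ n.factorization p * (if p < 2 ^ k then k ^ k else 1) := by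
    intro p hp
    have hp2 := (Nat.prime_of_mem_primeFactors hp).two_le
    split_ifs with h
    · exact (succ_pow_le_aux hk _).trans (Nat.mul_le_mul_right _ (Nat.pow_le_pow_left hp2 _))
    · rw [mul_one]
      calc (n.factorization p + 1) ^ k ≤ (2 ^ n.factorization p) ^ k :=
            Nat.pow_le_pow_left Nat.lt_two_pow_self _
        _ = (2 ^ k) ^ n.factorization p := by rw [← pow_mul, ← pow_mul, mul_comm]
        _ ≤ _ := Nat.pow_le_pow_left (not_lt.1 h) _
  rw [Nat.card_divisors hn, ← prod_pow]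
  refine (prod_le_prod' h1).trans ?_
  rw [prod_mul_distrib, ← prod_filter, prod_const]
  refine Nat.mul_le_mul (le_of_eq ?_) (Nat.pow_le_pow_right (by positivity) ?_)
  · conv_rhs => rw [← Nat.prod_factorization_pow_eq_self hn]
    rfl
  · calc _ ≤ (range (2 ^ k)).card := card_le_card fun p hp => mem_range.2 (mem_filter.1 hp).2
      _ = _ := card_range _

lemma card_divisors_le_exp {k n : ℕ} (hk : 0 < k) (hn : n ≠ 0) {X : ℝ} (hX : (n : ℝ) ≤ X) :
    (n.divisors.card : ℝ) ≤ Real.exp (Real.log X / k + 2 ^ k * k) := by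
  have h0 : (0 : ℝ) < n.divisors.card := by
    exact_mod_cast card_pos.2 (Nat.nonempty_divisors.2 hn)
  have hk' : (0 : ℝ) < k := by exact_mod_cast hk
  have hn' : (0 : ℝ) < n := by positivity
  have h1 : (n.divisors.card : ℝ) ^ k ≤ n * ((k : ℝ) ^ k) ^ 2 ^ k := by
    exact_mod_cast card_divisors_pow_le hk hn
  have h2 := Real.log_le_log (by positivity) h1
  rw [Real.log_pow, Real.log_mul hn'.ne' (by positivity), Real.log_pow, Real.log_pow] at h2
  rw [← Real.log_le_iff_le_exp h0]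
  have h3 := Real.log_le_log hn' hX
  have h4 : Real.log k ≤ k := (Real.log_le_sub_one_of_pos hk').trans (by linarith)
  have h5 : Real.log X / k + 2 ^ k * k = (Real.log X + 2 ^ k * (k * k)) / k := by field_simp
  rw [h5, le_div_iff₀ hk']
  push_cast at h2
  have h6 : (2 : ℝ) ^ k * (k * Real.log k) ≤ 2 ^ k * (k * k) := by gcongr
  linarith

lemma upper_asymp {x : ℝ} (hx : 3 ≤ x) :
    ∃ k : ℕ, 0 < k ∧ (8 + 8 * x) / k + 2 ^ k * k ≤ 120 * (x / Real.log x) := by
  have hx0 : 0 < x := by linarith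
  set l := Real.log x with hl
  have hl1 : 1 ≤ l := by
    rw [hl, Real.le_log_iff_exp_le hx0]
    linarith [Real.exp_one_lt_d9]
  have hl0 : 0 < l := by linarith
  have hk1 : l ≤ ⌈l⌉₊ := Nat.le_ceil l
  have hk2 : (⌈l⌉₊ : ℝ) ≤ l + 1 := (Nat.ceil_lt_add_one hl0.le).le
  refine ⟨⌈l⌉₊, Nat.ceil_pos.2 hl0, ?_⟩
  have h1 : (8 + 8 * x) / ⌈l⌉₊ ≤ 16 * (x / l) := by
    rw [← mul_div_assoc]
    gcongr
    linarith
  have h2 : (2 : ℝ) ^ ⌈l⌉₊ ≤ 2 * Real.exp (Real.log 2 * l) := by
    calc (2 : ℝ) ^ ⌈l⌉₊ = Real.exp (Real.log 2 * ⌈l⌉₊) := by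
          rw [mul_comm, Real.exp_nat_mul, Real.exp_log (by norm_num)]
      _ ≤ Real.exp (Real.log 2 * (l + 1)) := by
          have := Real.log_pos (one_lt_two (α := ℝ))
          gcongr
      _ = _ := by rw [mul_add, mul_one, Real.exp_add, Real.exp_log (by norm_num), mul_comm]
  have h3 : (0.3 * l) ^ 2 / 2 ≤ Real.exp ((1 - Real.log 2) * l) := by
    have h4 := Real.pow_div_factorial_le_exp (0.3 * l) (by positivity) 2
    refine le_trans (by simpa using h4) (Real.exp_le_exp.2 ?_)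
    gcongr
    linarith [Real.log_two_lt_d9]
  have h4 : Real.exp (Real.log 2 * l) * Real.exp ((1 - Real.log 2) * l) = x := by
    rw [← Real.exp_add, ← Real.exp_log hx0]; congr 1; ring
  have h5 : (2 : ℝ) ^ ⌈l⌉₊ * ⌈l⌉₊ ≤ 100 * (x / l) := by
    have hE := Real.exp_pos (Real.log 2 * l)
    calc (2 : ℝ) ^ ⌈l⌉₊ * ⌈l⌉₊ ≤ (2 * Real.exp (Real.log 2 * l)) * (2 * l) := by
          gcongr; linarith
      _ ≤ 100 * (x / l) := by
          rw [← mul_div_assoc, le_div_iff₀ hl0, ← h4]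
          nlinarith [mul_le_mul_of_nonneg_left h3 hE.le, mul_nonneg hE.le (sq_nonneg l)]
  have : 0 ≤ x / l := by positivity
  linarith

lemma lower_asymp {N : ℕ} (hN : 32 ≤ Real.log N) :
    ∃ y : ℕ, primorial y ^ 2 ≤ N ∧
      Real.log N / Real.log (Real.log N) / 32 ≤ Nat.primeCounting y := by
  have hN0 : N ≠ 0 := by rintro rfl; norm_num at hN
  have hN' : (0 : ℝ) < N := by positivity
  set x := Real.log N with hx
  set b := Nat.log 2 N with hb
  have hb1 : 2 ^ b ≤ N := Nat.pow_log_le_self 2 hN0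
  have hb2 : N < 2 ^ (b + 1) := Nat.lt_pow_succ_log_self (by norm_num) N
  have l2 := Real.log_two_lt_d9
  have l2' := Real.log_two_gt_d9
  have hb3 : b * Real.log 2 ≤ x := by
    rw [← Real.log_pow]
    exact Real.log_le_log (by positivity) (by exact_mod_cast hb1)
  have hb4 : x ≤ (b + 1) * Real.log 2 := by
    have : x ≤ Real.log (2 ^ (b + 1)) := Real.log_le_log hN' (by exact_mod_cast hb2.le)
    rw [Real.log_pow] at this
    exact_mod_cast this
  have hb0 : (0 : ℝ) ≤ b := by positivity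
  set y := b / 4 with hy
  have hy1 : (4 * y : ℝ) ≤ b := by exact_mod_cast Nat.mul_div_le b 4
  have hy2 : (b : ℝ) ≤ 4 * y + 3 := by
    have : b ≤ 4 * y + 3 := by omega
    exact_mod_cast this
  have hy3 : x / 8 ≤ y := by nlinarith
  have hy4 : (y : ℝ) ≤ x := by nlinarith
  have hy5 : (4 : ℝ) ≤ y := by linarith
  refine ⟨y, ?_, le_trans ?_ (Chebyshev.pi_ge y)⟩
  · calc primorial y ^ 2 ≤ (4 ^ y) ^ 2 := Nat.pow_le_pow_left (primorial_le_four_pow y) 2
      _ = 2 ^ (4 * y) := by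
          rw [show 4 = 2 ^ 2 from rfl, ← pow_mul, ← pow_mul]; congr 1; ring
      _ ≤ 2 ^ b := Nat.pow_le_pow_right (by norm_num) (Nat.mul_div_le b 4)
      _ ≤ N := hb1
  · have h1 : Real.log (y + 1) ≤ 3 * Real.log 2 + (y + 1) / 8 - 1 := by
      have h2 := Real.log_le_sub_one_of_pos (x := (y + 1) / 8) (by positivity)
      rw [Real.log_div (by positivity) (by norm_num), show (8 : ℝ) = 2 ^ 3 by norm_num,
        Real.log_pow] at h2
      push_cast at h2
      linarith
    have h2 : 0 < Real.log y := Real.log_pos (by linarith)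
    have h3 : Real.log y ≤ Real.log x := Real.log_le_log (by linarith) hy4
    rw [div_right_comm]
    gcongr
    · nlinarith
    · nlinarith

end Pool.Agent.Lib.MP_cdccbc_an
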