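import Pool.Agent.Lib.MP_cdccbc_an.Torus

/-! The Bohr lift: frequencies, and means along the Kronecker flow. -/

namespace Pool.Agent.Lib.MP_cdccbc_an

open MeasureTheory Complex Filter Topology
open scoped ComplexConjugate

noncomputable section

/-- The frequency map. -/
def lam : Gam →ₗ[ℤ] ℝ := lin fun p => Real.log (p : ℕ)

/-- The exponent vector of a natural number. -/
def kap (n : ℕ) : Gam :=
  Finsupp.mapRange (fun k : ℕ => (k : ℤ)) (by simp) (n.factorization.subtypeDomain Nat.Prime)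

lemma kap_apply (n : ℕ) (p : Nat.Primes) : kap n p = (n.factorization p : ℤ) := rfl

lemma kap_mul {a b : ℕ} (ha : a ≠ 0) (hb : b ≠ 0) : kap (a * b) = kap a + kap b := by
  ext p
  simp [kap_apply, Nat.factorization_mul ha hb]

@[simp] lemma kap_one : kap 1 = 0 := by
  ext p; simp [kap_apply]

lemma kap_prime_pow (p : Nat.Primes) (k : ℕ) : kap ((p : ℕ) ^ k) = Finsupp.single p (k : ℤ) := by
  ext q
  rw [kap_apply, p.2.factorization_pow]
  by_cases h : p = q
  · subst h; simp
  · have h' : (p : ℕ) ≠ q := fun h' => h (Subtype.ext h')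
    simp [Finsupp.single_eq_of_ne' h, Finsupp.single_eq_of_ne' h']

lemma kap_prime (p : Nat.Primes) : kap (p : ℕ) = Finsupp.single p 1 := by
  simpa using kap_prime_pow p 1

lemma lam_kap {n : ℕ} (hn : n ≠ 0) : lam (kap n) = Real.log n := by
  induction n using induction_on_primes with
  | zero => exact absurd rfl hn
  | one => simp
  | prime_mul p a hp ih =>
    have ha : a ≠ 0 := fun h => hn (by simp [h])
    rw [kap_mul hp.ne_zero ha, map_add, ih ha]
    have := kap_prime ⟨p, hp⟩
    simp only at this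
    rw [this, lam, lin_single]
    push_cast
    rw [Real.log_mul (by exact_mod_cast hp.ne_zero) (by exact_mod_cast ha)]
    simp

lemma kap_inj {a b : ℕ} (ha : a ≠ 0) (hb : b ≠ 0) (h : kap a = kap b) : a = b := by
  have h1 : Real.log a = Real.log b := by rw [← lam_kap ha, ← lam_kap hb, h]
  have h2 : (a : ℝ) = b :=
    Real.log_injOn_pos (Set.mem_Ioi.2 (by positivity)) (Set.mem_Ioi.2 (by positivity)) h1
  exact_mod_cast h2

lemma exists_kap_sub (α : Gam) : ∃ a b : ℕ, a ≠ 0 ∧ b ≠ 0 ∧ α = kap a - kap b := by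
  induction α using Finsupp.induction_linear with
  | zero => exact ⟨1, 1, one_ne_zero, one_ne_zero, by simp⟩
  | add x y hx hy =>
    obtain ⟨a, b, ha, hb, rfl⟩ := hx
    obtain ⟨c, d, hc, hd, rfl⟩ := hy
    exact ⟨a * c, b * d, mul_ne_zero ha hc, mul_ne_zero hb hd, by
      rw [kap_mul ha hc, kap_mul hb hd]; abel⟩
  | single p k =>
    refine ⟨(p : ℕ) ^ k.toNat, (p : ℕ) ^ (-k).toNat, pow_ne_zero _ p.2.ne_zero,
      pow_ne_zero _ p.2.ne_zero, ?_⟩
    rw [kap_prime_pow, kap_prime_pow, ← Finsupp.single_sub, Int.toNat_sub_toNat_neg]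

lemma lam_eq_zero {α : Gam} (h : lam α = 0) : α = 0 := by
  obtain ⟨a, b, ha, hb, rfl⟩ := exists_kap_sub α
  rw [map_sub, lam_kap ha, lam_kap hb, sub_eq_zero] at h
  have h2 : (a : ℝ) = b :=
    Real.log_injOn_pos (Set.mem_Ioi.2 (by positivity)) (Set.mem_Ioi.2 (by positivity)) h
  have h3 : a = b := by exact_mod_cast h2
  rw [h3, sub_self]

/-- The Kronecker flow. -/
def flow (t : ℝ) : Om := pt fun p => -t * Real.log (p : ℕ)

lemma continuous_flow : Continuous flow := by
  unfold flow pt
  fun_prop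

lemma chi_flow (α : Gam) (t : ℝ) : chi α (flow t) = Complex.exp ((-(lam α) * I) * t) := by
  rw [chi_apply, flow, ev_pt, lin_smul, Circle.coe_exp]
  congr 1
  change ((-t * lam α : ℝ) : ℂ) * I = _
  push_cast; ring

lemma chi_kap_flow {n : ℕ} (hn : n ≠ 0) (t : ℝ) :
    chi (kap n) (flow t) = (n : ℂ) ^ (-((t : ℂ) * I)) := by
  rw [chi_flow, lam_kap hn, Complex.cpow_def_of_ne_zero (by exact_mod_cast hn),
    Complex.natCast_log]
  congr 1; ring

/-- The mean of `G` along the flow over `[-T, T]`. -/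
def lineMean (G : C(Om, ℂ)) (T : ℝ) : ℂ := (1 / (2 * T) : ℝ) • ∫ t in (-T)..T, G (flow t)

lemma flow_ii (G : C(Om, ℂ)) (a b : ℝ) : IntervalIntegrable (fun t => G (flow t)) volume a b :=
  (G.continuous.comp continuous_flow).intervalIntegrable a b

lemma lineMean_add (G H : C(Om, ℂ)) (T : ℝ) :
    lineMean (G + H) T = lineMean G T + lineMean H T := by
  simp only [lineMean, ContinuousMap.add_apply]
  rw [intervalIntegral.integral_add (flow_ii G _ _) (flow_ii H _ _), smul_add]

lemma lineMean_smul (a : ℂ) (G : C(Om, ℂ)) (T : ℝ) :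
    lineMean (a • G) T = a • lineMean G T := by
  simp only [lineMean, ContinuousMap.smul_apply]
  rw [intervalIntegral.integral_smul, smul_comm]

lemma norm_lineMean_le (G : C(Om, ℂ)) {T : ℝ} (hT : 0 < T) : ‖lineMean G T‖ ≤ ‖G‖ := by
  have h := intervalIntegral.norm_integral_le_of_norm_le_const (a := -T) (b := T) (C := ‖G‖)
    (f := fun t => G (flow t)) (fun t _ => G.norm_coe_le_norm _)
  rw [lineMean, norm_smul, Real.norm_eq_abs, abs_of_pos (by positivity)]
  rw [show T - -T = 2 * T by ring, abs_of_pos (by positivity)] at h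
  calc 1 / (2 * T) * ‖∫ t in (-T)..T, G (flow t)‖ ≤ 1 / (2 * T) * (‖G‖ * (2 * T)) := by gcongr
    _ = ‖G‖ := by field_simp

lemma tendsto_lineMean_chi (α : Gam) :
    Tendsto (lineMean (chi α)) atTop (𝓝 (∫ ω, chi α ω ∂mu)) := by
  rw [integral_chi]
  split_ifs with h
  · subst h
    refine tendsto_const_nhds.congr' ?_
    filter_upwards [eventually_gt_atTop 0] with T hT
    simp only [lineMean, chi_zero, ContinuousMap.one_apply, intervalIntegral.integral_const,
      smul_smul]
    rw [show 1 / (2 * T) * (T - -T) = 1 by field_simp; ring, one_smul]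
  · have hl : lam α ≠ 0 := fun h' => h (lam_eq_zero h')
    have hc : (-(lam α : ℂ) * I) ≠ 0 := by simp [hl]
    have hb : ∀ T : ℝ, 0 < T → ‖lineMean (chi α) T‖ ≤ |lam α|⁻¹ * T⁻¹ := by
      intro T hT
      have hl' : 0 < |lam α| := abs_pos.2 hl
      simp only [lineMean, chi_flow]
      rw [integral_exp_mul_complex hc, norm_smul, Real.norm_eq_abs, abs_of_pos (by positivity),
        norm_div]
      have h1 : ∀ s : ℝ, ‖Complex.exp (-(lam α : ℂ) * I * s)‖ = 1 := by
        intro s
        rw [show -(lam α : ℂ) * I * s = ((-(lam α) * s : ℝ) : ℂ) * I by push_cast; ring,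
          Complex.norm_exp_ofReal_mul_I]
      have h2 : ‖Complex.exp (-(lam α : ℂ) * I * T) - Complex.exp (-(lam α : ℂ) * I * (-T : ℝ))‖
          ≤ 2 := by
        refine (norm_sub_le _ _).trans ?_
        rw [h1, h1]; norm_num
      have h3 : ‖-(lam α : ℂ) * I‖ = |lam α| := by simp
      rw [h3]
      calc 1 / (2 * T) * (_ / |lam α|) ≤ 1 / (2 * T) * (2 / |lam α|) := by gcongr
        _ = |lam α|⁻¹ * T⁻¹ := by field_simp
    refine squeeze_zero_norm' (a := fun T => |lam α|⁻¹ * T⁻¹) ?_ ?_
    · filter_upwards [eventually_gt_atTop 0] with T hT using hb T hT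
    · simpa using tendsto_inv_atTop_zero.const_mul |lam α|⁻¹

lemma tendsto_lineMean_tr (c : Gam →₀ ℂ) :
    Tendsto (lineMean (tr c)) atTop (𝓝 (∫ ω, tr c ω ∂mu)) := by
  induction c using Finsupp.induction_linear with
  | zero =>
    have : lineMean (tr 0) = fun _ => 0 := by ext T; simp [lineMean]
    rw [this]; simp
  | add a b ha hb =>
    have h1 : lineMean (tr (a + b)) = fun T => lineMean (tr a) T + lineMean (tr b) T := by
      ext T; rw [map_add, lineMean_add]
    rw [h1, integral_tr, Finsupp.add_apply, ← integral_tr, ← integral_tr]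
    exact ha.add hb
  | single α a =>
    have h1 : lineMean (tr (Finsupp.single α a)) = fun T => a • lineMean (chi α) T := by
      ext T; rw [tr_single, lineMean_smul]
    rw [h1, tr_single]
    simp only [ContinuousMap.smul_apply, integral_smul]
    exact (tendsto_lineMean_chi α).const_smul a

/-- Means along the Kronecker flow converge to the Haar integral. -/
theorem tendsto_lineMean (G : C(Om, ℂ)) :
    Tendsto (lineMean G) atTop (𝓝 (∫ ω, G ω ∂mu)) := by
  rw [Metric.tendsto_nhds]
  intro ε hε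
  obtain ⟨c, hc⟩ := exists_tr_near G (ε := ε / 3) (by positivity)
  have hn : ‖G - tr c‖ ≤ ε / 3 := by
    refine (ContinuousMap.norm_le _ (by positivity)).2 fun ω => ?_
    rw [ContinuousMap.sub_apply, norm_sub_rev]; exact (hc ω).le
  have h1 := Metric.tendsto_nhds.1 (tendsto_lineMean_tr c) (ε / 3) (by positivity)
  have h2 : ‖∫ ω, tr c ω ∂mu - ∫ ω, G ω ∂mu‖ ≤ ε / 3 := by
    rw [← integral_sub (cont_integrable (tr c).continuous) (cont_integrable G.continuous)]
    have := norm_integral_le_of_norm_le_const (μ := mu) (f := fun ω => tr c ω - G ω) (C := ε / 3)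
      (Eventually.of_forall fun ω => (hc ω).le)
    simpa using this
  filter_upwards [h1, eventually_gt_atTop 0] with T hT1 hT
  have h3 : lineMean G T = lineMean (G - tr c) T + lineMean (tr c) T := by
    rw [← lineMean_add, sub_add_cancel]
  have h4 := (norm_lineMean_le (G - tr c) hT).trans hn
  rw [dist_eq_norm] at hT1 ⊢
  calc ‖lineMean G T - ∫ ω, G ω ∂mu‖ = ‖lineMean (G - tr c) T +
        (lineMean (tr c) T - ∫ ω, tr c ω ∂mu) + (∫ ω, tr c ω ∂mu - ∫ ω, G ω ∂mu)‖ := by
        rw [h3]; congr 1; ring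
    _ ≤ ‖lineMean (G - tr c) T‖ + ‖lineMean (tr c) T - ∫ ω, tr c ω ∂mu‖ +
        ‖∫ ω, tr c ω ∂mu - ∫ ω, G ω ∂mu‖ := norm_add₃_le
    _ < ε := by linarith

theorem tendsto_mean_norm (G : C(Om, ℂ)) :
    Tendsto (fun T : ℝ => (1 / (2 * T)) * ∫ t in (-T)..T, ‖G (flow t)‖) atTop
      (𝓝 (∫ ω, ‖G ω‖ ∂mu)) := by
  have h := tendsto_lineMean ⟨fun ω => ((‖G ω‖ : ℝ) : ℂ), by fun_prop⟩
  simp only [ContinuousMap.coe_mk, integral_complex_ofReal] at h
  have h2 := (Complex.continuous_re.tendsto _).comp h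
  rw [Complex.ofReal_re] at h2
  refine h2.congr fun T => ?_
  simp only [Function.comp, lineMean, ContinuousMap.coe_mk, intervalIntegral.integral_ofReal,
    Complex.real_smul, ← Complex.ofReal_mul, Complex.ofReal_re]

end

end Pool.Agent.Lib.MP_cdccbc_an
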