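import Pool.Agent.Lib.MP_cdccbc_an.Torus

/-! The entropy identity for analytic trigonometric polynomials with positive real part. -/

namespace Pool.Agent.Lib.MP_cdccbc_an

open MeasureTheory Complex Filter Topology
open scoped ComplexConjugate

noncomputable section

variable (l : Gam →ₗ[ℤ] ℝ)

/-- Trigonometric polynomials with spectrum in the half-space `l ≥ 0`. -/
def anal : Submodule ℂ C(Om, ℂ) := Submodule.span ℂ (chi '' {α | 0 ≤ l α})

variable {l}

lemma chi_mem_anal {α : Gam} (h : 0 ≤ l α) : chi α ∈ anal l :=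
  Submodule.subset_span ⟨α, h, rfl⟩

lemma one_mem_anal : (1 : C(Om, ℂ)) ∈ anal l := by
  rw [← chi_zero]; exact chi_mem_anal (by simp)

lemma tr_mem_anal {c : Gam →₀ ℂ} (h : ∀ α ∈ c.support, 0 ≤ l α) : tr c ∈ anal l := by
  rw [tr, Finsupp.linearCombination_apply, Finsupp.sum]
  exact Submodule.sum_mem _ fun α hα => Submodule.smul_mem _ _ (chi_mem_anal (h α hα))

lemma cm_integrable (f : C(Om, ℂ)) : Integrable (fun ω => f ω) mu := cont_integrable f.continuous

lemma anal_mul (hl : ∀ α, l α = 0 → α = 0) {f g : C(Om, ℂ)} (hf : f ∈ anal l) (hg : g ∈ anal l) :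
    f * g ∈ anal l ∧ ∫ ω, (f * g) ω ∂mu = (∫ ω, f ω ∂mu) * ∫ ω, g ω ∂mu := by
  induction hf using Submodule.span_induction with
  | zero => simp
  | add x y _ _ hx hy =>
    refine ⟨by rw [add_mul]; exact add_mem hx.1 hy.1, ?_⟩
    rw [add_mul]
    simp only [ContinuousMap.add_apply]
    rw [integral_add (cm_integrable _) (cm_integrable _), integral_add (cm_integrable _)
      (cm_integrable _), hx.2, hy.2, add_mul]
  | smul a x _ hx =>
    refine ⟨by rw [smul_mul_assoc]; exact Submodule.smul_mem _ _ hx.1, ?_⟩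
    rw [smul_mul_assoc]
    simp only [ContinuousMap.smul_apply, integral_smul]
    rw [hx.2, smul_mul_assoc]
  | mem x hx =>
    obtain ⟨α, hα, rfl⟩ := hx
    induction hg using Submodule.span_induction with
    | zero => simp
    | add x y _ _ hx hy =>
      refine ⟨by rw [mul_add]; exact add_mem hx.1 hy.1, ?_⟩
      rw [mul_add]
      simp only [ContinuousMap.add_apply]
      rw [integral_add (cm_integrable _) (cm_integrable _), integral_add (cm_integrable _)
        (cm_integrable _), hx.2, hy.2, mul_add]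
    | smul a x _ hx =>
      refine ⟨by rw [mul_smul_comm]; exact Submodule.smul_mem _ _ hx.1, ?_⟩
      rw [mul_smul_comm]
      simp only [ContinuousMap.smul_apply, integral_smul]
      rw [hx.2, mul_smul_comm]
    | mem y hy =>
      obtain ⟨β, hβ, rfl⟩ := hy
      have hα' : 0 ≤ l α := hα
      have hβ' : 0 ≤ l β := hβ
      rw [← chi_add]
      refine ⟨chi_mem_anal (by rw [map_add]; positivity), ?_⟩
      rw [integral_chi, integral_chi, integral_chi]
      by_cases h : α + β = 0
      · have h1 : l α + l β = 0 := by rw [← map_add, h, map_zero]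
        have h2 : α = 0 := hl α (by linarith)
        have h3 : β = 0 := hl β (by linarith)
        simp [h2, h3]
      · by_cases h2 : α = 0
        · subst h2; simp
        · simp [h, h2]

lemma anal_pow (hl : ∀ α, l α = 0 → α = 0) {f : C(Om, ℂ)} (hf : f ∈ anal l) (n : ℕ) :
    f ^ n ∈ anal l ∧ ∫ ω, (f ^ n) ω ∂mu = (∫ ω, f ω ∂mu) ^ n := by
  induction n with
  | zero => exact ⟨by simpa using one_mem_anal, by simp⟩
  | succ n ih =>
    have := anal_mul hl ih.1 hf
    rw [pow_succ, pow_succ, ← ih.2]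
    exact this

lemma norm_integral_le_cm (f : C(Om, ℂ)) : ‖∫ ω, f ω ∂mu‖ ≤ ‖f‖ := by
  have := norm_integral_le_of_norm_le_const (μ := mu) (f := fun ω => f ω) (C := ‖f‖)
    (Eventually.of_forall fun ω => f.norm_coe_le_norm ω)
  simpa using this

lemma anal_log (hl : ∀ α, l α = 0 → α = 0) {f x : C(Om, ℂ)} (hf : f ∈ anal l) (hx : x ∈ anal l)
    (hx1 : ‖x‖ < 1) :
    ∫ ω, f ω * Complex.log (1 + x ω) ∂mu =
      (∫ ω, f ω ∂mu) * Complex.log (1 + ∫ ω, x ω ∂mu) := by
  set F : ℕ → Om → ℂ := fun n ω => f ω * ((-1) ^ (n + 1) * x ω ^ n / n) with hF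
  have hint : ∀ n, Integrable (F n) mu := fun n => cont_integrable (by simp only [hF]; fun_prop)
  have hb : ∀ n ω, ‖F n ω‖ ≤ ‖f‖ * ‖x‖ ^ n := by
    intro n ω
    simp only [hF, norm_mul, norm_div, norm_pow, norm_neg, norm_one, one_pow, one_mul,
      Complex.norm_natCast]
    have h1 := f.norm_coe_le_norm ω
    have h2 := x.norm_coe_le_norm ω
    have h3 : ‖x ω‖ ^ n / n ≤ ‖x‖ ^ n := by
      rcases Nat.eq_zero_or_pos n with rfl | hn
      · simp
      · calc ‖x ω‖ ^ n / n ≤ ‖x ω‖ ^ n := div_le_self (by positivity) (by exact_mod_cast hn)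
          _ ≤ ‖x‖ ^ n := by gcongr
    gcongr
  have hsum : Summable fun n => ∫ ω, ‖F n ω‖ ∂mu := by
    refine Summable.of_nonneg_of_le (fun n => integral_nonneg fun ω => norm_nonneg _)
      (fun n => ?_) ((summable_geometric_of_lt_one (norm_nonneg x) hx1).mul_left ‖f‖)
    calc ∫ ω, ‖F n ω‖ ∂mu ≤ ∫ _ω, ‖f‖ * ‖x‖ ^ n ∂mu :=
          integral_mono (hint n).norm (integrable_const _) (hb n)
      _ = _ := by simp
  have h1 := hasSum_integral_of_summable_integral_norm hint hsum
  have h2 : ∀ ω, ∑' n, F n ω = f ω * Complex.log (1 + x ω) := fun ω =>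
    ((Complex.hasSum_taylorSeries_log ((x.norm_coe_le_norm ω).trans_lt hx1)).mul_left (f ω)).tsum_eq
  simp only [h2] at h1
  have h3 : ∀ n, ∫ ω, F n ω ∂mu =
      (∫ ω, f ω ∂mu) * ((-1) ^ (n + 1) * (∫ ω, x ω ∂mu) ^ n / n) := by
    intro n
    have h4 := (anal_mul hl hf (anal_pow hl hx n).1).2
    rw [(anal_pow hl hx n).2] at h4
    have h5 : F n = fun ω => ((-1) ^ (n + 1) / n : ℂ) * (f * x ^ n) ω := by
      ext ω; simp only [hF, ContinuousMap.mul_apply, ContinuousMap.pow_apply]; ring
    rw [h5, integral_const_mul, h4]; ring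
  simp only [h3] at h1
  exact h1.unique ((Complex.hasSum_taylorSeries_log
    ((norm_integral_le_cm x).trans_lt hx1)).mul_left _)

/-- The entropy identity. -/
theorem anal_entropy (hl : ∀ α, l α = 0 → α = 0) {f : C(Om, ℂ)} (hf : f ∈ anal l)
    (hpos : ∀ ω, 0 < (f ω).re) :
    ∫ ω, f ω * Complex.log (f ω) ∂mu = (∫ ω, f ω ∂mu) * Complex.log (∫ ω, f ω ∂mu) := by
  obtain ⟨ω₀, -, hω₀⟩ := isCompact_univ.exists_isMinOn (f := fun ω => (f ω).re)
    Set.univ_nonempty (by fun_prop)
  set m := (f ω₀).re with hm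
  have hm0 : 0 < m := hpos ω₀
  have hmin : ∀ ω, m ≤ (f ω).re := fun ω => hω₀ (Set.mem_univ ω)
  set R := ‖f‖ with hR
  have hR0 : 0 < R := hm0.trans_le ((Complex.re_le_norm _).trans (f.norm_coe_le_norm ω₀))
  set ρ : ℝ := R ^ 2 / m with hρ
  have hρ0 : 0 < ρ := by positivity
  have hρm : ρ * m = R ^ 2 := by rw [hρ]; field_simp
  have hρc : (ρ : ℂ) ≠ 0 := by exact_mod_cast hρ0.ne'
  set x : C(Om, ℂ) := (ρ⁻¹ : ℂ) • f - 1 with hx
  have hxa : x ∈ anal l := sub_mem (Submodule.smul_mem _ _ hf) one_mem_anal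
  have hfx : ∀ ω, f ω = ρ * (1 + x ω) := by
    intro ω
    simp only [hx, ContinuousMap.sub_apply, ContinuousMap.smul_apply, ContinuousMap.one_apply,
      smul_eq_mul]
    field_simp; ring
  have hx1 : ‖x‖ < 1 := by
    refine (ContinuousMap.norm_lt_iff_of_nonempty _).2 fun ω => ?_
    have h1 : x ω = (f ω - ρ) / ρ := by rw [hfx ω]; field_simp; ring
    rw [h1, norm_div, Complex.norm_real, Real.norm_eq_abs, abs_of_pos hρ0, div_lt_one hρ0]
    refine lt_of_pow_lt_pow_left₀ 2 hρ0.le ?_
    have h2 : ‖f ω - ρ‖ ^ 2 = ‖f ω‖ ^ 2 - 2 * ρ * (f ω).re + ρ ^ 2 := by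
      rw [← Complex.normSq_eq_norm_sq, ← Complex.normSq_eq_norm_sq, Complex.normSq_apply,
        Complex.normSq_apply]
      simp; ring
    have h3 : ‖f ω‖ ^ 2 ≤ R ^ 2 := by
      have := f.norm_coe_le_norm ω
      gcongr
    have h4 := hmin ω
    rw [h2]
    nlinarith
  have hne : ∀ z : ℂ, ‖z‖ < 1 → 1 + z ≠ 0 := by
    intro z hz h
    have : z = -1 := by linear_combination h
    rw [this] at hz; simp at hz
  have hlog : ∀ ω, f ω * Complex.log (f ω) =
      f ω * (Real.log ρ : ℂ) + f ω * Complex.log (1 + x ω) := by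
    intro ω
    conv_lhs => rw [hfx ω, Complex.log_ofReal_mul hρ0 (hne _ ((x.norm_coe_le_norm ω).trans_lt hx1)),
      ← hfx ω]
    ring
  have hI : ∫ ω, f ω ∂mu = ρ * (1 + ∫ ω, x ω ∂mu) := by
    simp only [hfx]
    rw [integral_const_mul, integral_add (integrable_const _) (cm_integrable x)]
    simp
  have hcont : Continuous fun ω => Complex.log (1 + x ω) := by
    refine Continuous.clog (by fun_prop) fun ω => ?_
    exact Complex.mem_slitPlane_of_norm_lt_one ((x.norm_coe_le_norm ω).trans_lt hx1)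
  simp only [hlog]
  rw [integral_add (cont_integrable (by fun_prop)) (cont_integrable (by fun_prop)),
    anal_log hl hf hxa hx1, integral_mul_const]
  conv_rhs => rw [hI, Complex.log_ofReal_mul hρ0 (hne _ ((norm_integral_le_cm x).trans_lt hx1)),
      ← hI]
  ring

lemma continuous_log_norm {f : C(Om, ℂ)} (hpos : ∀ ω, 0 < (f ω).re) :
    Continuous fun ω => Real.log ‖f ω‖ :=
  Continuous.log (by fun_prop) fun ω => by
    have := (hpos ω).trans_le (Complex.re_le_norm _)
    exact this.ne'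

lemma continuous_arg {f : C(Om, ℂ)} (hpos : ∀ ω, 0 < (f ω).re) :
    Continuous fun ω => Complex.arg (f ω) := by
  have hcont : Continuous fun ω => Complex.log (f ω) :=
    Continuous.clog (by fun_prop) fun ω => Or.inl (hpos ω)
  have := Complex.continuous_im.comp hcont
  simpa [Function.comp_def, Complex.log_im] using this

/-- The real form of the entropy identity. -/
theorem anal_entropy_re (hl : ∀ α, l α = 0 → α = 0) {f : C(Om, ℂ)} (hf : f ∈ anal l)
    (hpos : ∀ ω, 0 < (f ω).re) {c : ℝ} (hc : 0 ≤ c) (hI : ∫ ω, f ω ∂mu = c) :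
    ∫ ω, (f ω).im * Complex.arg (f ω) ∂mu =
      ∫ ω, (f ω).re * Real.log ‖f ω‖ ∂mu - c * Real.log c := by
  have h := anal_entropy hl hf hpos
  have hcont : Continuous fun ω => Complex.log (f ω) :=
    Continuous.clog (by fun_prop) fun ω => Or.inl (hpos ω)
  have h1 := congrArg Complex.re h
  rw [hI, ← Complex.ofReal_log hc, ← Complex.ofReal_mul, Complex.ofReal_re] at h1
  have h2 := integral_re (μ := mu) (f := fun ω => f ω * Complex.log (f ω))
    (cont_integrable (by fun_prop))
  simp only [RCLike.re_to_complex] at h2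
  rw [← h2] at h1
  simp only [Complex.mul_re, Complex.log_re, Complex.log_im] at h1
  have c1 := continuous_log_norm hpos
  have c2 := continuous_arg hpos
  rw [integral_sub (cont_integrable (by fun_prop)) (cont_integrable (by fun_prop))] at h1
  linarith

open Classical in
/-- The coefficients of the analytic completion of a real trigonometric polynomial. -/
def compl (l : Gam →ₗ[ℤ] ℝ) (c : Gam →₀ ℂ) : Gam →₀ ℂ :=
  Finsupp.single 0 (c 0) + (2 : ℂ) • c.filter fun α => 0 < l α

lemma tr_filter (c : Gam →₀ ℂ) (p : Gam → Prop) [DecidablePred p] (ω : Om) :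
    tr (c.filter p) ω = ∑ α ∈ c.support.filter p, c α * chi α ω := by
  rw [tr_apply, Finsupp.support_filter]
  refine Finset.sum_congr rfl fun α hα => ?_
  rw [Finsupp.filter_apply_pos p c (Finset.mem_filter.1 hα).2]

lemma coeff_neg_of_real {c : Gam →₀ ℂ} (hc : ∀ ω, (tr c ω).im = 0) (α : Gam) :
    c (-α) = conj (c α) := by
  rw [← integral_tr_mul_conj c, ← integral_tr_mul_conj c, ← integral_conj]
  refine integral_congr_ae (Eventually.of_forall fun ω => ?_)
  simp only [map_mul, chi_neg_apply, Complex.conj_conj, Complex.conj_eq_iff_im.2 (hc ω)]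

open Classical in
lemma tr_filter_neg {c : Gam →₀ ℂ} (hc : ∀ ω, (tr c ω).im = 0) (ω : Om) :
    tr (c.filter fun α => l α < 0) ω = conj (tr (c.filter fun α => 0 < l α) ω) := by
  rw [tr_filter, tr_filter, map_sum]
  refine Finset.sum_nbij' (fun a => -a) (fun a => -a) ?_ ?_ (by simp) (by simp) ?_
  · intro a ha
    simp only [Finset.mem_filter, Finsupp.mem_support_iff] at ha ⊢
    rw [coeff_neg_of_real hc, map_neg]
    exact ⟨by simpa using ha.1, by linarith [ha.2]⟩
  · intro a ha
    simp only [Finset.mem_filter, Finsupp.mem_support_iff] at ha ⊢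
    rw [coeff_neg_of_real hc, map_neg]
    exact ⟨by simpa using ha.1, by linarith [ha.2]⟩
  · intro a _
    rw [map_mul, coeff_neg_of_real hc, chi_neg_apply, Complex.conj_conj, Complex.conj_conj]

open Classical in
lemma split_three (hl : ∀ α, l α = 0 → α = 0) (c : Gam →₀ ℂ) :
    c = Finsupp.single 0 (c 0) + (c.filter fun α => 0 < l α) + c.filter fun α => l α < 0 := by
  ext α
  simp only [Finsupp.add_apply, Finsupp.filter_apply]
  rcases lt_trichotomy (l α) 0 with h | h | h
  · have : α ≠ 0 := by rintro rfl; simp at h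
    simp [h, h.le, Finsupp.single_eq_of_ne this]
  · obtain rfl := hl α h
    simp
  · have : α ≠ 0 := by rintro rfl; simp at h
    simp [h, h.le, Finsupp.single_eq_of_ne this]

open Classical in
lemma tr_compl (c : Gam →₀ ℂ) (ω : Om) :
    tr (compl l c) ω = c 0 + 2 * tr (c.filter fun α => 0 < l α) ω := by
  simp [compl]

lemma compl_re (hl : ∀ α, l α = 0 → α = 0) {c : Gam →₀ ℂ} (hc : ∀ ω, (tr c ω).im = 0) (ω : Om) :
    (tr (compl l c) ω).re = (tr c ω).re := by
  conv_rhs => rw [split_three hl c]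
  rw [tr_compl, map_add, map_add, ContinuousMap.add_apply, ContinuousMap.add_apply,
    tr_filter_neg hc]
  simp; ring

lemma compl_anal (c : Gam →₀ ℂ) : tr (compl l c) ∈ anal l := by
  classical
  refine tr_mem_anal fun α hα => ?_
  by_contra h
  push Not at h
  have : α ≠ 0 := by rintro rfl; simp at h
  apply Finsupp.mem_support_iff.1 hα
  simp [compl, Finsupp.filter_apply, h.le, Finsupp.single_eq_of_ne this]

lemma integral_compl (c : Gam →₀ ℂ) : ∫ ω, tr (compl l c) ω ∂mu = c 0 := by
  rw [integral_tr]; simp [compl, Finsupp.filter_apply]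

lemma norm_compl_apply (c : Gam →₀ ℂ) (α : Gam) : ‖compl l c α‖ ≤ 2 * ‖c α‖ := by
  classical
  by_cases h : α = 0
  · subst h; simp [compl, Finsupp.filter_apply]; linarith [norm_nonneg (c 0)]
  · simp only [compl, Finsupp.add_apply, Finsupp.single_eq_of_ne h, Finsupp.smul_apply,
      Finsupp.filter_apply, zero_add]
    split_ifs <;> simp

lemma compl_sq (c : Gam →₀ ℂ) :
    ∫ ω, ‖tr (compl l c) ω‖ ^ 2 ∂mu ≤ 4 * ∫ ω, ‖tr c ω‖ ^ 2 ∂mu := by
  rw [parseval, parseval, Finset.mul_sum]
  have hsub : (compl l c).support ⊆ c.support := by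
    intro α hα
    rw [Finsupp.mem_support_iff] at hα ⊢
    intro h
    have := norm_compl_apply (l := l) c α
    rw [h, norm_zero, mul_zero] at this
    exact hα (norm_le_zero_iff.1 this)
  refine (Finset.sum_le_sum_of_subset_of_nonneg hsub fun _ _ _ => by positivity).trans ?_
  refine Finset.sum_le_sum fun α _ => ?_
  have := norm_compl_apply (l := l) c α
  nlinarith [norm_nonneg (compl l c α)]

lemma coeff_zero_real {c : Gam →₀ ℂ} (hc : ∀ ω, (tr c ω).im = 0) :
    c 0 = ((∫ ω, (tr c ω).re ∂mu : ℝ) : ℂ) := by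
  rw [← integral_tr, ← integral_complex_ofReal]
  refine integral_congr_ae (Eventually.of_forall fun ω => ?_)
  exact Complex.ext (by simp) (by simp [hc ω])

end

end Pool.Agent.Lib.MP_cdccbc_an
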