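import Pool.Agent.Lib.MP_cdccbc_an.InfUpper

/-! The bilinear bound for the conjugate Poisson kernel. -/

namespace Pool.Agent.Lib.MP_cdccbc_an.Inf

open MeasureTheory Real Complex Filter Topology Set

/-- Poisson kernel. -/
noncomputable def pk (σ u : ℝ) : ℝ := 2 * σ / (σ ^ 2 + u ^ 2)

/-- Conjugate Poisson kernel. -/
noncomputable def qk (σ u : ℝ) : ℝ := 2 * u / (σ ^ 2 + u ^ 2)

lemma ex_integrable {σ : ℝ} (hσ : 0 < σ) (u : ℝ) :
    IntegrableOn (fun t : ℝ => Complex.exp ((-σ + u * I) * t)) (Ioi 0) :=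
  integrableOn_exp_mul_complex_Ioi (by simpa using hσ) 0

lemma ex_integral {σ : ℝ} (hσ : 0 < σ) (u : ℝ) :
    ∫ t : ℝ in Ioi 0, Complex.exp ((-σ + u * I) * t) = 1 / (σ - u * I) := by
  rw [integral_exp_mul_complex_Ioi (by simpa using hσ) 0]
  simp only [Complex.ofReal_zero, mul_zero, Complex.exp_zero]
  rw [show (σ : ℂ) - u * I = -(-σ + u * I) by ring, div_neg, neg_div]

lemma dsum_integral {σ : ℝ} (hσ : 0 < σ) (A : Finset ℕ) (c : ℕ → ℕ → ℂ) (u : ℕ → ℕ → ℝ) :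
    ∫ t : ℝ in Ioi 0, ∑ a ∈ A, ∑ b ∈ A, c a b * Complex.exp ((-σ + u a b * I) * t) =
      ∑ a ∈ A, ∑ b ∈ A, c a b * (1 / (σ - u a b * I)) := by
  rw [integral_finsetSum _ fun a _ => integrable_finsetSum _ fun b _ =>
    (ex_integrable hσ _).const_mul _]
  refine Finset.sum_congr rfl fun a _ => ?_
  rw [integral_finsetSum _ fun b _ => (ex_integrable hσ _).const_mul _]
  refine Finset.sum_congr rfl fun b _ => ?_
  rw [integral_const_mul, ex_integral hσ]

lemma dsum_integrable {σ : ℝ} (hσ : 0 < σ) (A : Finset ℕ) (c : ℕ → ℕ → ℂ) (u : ℕ → ℕ → ℝ) :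
    IntegrableOn (fun t : ℝ =>
      ∑ a ∈ A, ∑ b ∈ A, c a b * Complex.exp ((-σ + u a b * I) * t)) (Ioi 0) :=
  integrable_finsetSum _ fun _ _ => integrable_finsetSum _ fun _ _ =>
    (ex_integrable hσ _).const_mul _

lemma half_bound {σ : ℝ} (hσ : 0 < σ) (A : Finset ℕ) (x : ℕ → ℂ) (lam : ℕ → ℝ) (L : ℝ) :
    ‖∑ a ∈ A, ∑ b ∈ A, x a * x b * (1 / (σ - ((L - lam a - lam b : ℝ) : ℂ) * I))‖ ≤
      (∑ a ∈ A, ∑ b ∈ A, x a * (starRingEnd ℂ) (x b) *
        (1 / (σ - ((lam b - lam a : ℝ) : ℂ) * I))).re := by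
  rw [← dsum_integral hσ A (fun a b => x a * x b) (fun a b => L - lam a - lam b),
    ← dsum_integral hσ A (fun a b => x a * (starRingEnd ℂ) (x b)) (fun a b => lam b - lam a)]
  have hi := dsum_integrable hσ A (fun a b => x a * (starRingEnd ℂ) (x b))
    (fun a b => lam b - lam a)
  have h1 := integral_re hi
  simp only [RCLike.re_to_complex] at h1
  rw [← h1]
  refine norm_integral_le_of_norm_le hi.re (Eventually.of_forall fun t => le_of_eq ?_)
  set F : ℂ := ∑ a ∈ A, x a * Complex.exp (((-(lam a * t) : ℝ) : ℂ) * I) with hF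
  have e1 : ∑ a ∈ A, ∑ b ∈ A, x a * x b *
      Complex.exp ((-σ + ((L - lam a - lam b : ℝ) : ℂ) * I) * t) =
      ((Real.exp (-σ * t) : ℝ) : ℂ) * Complex.exp (((L * t : ℝ) : ℂ) * I) * (F * F) := by
    rw [hF, Finset.sum_mul_sum, Finset.mul_sum]
    refine Finset.sum_congr rfl fun a _ => ?_
    rw [Finset.mul_sum]
    refine Finset.sum_congr rfl fun b _ => ?_
    rw [show (-σ + ((L - lam a - lam b : ℝ) : ℂ) * I) * t = ((-σ * t : ℝ) : ℂ) + ((L * t : ℝ) : ℂ) * I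
      + ((-(lam a * t) : ℝ) : ℂ) * I + ((-(lam b * t) : ℝ) : ℂ) * I by push_cast; ring,
      Complex.exp_add, Complex.exp_add, Complex.exp_add, Complex.ofReal_exp]
    ring
  have e2 : ∑ a ∈ A, ∑ b ∈ A, x a * (starRingEnd ℂ) (x b) *
      Complex.exp ((-σ + ((lam b - lam a : ℝ) : ℂ) * I) * t) =
      ((Real.exp (-σ * t) : ℝ) : ℂ) * (F * (starRingEnd ℂ) F) := by
    rw [hF, map_sum, Finset.sum_mul_sum, Finset.mul_sum]
    refine Finset.sum_congr rfl fun a _ => ?_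
    rw [Finset.mul_sum]
    refine Finset.sum_congr rfl fun b _ => ?_
    rw [map_mul, ← Complex.exp_conj, map_mul, Complex.conj_ofReal, Complex.conj_I,
      show (-σ + ((lam b - lam a : ℝ) : ℂ) * I) * t = ((-σ * t : ℝ) : ℂ)
      + ((-(lam a * t) : ℝ) : ℂ) * I + ((-(lam b * t) : ℝ) : ℂ) * (-I) by push_cast; ring,
      Complex.exp_add, Complex.exp_add, Complex.ofReal_exp]
    ring
  rw [e1, e2, Complex.mul_conj, ← Complex.ofReal_mul, Complex.ofReal_re, norm_mul, norm_mul,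
    norm_mul, Complex.norm_exp_ofReal_mul_I, Complex.norm_real, Real.norm_eq_abs,
    abs_of_pos (Real.exp_pos _), Complex.normSq_eq_norm_sq]
  ring

lemma den_ne {σ : ℝ} (hσ : 0 < σ) (u : ℝ) : (σ : ℂ) - u * I ≠ 0 := by
  intro h
  have := congrArg Complex.re h
  simp at this
  exact hσ.ne' this

lemma qk_eq {σ : ℝ} (hσ : 0 < σ) (u : ℝ) :
    I * (qk σ u : ℂ) = 1 / (σ - u * I) - 1 / (σ - ((-u : ℝ) : ℂ) * I) := by
  have h1 := den_ne hσ u
  have h2 := den_ne hσ (-u)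
  have h3 : ((σ : ℂ) ^ 2 + u ^ 2) = (σ - u * I) * (σ - ((-u : ℝ) : ℂ) * I) := by
    push_cast; linear_combination (u : ℂ) ^ 2 * I_sq
  rw [div_sub_div _ _ h1 h2, ← h3, qk]; push_cast; ring

lemma pk_eq {σ : ℝ} (hσ : 0 < σ) (u : ℝ) :
    (pk σ u : ℂ) = 1 / (σ - ((-u : ℝ) : ℂ) * I) + 1 / (σ - u * I) := by
  have h1 := den_ne hσ u
  have h2 := den_ne hσ (-u)
  have h3 : ((σ : ℂ) ^ 2 + u ^ 2) = (σ - u * I) * (σ - ((-u : ℝ) : ℂ) * I) := by
    push_cast; linear_combination (u : ℂ) ^ 2 * I_sq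
  rw [add_comm, div_add_div _ _ h1 h2, ← h3, pk]; push_cast; ring

lemma pk_nonneg {σ : ℝ} (hσ : 0 < σ) (u : ℝ) : 0 ≤ pk σ u := by rw [pk]; positivity

theorem bilinear_bound {σ : ℝ} (hσ : 0 < σ) (A : Finset ℕ) (x : ℕ → ℂ)
    (hx : ∀ a ∈ A, ‖x a‖ ≤ 1) (lam : ℕ → ℝ) (L : ℝ) :
    ‖∑ a ∈ A, ∑ b ∈ A, x a * x b * (qk σ (L - lam a - lam b) : ℂ)‖ ≤
      ∑ a ∈ A, ∑ b ∈ A, pk σ (lam a - lam b) := by
  have h1 := half_bound hσ A x lam L
  have h2 := half_bound hσ A x (fun a => -lam a) (-L)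
  have e1 : I * ∑ a ∈ A, ∑ b ∈ A, x a * x b * (qk σ (L - lam a - lam b) : ℂ) =
      ∑ a ∈ A, ∑ b ∈ A, x a * x b * (1 / (σ - ((L - lam a - lam b : ℝ) : ℂ) * I)) -
      ∑ a ∈ A, ∑ b ∈ A, x a * x b * (1 / (σ - ((-L - -lam a - -lam b : ℝ) : ℂ) * I)) := by
    rw [← Finset.sum_sub_distrib, Finset.mul_sum]
    refine Finset.sum_congr rfl fun a _ => ?_
    rw [← Finset.sum_sub_distrib, Finset.mul_sum]
    refine Finset.sum_congr rfl fun b _ => ?_
    rw [← mul_sub, show -L - -lam a - -lam b = -(L - lam a - lam b) by ring, ← qk_eq hσ]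
    ring
  have e2 : ∑ a ∈ A, ∑ b ∈ A, x a * (starRingEnd ℂ) (x b) *
        (1 / (σ - ((lam b - lam a : ℝ) : ℂ) * I)) +
      ∑ a ∈ A, ∑ b ∈ A, x a * (starRingEnd ℂ) (x b) *
        (1 / (σ - ((-lam b - -lam a : ℝ) : ℂ) * I)) =
      ∑ a ∈ A, ∑ b ∈ A, x a * (starRingEnd ℂ) (x b) * (pk σ (lam a - lam b) : ℂ) := by
    rw [← Finset.sum_add_distrib]
    refine Finset.sum_congr rfl fun a _ => ?_
    rw [← Finset.sum_add_distrib]
    refine Finset.sum_congr rfl fun b _ => ?_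
    rw [← mul_add, pk_eq hσ, show lam b - lam a = -(lam a - lam b) by ring,
      show -lam b - -lam a = lam a - lam b by ring]
  have h3 : ‖∑ a ∈ A, ∑ b ∈ A, x a * (starRingEnd ℂ) (x b) * (pk σ (lam a - lam b) : ℂ)‖ ≤
      ∑ a ∈ A, ∑ b ∈ A, pk σ (lam a - lam b) := by
    refine (norm_sum_le _ _).trans (Finset.sum_le_sum fun a ha => ?_)
    refine (norm_sum_le _ _).trans (Finset.sum_le_sum fun b hb => ?_)
    rw [norm_mul, norm_mul, Complex.norm_conj, Complex.norm_real, Real.norm_eq_abs,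
      abs_of_nonneg (pk_nonneg hσ _)]
    have := mul_le_one₀ (hx a ha) (norm_nonneg _) (hx b hb)
    exact mul_le_of_le_one_left (pk_nonneg hσ _) this
  have h4 := congrArg Complex.re e2
  rw [Complex.add_re] at h4
  have h5 := Complex.re_le_norm
    (∑ a ∈ A, ∑ b ∈ A, x a * (starRingEnd ℂ) (x b) * (pk σ (lam a - lam b) : ℂ))
  have h6 := congrArg norm e1
  rw [norm_mul, Complex.norm_I, one_mul] at h6
  rw [h6]
  refine (norm_sub_le _ _).trans ?_
  linarith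

lemma sum_arctan {y : ℝ} (hy : 0 < y) (K : ℕ) :
    ∑ k ∈ Finset.range K, y / (1 + (y * ((k : ℝ) + 1)) ^ 2) ≤ Real.arctan (y * K) := by
  induction K with
  | zero => simp
  | succ K ih =>
    rw [Finset.sum_range_succ]
    have hK : (0 : ℝ) ≤ K := Nat.cast_nonneg K
    obtain ⟨c, hc, hc'⟩ := exists_hasDerivAt_eq_slope Real.arctan (fun x => 1 / (1 + x ^ 2))
      (a := y * K) (b := y * ((K : ℝ) + 1)) (by nlinarith)
      Real.continuous_arctan.continuousOn (fun x _ => Real.hasDerivAt_arctan x)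
    have h0 : 0 ≤ c := le_trans (by positivity) hc.1.le
    rw [show y * ((K : ℝ) + 1) - y * K = y by ring, eq_div_iff hy.ne'] at hc'
    have h1 : y / (1 + (y * ((K : ℝ) + 1)) ^ 2) ≤ 1 / (1 + c ^ 2) * y := by
      rw [one_div_mul_eq_div]
      gcongr
      exact hc.2.le
    push_cast
    linarith

lemma sum_pk_le {σ Y : ℝ} (hσ : 0 < σ) (hY : 0 < Y) (K : ℕ) :
    ∑ k ∈ Finset.range K, pk σ (((k : ℝ) + 1) / Y) ≤ π * Y := by
  have h1 := sum_arctan (y := 1 / (σ * Y)) (by positivity) K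
  have h2 := Real.arctan_lt_pi_div_two (1 / (σ * Y) * K)
  calc ∑ k ∈ Finset.range K, pk σ (((k : ℝ) + 1) / Y)
      = 2 * Y * ∑ k ∈ Finset.range K, 1 / (σ * Y) / (1 + (1 / (σ * Y) * ((k : ℝ) + 1)) ^ 2) := by
        rw [Finset.mul_sum]
        refine Finset.sum_congr rfl fun k _ => ?_
        rw [pk]; field_simp
    _ ≤ 2 * Y * (π / 2) := by gcongr; linarith
    _ = π * Y := by ring

lemma pk_anti {σ u v : ℝ} (hσ : 0 < σ) (hu : 0 ≤ u) (h : u ≤ |v|) : pk σ v ≤ pk σ u := by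
  rw [pk, pk, ← sq_abs v]
  gcongr

lemma log_sub_ge {a b Y : ℝ} (hb : 0 < b) (hab : b ≤ a) (hY : a ≤ Y) :
    (a - b) / Y ≤ Real.log a - Real.log b := by
  have ha : 0 < a := by linarith
  have h1 := Real.one_sub_inv_le_log_of_pos (div_pos ha hb)
  rw [Real.log_div ha.ne' hb.ne', inv_div] at h1
  refine le_trans ?_ h1
  rw [show 1 - b / a = (a - b) / a by field_simp]
  gcongr

lemma row_pk_le {σ : ℝ} (hσ : 0 < σ) {lo Y a : ℕ} (hlo : 1 ≤ lo) (ha : a ∈ Finset.Icc lo Y) :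
    ∑ b ∈ Finset.Icc lo Y, pk σ (Real.log a - Real.log b) ≤ 2 / σ + 2 * π * Y := by
  obtain ⟨ha1, ha2⟩ := Finset.mem_Icc.1 ha
  have hY : (0 : ℝ) < Y := by exact_mod_cast (by omega : 0 < Y)
  have hsub : Finset.Icc lo Y ⊆ ({a} ∪ ((Finset.range (Y - a)).image fun k => a + (k + 1))) ∪
      ((Finset.range (a - lo)).image fun k => a - (k + 1)) := by
    intro b hb
    obtain ⟨hb1, hb2⟩ := Finset.mem_Icc.1 hb
    simp only [Finset.mem_union, Finset.mem_singleton, Finset.mem_image, Finset.mem_range]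
    rcases lt_trichotomy b a with h | h | h
    · exact Or.inr ⟨a - b - 1, by omega, by omega⟩
    · exact Or.inl (Or.inl h)
    · exact Or.inl (Or.inr ⟨b - a - 1, by omega, by omega⟩)
  have hnn : ∀ b : ℕ, 0 ≤ pk σ (Real.log a - Real.log b) := fun b => pk_nonneg hσ _
  have hun : ∀ S T : Finset ℕ, ∑ b ∈ S ∪ T, pk σ (Real.log a - Real.log b) ≤
      ∑ b ∈ S, pk σ (Real.log a - Real.log b) + ∑ b ∈ T, pk σ (Real.log a - Real.log b) := by
    intro S T
    rw [← Finset.sum_union_inter]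
    exact le_add_of_nonneg_right (Finset.sum_nonneg fun b _ => hnn b)
  refine (Finset.sum_le_sum_of_subset_of_nonneg hsub fun b _ _ => hnn b).trans ?_
  refine (hun _ _).trans ?_
  have h1 := hun {a} ((Finset.range (Y - a)).image fun k => a + (k + 1))
  have h2 : ∑ b ∈ ({a} : Finset ℕ), pk σ (Real.log a - Real.log b) = 2 / σ := by
    simp only [Finset.sum_singleton, sub_self, pk]
    field_simp
    ring
  have ha0 : (0 : ℝ) < a := by exact_mod_cast (by omega : 0 < a)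
  have h3 : ∑ b ∈ (Finset.range (Y - a)).image fun k => a + (k + 1),
      pk σ (Real.log a - Real.log b) ≤ π * Y := by
    rw [Finset.sum_image (fun x _ y _ h => by simpa using h)]
    refine le_trans (Finset.sum_le_sum fun k hk => ?_) (sum_pk_le hσ hY (Y - a))
    refine pk_anti hσ (by positivity) ?_
    rw [abs_sub_comm]
    refine le_trans ?_ (le_abs_self _)
    have hk' : ((a + (k + 1) : ℕ) : ℝ) ≤ Y := by
      have := Finset.mem_range.1 hk
      exact_mod_cast (by omega : a + (k + 1) ≤ Y)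
    have := log_sub_ge (a := ((a + (k + 1) : ℕ) : ℝ)) ha0 (by push_cast; linarith [Nat.cast_nonneg (α := ℝ) k]) hk'
    refine le_trans (le_of_eq ?_) this
    push_cast; ring
  have h4 : ∑ b ∈ (Finset.range (a - lo)).image fun k => a - (k + 1),
      pk σ (Real.log a - Real.log b) ≤ π * Y := by
    rw [Finset.sum_image (fun x hx y hy h => by
      simp only [Finset.coe_range, Set.mem_Iio] at hx hy
      have h' : a - (x + 1) = a - (y + 1) := h
      omega)]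
    refine le_trans (Finset.sum_le_sum fun k hk => ?_) (sum_pk_le hσ hY (a - lo))
    refine pk_anti hσ (by positivity) ?_
    refine le_trans ?_ (le_abs_self _)
    have hk0 := Finset.mem_range.1 hk
    have e : ((a - (k + 1) : ℕ) : ℝ) = a - (k + 1) := by
      rw [Nat.cast_sub (by omega)]; push_cast; ring
    have := log_sub_ge (a := (a : ℝ)) (b := ((a - (k + 1) : ℕ) : ℝ)) (Y := Y)
      (by exact_mod_cast (by omega : 0 < a - (k + 1))) (by exact_mod_cast Nat.sub_le _ _)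
      (by exact_mod_cast ha2)
    refine le_trans (le_of_eq ?_) this
    rw [e]; ring
  linarith

lemma harmonic_ge (k0 n : ℕ) :
    Real.log ((k0 + n + 1 : ℕ) : ℝ) - Real.log ((k0 + 1 : ℕ) : ℝ) ≤
      ∑ i ∈ Finset.range n, 1 / ((k0 + i + 1 : ℕ) : ℝ) := by
  induction n with
  | zero => simp
  | succ n ih =>
    rw [Finset.sum_range_succ]
    have h0 : (0 : ℝ) < ((k0 + n + 1 : ℕ) : ℝ) := by positivity
    have h1 : (0 : ℝ) < ((k0 + (n + 1) + 1 : ℕ) : ℝ) := by positivity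
    have h2 := Real.log_le_sub_one_of_pos (div_pos h1 h0)
    rw [Real.log_div h1.ne' h0.ne'] at h2
    have h3 : ((k0 + (n + 1) + 1 : ℕ) : ℝ) / ((k0 + n + 1 : ℕ) : ℝ) - 1 =
        1 / ((k0 + n + 1 : ℕ) : ℝ) := by
      field_simp; push_cast; ring
    linarith

end Pool.Agent.Lib.MP_cdccbc_an.Inf
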