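import Mathlib

/-! A kernel on the line whose Fourier transform is `1` on `[0, L]` and `0` on `[L + δ, ∞)`. -/

namespace Pool.Agent.Lib.MP_cdccbc_an.Inf

open MeasureTheory Real Complex Filter Topology Set FourierTransform
open scoped ContDiff

/-- The smooth step, complex valued. -/
noncomputable def st (x : ℝ) : ℂ := (Real.smoothTransition x : ℂ)

lemma st_contDiff : ContDiff ℝ ∞ st :=
  Complex.ofRealCLM.contDiff.comp Real.smoothTransition.contDiff

/-- The bump, derivative of the step. -/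
noncomputable def bb : ℝ → ℂ := deriv st

lemma bb_contDiff : ContDiff ℝ ∞ bb := (contDiff_infty_iff_deriv.1 st_contDiff).2

lemma bb'_contDiff : ContDiff ℝ ∞ (deriv bb) := (contDiff_infty_iff_deriv.1 bb_contDiff).2

lemma st_hasDerivAt (x : ℝ) : HasDerivAt st (bb x) x :=
  ((st_contDiff.differentiable (by simp)) x).hasDerivAt

lemma bb_hasDerivAt (x : ℝ) : HasDerivAt bb (deriv bb x) x :=
  ((bb_contDiff.differentiable (by simp)) x).hasDerivAt

lemma sT_diff : Differentiable ℝ Real.smoothTransition :=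
  (Real.smoothTransition.contDiff (n := 1)).differentiable (by simp)

lemma bb_eq (x : ℝ) : bb x = ((deriv Real.smoothTransition x : ℝ) : ℂ) :=
  ((sT_diff x).hasDerivAt.ofReal_comp).deriv

lemma bb_zero_of_lt {x : ℝ} (hx : x < 0) : bb x = 0 := by
  have : st =ᶠ[𝓝 x] fun _ => 0 := by
    filter_upwards [Iio_mem_nhds hx] with y hy
    simp [st, Real.smoothTransition.zero_of_nonpos (le_of_lt hy)]
  rw [bb, this.deriv_eq]; simp

lemma bb_zero_of_gt {x : ℝ} (hx : 1 < x) : bb x = 0 := by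
  have : st =ᶠ[𝓝 x] fun _ => 1 := by
    filter_upwards [Ioi_mem_nhds hx] with y hy
    simp [st, Real.smoothTransition.one_of_one_le (le_of_lt hy)]
  rw [bb, this.deriv_eq]; simp

lemma bb_supp : HasCompactSupport bb := by
  refine HasCompactSupport.intro (isCompact_Icc (a := (0:ℝ)) (b := 1)) ?_
  intro x hx
  rw [mem_Icc, not_and_or, not_le, not_le] at hx
  rcases hx with h | h
  · exact bb_zero_of_lt h
  · exact bb_zero_of_gt h

lemma bb_integrable : Integrable bb :=
  bb_contDiff.continuous.integrable_of_hasCompactSupport bb_supp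

lemma bb'_integrable : Integrable (deriv bb) :=
  bb'_contDiff.continuous.integrable_of_hasCompactSupport bb_supp.deriv

lemma norm_bb (x : ℝ) : ‖bb x‖ = deriv Real.smoothTransition x := by
  rw [bb_eq, Complex.norm_real, Real.norm_eq_abs,
    abs_of_nonneg Real.smoothTransition.monotone.deriv_nonneg]

lemma integral_norm_bb : ∫ x, ‖bb x‖ = 1 := by
  have h1 : ∫ x, ‖bb x‖ = ∫ x in (-1:ℝ)..2, ‖bb x‖ := by
    rw [intervalIntegral.integral_of_le (by norm_num)]
    symm
    apply setIntegral_eq_integral_of_forall_compl_eq_zero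
    intro x hx
    rw [mem_Ioc, not_and_or, not_lt, not_le] at hx
    rcases hx with h | h
    · rw [bb_zero_of_lt (by linarith)]; simp
    · rw [bb_zero_of_gt (by linarith)]; simp
  rw [h1]
  simp_rw [norm_bb]
  rw [intervalIntegral.integral_deriv_eq_sub (fun x _ => sT_diff x)]
  · rw [Real.smoothTransition.one_of_one_le (by norm_num),
      Real.smoothTransition.zero_of_nonpos (by norm_num)]; norm_num
  · apply Continuous.intervalIntegrable
    have := bb_contDiff.continuous.norm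
    simpa only [norm_bb] using this

/-- The constant `∫ |b'|`. -/
noncomputable def cb : ℝ := ∫ x, ‖deriv bb x‖

lemma cb_nonneg : 0 ≤ cb := integral_nonneg fun _ => norm_nonneg _

lemma integral_scale (g : ℝ → ℝ) (c : ℝ) {δ : ℝ} (hδ : 0 < δ) :
    ∫ x, g ((x - c) / δ) = δ * ∫ x, g x := by
  have := integral_sub_right_eq_self (μ := volume) (fun x => g (x / δ)) c
  rw [this, Measure.integral_comp_div, abs_of_pos hδ, smul_eq_mul]

lemma integrable_scale {g : ℝ → ℂ} (hg : Integrable g) (c : ℝ) {δ : ℝ} (hδ : 0 < δ) :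
    Integrable fun x => g ((x - c) / δ) :=
  (hg.comp_div hδ.ne').comp_sub_right c

/-- The rescaled bump. -/
noncomputable def bs (c δ : ℝ) (x : ℝ) : ℂ := bb ((x - c) / δ) / δ

lemma aff_hasDerivAt (c δ x : ℝ) : HasDerivAt (fun x : ℝ => (x - c) / δ) (1 / δ) x :=
  ((hasDerivAt_id x).sub_const c).div_const δ

lemma sts_hasDerivAt (c δ x : ℝ) : HasDerivAt (fun x => st ((x - c) / δ)) (bs c δ x) x := by
  have := (st_hasDerivAt ((x - c) / δ)).scomp x (aff_hasDerivAt c δ x)
  have e : bs c δ x = (1 / δ) • bb ((x - c) / δ) := by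
    simp [bs, div_eq_inv_mul]
  rw [e]; exact this

lemma bs_hasDerivAt (c δ x : ℝ) :
    HasDerivAt (bs c δ) (deriv bb ((x - c) / δ) / δ / δ) x := by
  have := ((bb_hasDerivAt ((x - c) / δ)).scomp x (aff_hasDerivAt c δ x)).div_const (δ : ℂ)
  have e : deriv bb ((x - c) / δ) / δ = (1 / δ) • deriv bb ((x - c) / δ) := by
    simp [div_eq_inv_mul]
  rw [e]; exact this

lemma bs_integrable (c : ℝ) {δ : ℝ} (hδ : 0 < δ) : Integrable (bs c δ) :=
  (integrable_scale bb_integrable c hδ).div_const _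

lemma norm_fourier_le (f : ℝ → ℂ) (ξ : ℝ) : ‖𝓕 f ξ‖ ≤ ∫ x, ‖f x‖ :=
  VectorFourier.norm_fourierIntegral_le_integral_norm _ _ _ _ _

lemma norm_fourier_bs_le (c : ℝ) {δ : ℝ} (hδ : 0 < δ) (ξ : ℝ) : ‖𝓕 (bs c δ) ξ‖ ≤ 1 := by
  refine (norm_fourier_le _ _).trans (le_of_eq ?_)
  simp only [bs, norm_div, Complex.norm_real, Real.norm_eq_abs, abs_of_pos hδ]
  rw [integral_div, integral_scale (fun x => ‖bb x‖) c hδ, integral_norm_bb]
  field_simp

lemma norm_fourier_bs_le' (c : ℝ) {δ : ℝ} (hδ : 0 < δ) (ξ : ℝ) :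
    δ * |ξ| * ‖𝓕 (bs c δ) ξ‖ ≤ cb := by
  have hd : deriv (bs c δ) = fun x => deriv bb ((x - c) / δ) / δ / δ :=
    funext fun x => (bs_hasDerivAt c δ x).deriv
  have hi : Integrable (deriv (bs c δ)) := by
    rw [hd]; exact ((integrable_scale bb'_integrable c hδ).div_const _).div_const _
  have h1 := congrFun (Real.fourier_deriv (bs_integrable c hδ)
    (fun x => (bs_hasDerivAt c δ x).differentiableAt) hi) ξ
  have h2 := norm_fourier_le (deriv (bs c δ)) ξ
  rw [h1, hd] at h2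
  simp only [norm_div, Complex.norm_real, Real.norm_eq_abs, abs_of_pos hδ, norm_smul,
    norm_mul, Complex.norm_I, Complex.norm_ofNat, abs_of_pos Real.pi_pos] at h2
  rw [integral_div, integral_div, integral_scale (fun x => ‖deriv bb x‖) c hδ] at h2
  have h3 : δ * (∫ x, ‖deriv bb x‖) / δ / δ = cb / δ := by rw [cb]; field_simp
  rw [h3, le_div_iff₀ hδ] at h2
  have h4 : 0 ≤ δ * |ξ| * ‖𝓕 (bs c δ) ξ‖ := by positivity
  nlinarith [Real.pi_gt_three]

/-- The cut-off function. -/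
noncomputable def phi (L δ : ℝ) (x : ℝ) : ℂ := st ((x - (-1)) / 1) - st ((x - L) / δ)

lemma phi_contDiff (L δ : ℝ) : ContDiff ℝ ∞ (phi L δ) :=
  (st_contDiff.comp ((contDiff_id.sub contDiff_const).div_const _)).sub
    (st_contDiff.comp ((contDiff_id.sub contDiff_const).div_const _))

lemma phi_one {L δ x : ℝ} (hδ : 0 < δ) (h0 : 0 ≤ x) (h1 : x ≤ L) : phi L δ x = 1 := by
  simp only [phi, st]
  rw [Real.smoothTransition.one_of_one_le (by linarith),
    Real.smoothTransition.zero_of_nonpos (div_nonpos_of_nonpos_of_nonneg (by linarith) hδ.le)]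
  simp

lemma phi_zero {L δ x : ℝ} (hL : 0 ≤ L) (hδ : 0 < δ) (h1 : L + δ ≤ x) : phi L δ x = 0 := by
  simp only [phi, st]
  rw [Real.smoothTransition.one_of_one_le (by linarith),
    Real.smoothTransition.one_of_one_le (by rw [le_div_iff₀ hδ]; linarith)]
  simp

lemma phi_zero' {L δ x : ℝ} (hL : 0 ≤ L) (hδ : 0 < δ) (h1 : x ≤ -1) : phi L δ x = 0 := by
  simp only [phi, st]
  rw [Real.smoothTransition.zero_of_nonpos (by linarith),
    Real.smoothTransition.zero_of_nonpos (div_nonpos_of_nonpos_of_nonneg (by linarith) hδ.le)]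
  simp

lemma norm_phi_le (L δ x : ℝ) : ‖phi L δ x‖ ≤ 1 := by
  simp only [phi, st]
  rw [← Complex.ofReal_sub, Complex.norm_real, Real.norm_eq_abs, abs_le]
  constructor <;>
  linarith [Real.smoothTransition.nonneg ((x - (-1)) / 1), Real.smoothTransition.le_one ((x - (-1)) / 1),
    Real.smoothTransition.nonneg ((x - L) / δ), Real.smoothTransition.le_one ((x - L) / δ)]

lemma phi_supp {L δ : ℝ} (hL : 0 ≤ L) (hδ : 0 < δ) : HasCompactSupport (phi L δ) := by
  refine HasCompactSupport.intro (isCompact_Icc (a := (-1:ℝ)) (b := L + δ)) ?_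
  intro x hx
  rw [mem_Icc, not_and_or, not_le, not_le] at hx
  rcases hx with h | h
  · exact phi_zero' hL hδ h.le
  · exact phi_zero hL hδ h.le

lemma phi_integrable {L δ : ℝ} (hL : 0 ≤ L) (hδ : 0 < δ) : Integrable (phi L δ) :=
  (phi_contDiff L δ).continuous.integrable_of_hasCompactSupport (phi_supp hL hδ)

lemma phi_deriv (L δ : ℝ) : deriv (phi L δ) = fun x => bs (-1) 1 x - bs L δ x :=
  funext fun x => ((sts_hasDerivAt (-1) 1 x).sub (sts_hasDerivAt L δ x)).deriv

/-- The kernel. -/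
noncomputable def ker (L δ : ℝ) : ℝ → ℂ := 𝓕 (phi L δ)

lemma norm_ker_le {L δ : ℝ} (hL : 0 ≤ L) (hδ : 0 < δ) (ξ : ℝ) : ‖ker L δ ξ‖ ≤ L + δ + 1 := by
  refine (norm_fourier_le _ _).trans ?_
  have h1 : ∫ x, ‖phi L δ x‖ = ∫ x in (-1:ℝ)..(L + δ), ‖phi L δ x‖ := by
    rw [intervalIntegral.integral_of_le (by linarith)]
    symm
    apply setIntegral_eq_integral_of_forall_compl_eq_zero
    intro x hx
    rw [mem_Ioc, not_and_or, not_lt, not_le] at hx
    rcases hx with h | h
    · rw [phi_zero' hL hδ h]; simp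
    · rw [phi_zero hL hδ h.le]; simp
  rw [h1]
  have h2 := intervalIntegral.norm_integral_le_of_norm_le_const (a := -1) (b := L + δ) (C := 1)
    (f := fun x => ‖phi L δ x‖) (fun x _ => by simpa using norm_phi_le L δ x)
  rw [abs_of_nonneg (by linarith)] at h2
  have := le_abs_self (∫ x in (-1:ℝ)..(L + δ), ‖phi L δ x‖)
  rw [Real.norm_eq_abs] at h2
  linarith

lemma norm_ker_le' {L δ : ℝ} (hL : 0 ≤ L) (hδ : 0 < δ) (ξ : ℝ) :
    2 * π * |ξ| * ‖ker L δ ξ‖ ≤ ‖𝓕 (bs (-1) 1) ξ‖ + ‖𝓕 (bs L δ) ξ‖ := by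
  have hi : Integrable (deriv (phi L δ)) := by
    rw [phi_deriv]; exact (bs_integrable _ one_pos).sub (bs_integrable _ hδ)
  have h1 := congrFun (Real.fourier_deriv (phi_integrable hL hδ)
    ((phi_contDiff L δ).differentiable (by simp)) hi) ξ
  have h2 : 𝓕 (deriv (phi L δ)) ξ = 𝓕 (bs (-1) 1) ξ - 𝓕 (bs L δ) ξ := by
    rw [phi_deriv]
    simp only [Real.fourier_eq, smul_sub]
    exact integral_sub ((Real.fourierIntegral_convergent_iff ξ).2 (bs_integrable _ one_pos))
      ((Real.fourierIntegral_convergent_iff ξ).2 (bs_integrable _ hδ))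
  have h3 := norm_sub_le (𝓕 (bs (-1) 1) ξ) (𝓕 (bs L δ) ξ)
  rw [← h2, h1] at h3
  simpa only [norm_smul, norm_mul, Complex.norm_I, Complex.norm_ofNat, Complex.norm_real,
    Real.norm_eq_abs, abs_of_pos Real.pi_pos, mul_one, ker] using h3

lemma ker_eq_schwartz {L δ : ℝ} (hL : 0 ≤ L) (hδ : 0 < δ) :
    ∃ g : SchwartzMap ℝ ℂ, ker L δ = g :=
  ⟨𝓕 ((phi_supp hL hδ).toSchwartzMap (phi_contDiff L δ)), rfl⟩

lemma ker_integrable {L δ : ℝ} (hL : 0 ≤ L) (hδ : 0 < δ) : Integrable (ker L δ) := by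
  obtain ⟨g, hg⟩ := ker_eq_schwartz hL hδ
  rw [hg]; exact g.integrable

lemma ker_continuous {L δ : ℝ} (hL : 0 ≤ L) (hδ : 0 < δ) : Continuous (ker L δ) := by
  obtain ⟨g, hg⟩ := ker_eq_schwartz hL hδ
  rw [hg]; exact g.continuous

lemma ker_integrable' {L δ : ℝ} (hL : 0 ≤ L) (hδ : 0 < δ) :
    Integrable fun ξ => |ξ| * ‖ker L δ ξ‖ := by
  obtain ⟨g, hg⟩ := ker_eq_schwartz hL hδ
  rw [hg]
  simpa using g.integrable_pow_mul volume 1

lemma ker_inv {L δ : ℝ} (hL : 0 ≤ L) (hδ : 0 < δ) (x : ℝ) :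
    ∫ ξ, Complex.exp (((2 * π * (ξ * x) : ℝ) : ℂ) * I) * ker L δ ξ = phi L δ x := by
  have := congrFun ((phi_contDiff L δ).continuous.fourierInv_fourier_eq (phi_integrable hL hδ)
    (ker_integrable hL hδ)) x
  rw [Real.fourierInv_eq'] at this
  rw [← this]
  simp [ker, mul_comm]

end Pool.Agent.Lib.MP_cdccbc_an.Inf
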