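import Pool.Agent.Lib.MP_cdccbc_an.InfBilinear

/-! A bounded Dirichlet polynomial with a large partial sum. -/

namespace Pool.Agent.Lib.MP_cdccbc_an.Inf

open Real Complex Filter Topology

/-- The coefficients of the test function. -/
noncomputable def coef (A : Finset ℕ) (κ σ L : ℝ) (n : ℕ) : ℂ :=
  ∑ a ∈ A, ∑ b ∈ A, if a * b = n then ((κ * qk σ (L - Real.log a - Real.log b) : ℝ) : ℂ) else 0

lemma ps_coef (A : Finset ℕ) (hA : ∀ a ∈ A, 1 ≤ a) (κ σ L : ℝ) (M : ℕ) (s : ℂ) :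
    ps (coef A κ σ L) M s = ∑ a ∈ A, ∑ b ∈ A, if a * b ≤ M then
      ((κ * qk σ (L - Real.log a - Real.log b) : ℝ) : ℂ) * ((a * b : ℕ) : ℂ) ^ (-s) else 0 := by
  simp only [ps, coef, Finset.sum_mul]
  rw [Finset.sum_comm]
  refine Finset.sum_congr rfl fun a ha => ?_
  rw [Finset.sum_comm]
  refine Finset.sum_congr rfl fun b hb => ?_
  simp only [ite_mul, zero_mul]
  rw [Finset.sum_ite_eq]
  have : 1 ≤ a * b := Nat.mul_pos (hA a ha) (hA b hb)
  simp only [Finset.mem_Icc, this, true_and]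

lemma coef_ball (A : Finset ℕ) (hA : ∀ a ∈ A, 1 ≤ a) {κ σ : ℝ} (hκ : 0 ≤ κ) (hσ : 0 < σ) (L : ℝ)
    (hD : κ * ∑ a ∈ A, ∑ b ∈ A, pk σ (Real.log a - Real.log b) ≤ 1) (s : ℂ) (hs : 0 < s.re) :
    ∃ z : ℂ, ‖z‖ ≤ 1 ∧ Tendsto (fun M => ps (coef A κ σ L) M s) atTop (𝓝 z) := by
  refine ⟨κ * ∑ a ∈ A, ∑ b ∈ A, (a : ℂ) ^ (-s) * (b : ℂ) ^ (-s) *
    (qk σ (L - Real.log a - Real.log b) : ℂ), ?_, ?_⟩
  · rw [norm_mul, Complex.norm_real, Real.norm_eq_abs, abs_of_nonneg hκ]
    refine le_trans ?_ hD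
    gcongr
    refine bilinear_bound hσ A (fun a => (a : ℂ) ^ (-s)) (fun a ha => ?_) (fun a => Real.log a) L
    rw [Complex.norm_natCast_cpow_of_pos (hA a ha)]
    exact Real.rpow_le_one_of_one_le_of_nonpos (by exact_mod_cast hA a ha) (by simpa using hs.le)
  · refine tendsto_const_nhds.congr' ?_
    filter_upwards [eventually_ge_atTop (A.sup id * A.sup id)] with M hM
    rw [ps_coef A hA, Finset.mul_sum]
    refine Finset.sum_congr rfl fun a ha => ?_
    rw [Finset.mul_sum]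
    refine Finset.sum_congr rfl fun b hb => ?_
    have h1 : a * b ≤ M :=
      le_trans (Nat.mul_le_mul (Finset.le_sup (f := id) ha) (Finset.le_sup (f := id) hb)) hM
    rw [if_pos h1, Nat.cast_mul, Complex.natCast_mul_natCast_cpow]
    push_cast; ring

lemma qk_nonneg (σ : ℝ) {u : ℝ} (hu : 0 ≤ u) : 0 ≤ qk σ u := by rw [qk]; positivity

lemma log_gap_nonneg {a b N : ℕ} (ha : 1 ≤ a) (hb : 1 ≤ b) (h : a * b ≤ N) :
    0 ≤ Real.log N - Real.log a - Real.log b := by
  have ha' : (0 : ℝ) < a := by exact_mod_cast ha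
  have hb' : (0 : ℝ) < b := by exact_mod_cast hb
  have h' : (a : ℝ) * b ≤ N := by exact_mod_cast h
  have := Real.log_le_log (by positivity) h'
  rw [Real.log_mul ha'.ne' hb'.ne'] at this
  linarith

lemma ps_coef_ge (A : Finset ℕ) (hA : ∀ a ∈ A, 1 ≤ a) {κ : ℝ} (hκ : 0 ≤ κ) (σ : ℝ) (N : ℕ)
    {r : ℝ} (hr : 0 < r) :
    (N : ℝ) ^ (-r) * (κ * ∑ a ∈ A, ∑ b ∈ A, if a * b ≤ N then
      qk σ (Real.log N - Real.log a - Real.log b) else 0) ≤
      ‖ps (coef A κ σ (Real.log N)) N r‖ := by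
  refine le_trans ?_ (Complex.re_le_norm _)
  rw [ps_coef A hA, Complex.re_sum, Finset.mul_sum, Finset.mul_sum]
  refine Finset.sum_le_sum fun a ha => ?_
  rw [Complex.re_sum, Finset.mul_sum, Finset.mul_sum]
  refine Finset.sum_le_sum fun b hb => ?_
  split_ifs with h
  · have h1 : 1 ≤ a * b := Nat.mul_pos (hA a ha) (hA b hb)
    have h2 : ((a * b : ℕ) : ℂ) ^ (-(r : ℂ)) = ((((a * b : ℕ) : ℝ) ^ (-r) : ℝ) : ℂ) := by
      rw [Complex.ofReal_cpow (by positivity)]; push_cast; rfl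
    rw [h2, ← Complex.ofReal_mul, Complex.ofReal_re, mul_comm]
    have h3 := qk_nonneg σ (log_gap_nonneg (hA a ha) (hA b hb) h)
    gcongr ?_ * ?_
    exact Real.rpow_le_rpow_of_nonpos (by exact_mod_cast h1) (by exact_mod_cast h) (by linarith)
  · simp

lemma qk_ge {σ u W v : ℝ} (hσ : 0 < σ) (hW : 0 < W) (h1 : W * σ ≤ u) (h2 : u ≤ v) :
    2 / (1 + 1 / W ^ 2) / v ≤ qk σ u := by
  have hu : 0 < u := lt_of_lt_of_le (by positivity) h1
  have hv : 0 < v := hu.trans_le h2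
  rw [qk, div_div, div_le_div_iff₀ (by positivity) (by positivity)]
  have h3 : σ ^ 2 ≤ 1 / W ^ 2 * u ^ 2 := by
    rw [one_div_mul_eq_div, le_div_iff₀ (by positivity)]
    have : (W * σ) ^ 2 ≤ u ^ 2 := by gcongr
    nlinarith
  have h4 : (1 + 1 / W ^ 2) * u * u ≤ (1 + 1 / W ^ 2) * v * u := by gcongr
  nlinarith

lemma row_qk_ge {N M W j a : ℕ} (hW : 2 ≤ W) (hj : 4 * W ^ 2 ≤ j) (hM : W ^ 2 * j ≤ M)
    (hN1 : M * M ≤ N) (hN2 : N ≤ M * M + 2 * M)
    (ha : a ∈ Finset.Icc (M - W * j + 2 * j) (M + W * j - 2 * j)) :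
    2 / (1 + 1 / (W : ℝ) ^ 2) * ((M - W * j : ℕ) : ℝ) *
      (Real.log ((2 * j + 2 : ℕ) : ℝ) - Real.log ((8 * W ^ 2 + 1 : ℕ) : ℝ)) ≤
    ∑ b ∈ Finset.Icc (M - W * j) (M + W * j), if a * b ≤ N then
      qk (W / M) (Real.log N - Real.log a - Real.log b) else 0 := by
  obtain ⟨ha1, ha2⟩ := Finset.mem_Icc.1 ha
  have hWj : 2 * (W * j) ≤ M := by nlinarith
  have hj2 : 2 * j ≤ W * j := Nat.mul_le_mul_right j hW
  have hj0 : 16 ≤ j := by nlinarith
  obtain ⟨lo, hlo⟩ : ∃ lo, M = lo + W * j := ⟨M - W * j, by omega⟩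
  have hlo' : M - W * j = lo := by omega
  rw [hlo'] at ha1 ⊢
  have hlo0 : W * j ≤ lo := by omega
  have ha0 : 0 < a := by omega
  set q := N / a with hq
  have hq1 : lo + 2 * j ≤ q := by
    rw [hq, Nat.le_div_iff_mul_le ha0]
    have h1 : a + (lo + 2 * j) ≤ 2 * M := by omega
    have h2 : (lo + 2 * j) * a ≤ M * M := by nlinarith [sq_nonneg ((lo + 2 * j : ℤ) - a)]
    omega
  have hq2 : q ≤ M + W * j := by
    rw [hq]
    apply Nat.div_le_of_le_mul
    have h1 : (lo + 2 * j) * (M + W * j) ≤ a * (M + W * j) := Nat.mul_le_mul_right _ ha1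
    have h2 : M * M + 2 * M ≤ (lo + 2 * j) * (M + W * j) := by
      have h3 : W * j * (W * j) ≤ M * j := by nlinarith
      have h4 : (lo + 2 * j) * (M + W * j) + W * j * (W * j) = M * M + 2 * j * (M + W * j) := by
        rw [hlo]; ring
      nlinarith
    omega
  have hqa : a * q ≤ N := Nat.mul_div_le N a
  have hqa' : N < a * (q + 1) := Nat.lt_mul_div_succ N ha0
  set k0 := 8 * W ^ 2 with hk0
  have hk : k0 ≤ 2 * j := by omega
  have hsub : (Finset.range (2 * j + 1 - k0)).image (fun i => q - (k0 + i)) ⊆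
      Finset.Icc lo (M + W * j) := by
    intro b hb
    simp only [Finset.mem_image, Finset.mem_range] at hb
    obtain ⟨i, hi, rfl⟩ := hb
    exact Finset.mem_Icc.2 ⟨by omega, by omega⟩
  have hnn : ∀ b ∈ Finset.Icc lo (M + W * j), 0 ≤ (if a * b ≤ N then
      qk (W / M) (Real.log N - Real.log a - Real.log b) else 0) := by
    intro b hb
    split_ifs with h
    · exact qk_nonneg _ (log_gap_nonneg ha0 (by have := (Finset.mem_Icc.1 hb).1; omega) h)
    · exact le_rfl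
  refine le_trans ?_ (Finset.sum_le_sum_of_subset_of_nonneg hsub fun b hb _ => hnn b hb)
  rw [Finset.sum_image (fun x hx y hy h => by
      simp only [Finset.coe_range, Set.mem_Iio] at hx hy
      have h' : q - (k0 + x) = q - (k0 + y) := h
      omega)]
  have hh := harmonic_ge k0 (2 * j + 1 - k0)
  rw [show k0 + (2 * j + 1 - k0) + 1 = 2 * j + 2 by omega] at hh
  have hW' : (2 : ℝ) ≤ W := by exact_mod_cast hW
  have hM0 : (0 : ℝ) < M := by exact_mod_cast (by omega : 0 < M)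
  have hlo1 : (0 : ℝ) < lo := by exact_mod_cast (by omega : 0 < lo)
  refine le_trans (mul_le_mul_of_nonneg_left hh (by positivity)) ?_
  rw [Finset.mul_sum]
  refine Finset.sum_le_sum fun i hi => ?_
  have hi' := Finset.mem_range.1 hi
  obtain ⟨b, hb⟩ : ∃ b, q = b + (k0 + i) := ⟨q - (k0 + i), by omega⟩
  rw [show q - (k0 + i) = b by omega]
  have hb1 : lo ≤ b := by omega
  have hab : a * b + a * (k0 + i) ≤ N := by rw [← Nat.mul_add, ← hb]; exact hqa
  have hab' : N ≤ a * b + a * (k0 + i + 1) := by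
    rw [← Nat.mul_add, show b + (k0 + i + 1) = q + 1 by omega]; exact hqa'.le
  rw [if_pos (by omega)]
  have ha' : (0 : ℝ) < a := by exact_mod_cast ha0
  have hb' : (lo : ℝ) ≤ b := by exact_mod_cast hb1
  have hb0 : (0 : ℝ) < b := by linarith
  have hN0 : (0 : ℝ) < N := by exact_mod_cast (by nlinarith : 0 < N)
  have e : Real.log N - Real.log a - Real.log b = Real.log (N / (a * b)) := by
    rw [Real.log_div hN0.ne' (by positivity), Real.log_mul ha'.ne' hb0.ne']; ring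
  have u1 : Real.log (N / (a * b)) ≤ ((k0 + i + 1 : ℕ) : ℝ) / lo := by
    refine (Real.log_le_sub_one_of_pos (by positivity)).trans ?_
    have h1 : (N : ℝ) ≤ a * b + a * ((k0 + i + 1 : ℕ) : ℝ) := by exact_mod_cast hab'
    calc (N : ℝ) / (a * b) - 1 = (N - a * b) / (a * b) := by field_simp
      _ ≤ (a * ((k0 + i + 1 : ℕ) : ℝ)) / (a * b) := by gcongr; linarith
      _ = ((k0 + i + 1 : ℕ) : ℝ) / b := by field_simp
      _ ≤ _ := by gcongr
  have u2 : (W : ℝ) * (W / M) ≤ Real.log (N / (a * b)) := by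
    refine le_trans ?_ (Real.one_sub_inv_le_log_of_pos (by positivity))
    have h1 : (a : ℝ) * b + a * ((k0 + i : ℕ) : ℝ) ≤ N := by exact_mod_cast hab
    have h2 : (8 : ℝ) * W ^ 2 ≤ ((k0 + i : ℕ) : ℝ) := by
      exact_mod_cast (by omega : 8 * W ^ 2 ≤ k0 + i)
    have h3 : (M : ℝ) ≤ 2 * a := by exact_mod_cast (by omega : M ≤ 2 * a)
    have h4 : (N : ℝ) ≤ 4 * (M * M) := by exact_mod_cast (by nlinarith : N ≤ 4 * (M * M))
    rw [inv_div, show 1 - (a : ℝ) * b / N = (N - a * b) / N by field_simp,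
      ← mul_div_assoc, div_le_div_iff₀ hM0 hN0]
    have h5 : (a : ℝ) * (8 * W ^ 2) ≤ N - a * b := by nlinarith
    calc (W : ℝ) * W * N ≤ W * W * (4 * (M * M)) := by gcongr
      _ = (M * (4 * W ^ 2)) * M := by ring
      _ ≤ (2 * a * (4 * W ^ 2)) * M := by gcongr
      _ = (a * (8 * W ^ 2)) * M := by ring
      _ ≤ _ := by gcongr
  have := qk_ge (σ := W / M) (W := W) (by positivity) (by positivity) u2 u1
  rw [e]
  refine le_trans (le_of_eq ?_) this
  field_simp

theorem lower_core {N W : ℕ} (hW : 7 ≤ W) (hM : 4 * W ^ 4 ≤ Nat.sqrt N) :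
    ∃ a : ℕ → ℂ, (∀ s : ℂ, 0 < s.re →
      ∃ z : ℂ, ‖z‖ ≤ 1 ∧ Tendsto (fun M => ps a M s) atTop (𝓝 z)) ∧
      ∀ r : ℝ, 0 < r → (N : ℝ) ^ (-r) * ((1 - 7 / W) / π *
        (Real.log (Nat.sqrt N) - Real.log (9 * W ^ 4))) ≤ ‖ps a N r‖ := by
  set M := Nat.sqrt N with hMdef
  set j := M / W ^ 2 with hjdef
  have hW2 : 0 < W ^ 2 := by positivity
  have hj : 4 * W ^ 2 ≤ j := by
    rw [hjdef, Nat.le_div_iff_mul_le hW2]; nlinarith
  have hM1 : W ^ 2 * j ≤ M := Nat.mul_div_le M _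
  have hM2 : M < W ^ 2 * (j + 1) := Nat.lt_mul_div_succ M hW2
  have hN1 : M * M ≤ N := Nat.sqrt_le N
  have hN2 : N ≤ M * M + 2 * M := by
    have := Nat.lt_succ_sqrt N
    rw [← hMdef] at this
    nlinarith
  have hWj : W * (W * j) ≤ M := by nlinarith
  have hWj2 : 2 * (W * j) ≤ M := by nlinarith
  have hj2 : 2 * j ≤ W * j := Nat.mul_le_mul_right j (by omega)
  have hj0 : 1 ≤ j := by nlinarith
  have hWj0 : 1 ≤ W * j := by omega
  set A := Finset.Icc (M - W * j) (M + W * j) with hA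
  have hA1 : ∀ a ∈ A, 1 ≤ a := fun a ha => by have := (Finset.mem_Icc.1 ha).1; omega
  have hW' : (7 : ℝ) ≤ W := by exact_mod_cast hW
  have hM0 : (0 : ℝ) < M := by exact_mod_cast (by omega : 0 < M)
  have hpi := Real.pi_gt_three
  have hσ : (0 : ℝ) < W / M := by positivity
  set D : ℝ := (2 * (W * j) + 1) * (2 / (W / M) + 2 * π * ((M + W * j : ℕ) : ℝ)) with hD
  have hD0 : 0 < D := by positivity
  have hcard : (A.card : ℝ) = 2 * (W * j) + 1 := by
    rw [hA, Nat.card_Icc, show M + W * j + 1 - (M - W * j) = 2 * (W * j) + 1 by omega]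
    push_cast; ring
  have hDle : ∑ a ∈ A, ∑ b ∈ A, pk (W / M) (Real.log a - Real.log b) ≤ D := by
    refine (Finset.sum_le_card_nsmul _ _ _ fun a ha => row_pk_le hσ (by omega) ha).trans ?_
    rw [nsmul_eq_mul, hcard]
  refine ⟨coef A (1 / D) (W / M) (Real.log N), coef_ball A hA1 (by positivity) hσ _ ?_,
    fun r hr => le_trans ?_ (ps_coef_ge A hA1 (by positivity) _ N hr)⟩
  · rw [one_div_mul_eq_div, div_le_one hD0]; exact hDle
  refine mul_le_mul_of_nonneg_left ?_ (by positivity)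
  set ℓ := Real.log ((2 * j + 2 : ℕ) : ℝ) - Real.log ((8 * W ^ 2 + 1 : ℕ) : ℝ) with hℓ
  have hℓ0 : 0 ≤ ℓ := by
    rw [hℓ, sub_nonneg]
    exact Real.log_le_log (by positivity) (by exact_mod_cast (by omega : 8 * W ^ 2 + 1 ≤ 2 * j + 2))
  have hℓ1 : Real.log M - Real.log (9 * W ^ 4) ≤ ℓ := by
    rw [hℓ, ← Real.log_div hM0.ne' (by positivity), ← Real.log_div (by positivity) (by positivity)]
    refine Real.log_le_log (by positivity) ?_
    rw [div_le_div_iff₀ (by positivity) (by positivity)]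
    have h1 : M * (8 * W ^ 2 + 1) ≤ (2 * j + 2) * (9 * W ^ 4) := by
      calc M * (8 * W ^ 2 + 1) ≤ (W ^ 2 * (j + 1)) * (9 * W ^ 2) :=
            Nat.mul_le_mul hM2.le (by omega)
        _ = (j + 1) * (9 * W ^ 4) := by ring
        _ ≤ _ := Nat.mul_le_mul_right _ (by omega)
    exact_mod_cast h1
  have hsub : Finset.Icc (M - W * j + 2 * j) (M + W * j - 2 * j) ⊆ A :=
    Finset.Icc_subset_Icc (by omega) (by omega)
  have hnum : (2 * (W * j) - 4 * j + 1) * (2 / (1 + 1 / (W : ℝ) ^ 2) * ((M - W * j : ℕ) : ℝ) * ℓ) ≤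
      ∑ a ∈ A, ∑ b ∈ A, if a * b ≤ N then
        qk (W / M) (Real.log N - Real.log a - Real.log b) else 0 := by
    refine le_trans ?_ (Finset.sum_le_sum_of_subset_of_nonneg hsub fun a ha _ =>
      Finset.sum_nonneg fun b hb => ?_)
    · refine le_trans (le_of_eq ?_) (Finset.card_nsmul_le_sum _ _ _ fun a ha =>
        row_qk_ge (by omega) hj hM1 hN1 hN2 ha)
      rw [nsmul_eq_mul, Nat.card_Icc]
      congr 1
      obtain ⟨t, ht⟩ : ∃ t, W * j = t + 2 * j := ⟨W * j - 2 * j, by omega⟩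
      rw [show M + W * j - 2 * j + 1 - (M - W * j + 2 * j) = 2 * t + 1 by omega]
      have : (W : ℝ) * j = t + 2 * j := by exact_mod_cast ht
      push_cast; linarith
    · split_ifs with h
      · exact qk_nonneg _ (log_gap_nonneg (hA1 a ha) (hA1 b hb) h)
      · exact le_rfl
  refine le_trans ?_ (mul_le_mul_of_nonneg_left hnum (one_div_pos.2 hD0).le)
  set x : ℝ := 1 / W with hx
  have hx0 : 0 < x := by positivity
  have hx1 : x ≤ 1 / 7 := by rw [hx]; gcongr
  have hxW : x * W = 1 := by rw [hx]; field_simp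
  have hJ : (W : ℝ) * j ≤ x * M := by
    have : (W : ℝ) * (W * j) ≤ M := by exact_mod_cast hWj
    calc (W : ℝ) * j = x * (W * (W * j)) := by rw [← mul_assoc, hxW, one_mul]
      _ ≤ _ := by gcongr
  have hj' : (0 : ℝ) ≤ j := Nat.cast_nonneg j
  have f1 : (1 - 2 * x) * (2 * (W * j) + 1) ≤ 2 * (W * j) - 4 * j + 1 := by
    have : x * (W * j) = j := by rw [← mul_assoc, hxW, one_mul]
    nlinarith
  have f2 : (1 - x) * M ≤ ((M - W * j : ℕ) : ℝ) := by
    rw [Nat.cast_sub (by omega)]; push_cast; linarith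
  have f3 : D ≤ (2 * (W * j) + 1) * (2 * π * (1 + 2 * x) * M) := by
    rw [hD]
    gcongr
    have : 2 / ((W : ℝ) / M) = 2 * x * M := by rw [hx]; field_simp
    rw [this]; push_cast
    nlinarith [mul_pos hx0 hM0]
  have f4 : 2 / (1 + x) ≤ 2 / (1 + 1 / (W : ℝ) ^ 2) := by
    have : 1 / (W : ℝ) ^ 2 = x ^ 2 := by rw [hx]; field_simp
    rw [this]
    gcongr
    nlinarith
  have g1 : (1 - 7 / W) / π * (Real.log M - Real.log (9 * W ^ 4)) ≤ (1 - 7 * x) / π * ℓ := by
    rw [show (7 : ℝ) / W = 7 * x by rw [hx]; ring]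
    exact mul_le_mul_of_nonneg_left hℓ1 (div_nonneg (by linarith) (by positivity))
  refine g1.trans ?_
  have hc : (0 : ℝ) < 2 * (W * j) + 1 := by positivity
  calc (1 - 7 * x) / π * ℓ
      ≤ ((1 - 2 * x) * (1 - x) / ((1 + x) * (1 + 2 * x))) / π * ℓ := by
        gcongr
        rw [le_div_iff₀ (by positivity)]
        nlinarith [mul_pos hx0 hx0, mul_pos hx0 (mul_pos hx0 hx0)]
    _ = 1 / ((2 * (W * j) + 1) * (2 * π * (1 + 2 * x) * M)) *
        (((1 - 2 * x) * (2 * (W * j) + 1)) * (2 / (1 + x) * ((1 - x) * M) * ℓ)) := by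
        field_simp
    _ ≤ _ := by
        have : 0 ≤ 1 - 2 * x := by linarith
        have : 0 ≤ 1 - x := by linarith
        have : (0 : ℝ) ≤ 2 * (W * j) - 4 * j + 1 := le_trans (by positivity) f1
        gcongr

lemma log_add_small (c : ℝ) {ε : ℝ} (hε : 0 < ε) (C : ℝ) (hC : 0 ≤ C) :
    ∀ᶠ L : ℝ in atTop, C * Real.log (L + 2) + c ≤ ε * L := by
  have h1 : Tendsto (fun L : ℝ => L + 2) atTop atTop := tendsto_atTop_add_const_right _ _ tendsto_id
  have h2 := (Real.isLittleO_log_id_atTop.comp_tendsto h1).bound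
    (c := ε / (4 * (C + 1))) (by positivity)
  filter_upwards [h2, eventually_ge_atTop 2, eventually_ge_atTop (2 * c / ε)] with L h3 h4 h5
  simp only [Function.comp, id, Real.norm_eq_abs] at h3
  rw [abs_of_nonneg (Real.log_nonneg (by linarith)), abs_of_nonneg (by linarith)] at h3
  rw [div_le_iff₀ hε] at h5
  have h6 : C * Real.log (L + 2) ≤ (C + 1) * (ε / (4 * (C + 1)) * (L + 2)) :=
    mul_le_mul (by linarith) h3 (Real.log_nonneg (by linarith)) (by linarith)
  have h7 : (C + 1) * (ε / (4 * (C + 1)) * (L + 2)) = ε / 4 * (L + 2) := by field_simp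
  nlinarith

theorem upper_eventually {ε : ℝ} (hε : 0 < ε) : ∀ᶠ N : ℕ in atTop, ∀ a : ℕ → ℂ,
    (∀ s : ℂ, 0 < s.re → ∃ z : ℂ, ‖z‖ ≤ 1 ∧ Tendsto (fun M => ps a M s) atTop (𝓝 z)) →
    ∀ s : ℂ, 0 < s.re → ‖ps a N s‖ ≤ (1 / π + ε) * Real.log N := by
  have hc := cb_nonneg
  have hpi := Real.pi_gt_three
  set η : ℝ := min (1 / 2) (ε / 4) with hη
  have hη0 : 0 < η := by positivity
  have hη1 : η ≤ 1 / 2 := min_le_left _ _
  have hη2 : η ≤ ε / 4 := min_le_right _ _
  have hlog : Tendsto (fun N : ℕ => Real.log N) atTop atTop :=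
    Real.tendsto_log_atTop.comp tendsto_natCast_atTop_atTop
  filter_upwards [eventually_ge_atTop 1, hlog.eventually (log_add_small
    (2 * (|Real.log ((cb + 1) / η ^ 2)| + 1) + 4 * (cb + 2) * Real.log (1 / η))
    (half_pos hε) (2 + 4 * (cb + 2)) (by positivity))] with N hN h1 a ha s hs
  have hN' : (1 : ℝ) ≤ N := by exact_mod_cast hN
  refine (ps_le_integral hs ha hN).trans ?_
  set L := Real.log N with hLdef
  set δ := Real.log (N + 1) - L with hδdef
  have hL : 0 ≤ L := Real.log_nonneg hN'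
  have hδe : δ = Real.log ((N + 1) / N) := by
    rw [Real.log_div (by positivity) (by positivity)]
  have hδ1 : 1 / ((N : ℝ) + 1) ≤ δ := by
    rw [hδe]
    refine le_trans (le_of_eq ?_) (Real.one_sub_inv_le_log_of_pos (by positivity))
    field_simp; ring
  have hδ : 0 < δ := lt_of_lt_of_le (by positivity) hδ1
  have hδ2 : δ ≤ 1 := by
    rw [hδe]
    refine (Real.log_le_sub_one_of_pos (by positivity)).trans ?_
    rw [sub_le_iff_le_add, div_le_iff₀ (by positivity)]; linarith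
  refine (integral_norm_ker_le hL hδ hδ2 hη0 hη1).trans ?_
  have e1 : Real.log ((cb + 1) / (η * δ) / (η / (L + δ + 1))) =
      Real.log ((cb + 1) / η ^ 2) + Real.log (1 / δ) + Real.log (L + δ + 1) := by
    rw [← Real.log_mul (by positivity) (by positivity), ← Real.log_mul (by positivity) (by positivity)]
    congr 1; field_simp
  have e2 : Real.log (1 / (η / (L + δ + 1))) = Real.log (1 / η) + Real.log (L + δ + 1) := by
    rw [← Real.log_mul (by positivity) (by positivity)]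
    congr 1; field_simp
  have b1 : Real.log (L + δ + 1) ≤ Real.log (L + 2) :=
    Real.log_le_log (by positivity) (by linarith)
  have b1' : 0 ≤ Real.log (L + 2) := Real.log_nonneg (by linarith)
  have b2 : Real.log (1 / δ) ≤ L + 1 := by
    have : Real.log (1 / δ) ≤ Real.log (N + 1) := by
      refine Real.log_le_log (by positivity) ?_
      rw [div_le_iff₀ hδ]
      rw [div_le_iff₀ (by positivity)] at hδ1
      linarith
    linarith
  have b3 : (1 + η) ^ 3 / π ≤ 1 / π + ε / 2 := by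
    have : (1 + η) ^ 3 ≤ 1 + 5 * η := by nlinarith [mul_pos hη0 hη0]
    rw [div_le_iff₀ (by positivity), add_mul, one_div_mul_cancel (by positivity)]
    nlinarith
  have b4 : (1 + η) ^ 3 / π ≤ 2 := by
    have : (1 + η) ^ 3 ≤ 1 + 5 * η := by nlinarith [mul_pos hη0 hη0]
    rw [div_le_iff₀ (by positivity)]; linarith
  have b5 : 0 ≤ (1 + η) ^ 3 / π := by positivity
  set t := (1 + η) ^ 3 / π
  have b6 := le_abs_self (Real.log ((cb + 1) / η ^ 2))
  have b7 := abs_nonneg (Real.log ((cb + 1) / η ^ 2))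
  rw [e1, e2]
  calc t * (Real.log ((cb + 1) / η ^ 2) + Real.log (1 / δ) + Real.log (L + δ + 1))
        + 4 * (cb + 2) * (Real.log (1 / η) + Real.log (L + δ + 1))
      ≤ t * (|Real.log ((cb + 1) / η ^ 2)| + (L + 1) + Real.log (L + 2))
        + 4 * (cb + 2) * (Real.log (1 / η) + Real.log (L + 2)) := by gcongr
    _ = t * L + t * (|Real.log ((cb + 1) / η ^ 2)| + 1 + Real.log (L + 2))
        + 4 * (cb + 2) * (Real.log (1 / η) + Real.log (L + 2)) := by ring
    _ ≤ (1 / π + ε / 2) * L + 2 * (|Real.log ((cb + 1) / η ^ 2)| + 1 + Real.log (L + 2))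
        + 4 * (cb + 2) * (Real.log (1 / η) + Real.log (L + 2)) := by gcongr
    _ ≤ _ := by linarith

theorem lower_eventually {ε : ℝ} (hε : 0 < ε) : ∀ᶠ N : ℕ in atTop, ∃ a : ℕ → ℂ,
    (∀ s : ℂ, 0 < s.re → ∃ z : ℂ, ‖z‖ ≤ 1 ∧ Tendsto (fun M => ps a M s) atTop (𝓝 z)) ∧
    ∃ s : ℂ, 0 < s.re ∧ (1 / (2 * π) - ε) * Real.log N ≤ ‖ps a N s‖ := by
  have hpi := Real.pi_gt_three
  obtain ⟨W, hW⟩ := exists_nat_ge (max 8 (8 / ε))
  have hW1 : (8 : ℝ) ≤ W := (le_max_left _ _).trans hW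
  have hW2 : 8 / ε ≤ W := (le_max_right _ _).trans hW
  have hW3 : 7 ≤ W := by exact_mod_cast (by linarith : (7 : ℝ) ≤ W)
  have hlog : Tendsto (fun N : ℕ => Real.log N) atTop atTop :=
    Real.tendsto_log_atTop.comp tendsto_natCast_atTop_atTop
  filter_upwards [eventually_ge_atTop ((4 * W ^ 4) * (4 * W ^ 4)), eventually_ge_atTop 2,
    hlog.eventually_ge_atTop (2 * (1 + Real.log (9 * W ^ 4)) / ε),
    hlog.eventually_ge_atTop (2 * (1 + Real.log (9 * W ^ 4)))] with N hN hN2 h1 h1'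
  have hM : 4 * W ^ 4 ≤ Nat.sqrt N := Nat.le_sqrt.2 hN
  obtain ⟨a, ha, h2⟩ := lower_core hW3 hM
  have hN' : (2 : ℝ) ≤ N := by exact_mod_cast hN2
  set L := Real.log N with hLdef
  have hL : 0 < L := Real.log_pos (by linarith)
  set x : ℝ := 1 / W with hx
  have hx0 : 0 < x := by positivity
  have hx1 : x ≤ 1 / 8 := by rw [hx]; gcongr
  have hx2 : 8 * x ≤ ε := by
    rw [hx, mul_one_div, div_le_iff₀ (by positivity)]
    rw [div_le_iff₀ hε] at hW2; linarith
  refine ⟨a, ha, ((x / L : ℝ) : ℂ), by simp only [Complex.ofReal_re]; positivity,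
    le_trans ?_ (h2 _ (by positivity))⟩
  have e1 : 1 - x ≤ (N : ℝ) ^ (-(x / L)) := by
    rw [Real.rpow_def_of_pos (by linarith), ← hLdef, show L * -(x / L) = -x by field_simp]
    linarith [Real.add_one_le_exp (-x)]
  have e2 : L / 2 - 1 ≤ Real.log (Nat.sqrt N) := by
    have h3 : N ≤ 4 * (Nat.sqrt N * Nat.sqrt N) := by
      have := Nat.lt_succ_sqrt N
      have h4 : 1 ≤ Nat.sqrt N := Nat.le_sqrt.2 (by omega)
      nlinarith
    have h4 : (0 : ℝ) < Nat.sqrt N := by exact_mod_cast (Nat.sqrt_pos.2 (by omega))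
    have h5 : (N : ℝ) ≤ 4 * (Nat.sqrt N * Nat.sqrt N) := by exact_mod_cast h3
    have h6 := Real.log_le_log (by linarith) h5
    rw [Real.log_mul (by norm_num) (by positivity), Real.log_mul h4.ne' h4.ne',
      show (4 : ℝ) = 2 ^ 2 by norm_num, Real.log_pow] at h6
    have := Real.log_two_lt_d9
    push_cast at h6
    linarith
  set c := 1 + Real.log (9 * W ^ 4) with hc
  have hc0 : 0 ≤ c := by
    have : 0 ≤ Real.log (9 * (W : ℝ) ^ 4) := Real.log_nonneg (by
      have : (1 : ℝ) ≤ W ^ 4 := one_le_pow₀ (by linarith)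
      linarith)
    linarith
  rw [div_le_iff₀ hε] at h1
  rw [show (7 : ℝ) / W = 7 * x by rw [hx]; ring]
  have e3 : 0 ≤ L / 2 - c := by linarith
  calc (1 / (2 * π) - ε) * L ≤ (1 - 8 * x) / π * (L / 2 - c) := by
        have k1 : (1 - 8 * x) / π * (L / 2 - c) =
            1 / (2 * π) * L - (8 * x * (L / 2) + (1 - 8 * x) * c) / π := by field_simp; ring
        have k2 : (8 * x * (L / 2) + (1 - 8 * x) * c) / π ≤ ε * L := by
          rw [div_le_iff₀ (by positivity)]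
          have k3 : 8 * x * (L / 2) ≤ ε * (L / 2) := by gcongr
          have k4 : (1 - 8 * x) * c ≤ c := by nlinarith
          have k5 : 0 < ε * L := by positivity
          nlinarith
        rw [k1]; linarith
    _ ≤ (1 - x) * ((1 - 7 * x) / π * (L / 2 - c)) := by
        have k1 : (1 - 8 * x) / π ≤ (1 - x) * ((1 - 7 * x) / π) := by
          rw [← mul_div_assoc (1 - x)]
          exact div_le_div_of_nonneg_right (by nlinarith) (by positivity)
        rw [← mul_assoc (1 - x)]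
        exact mul_le_mul_of_nonneg_right k1 e3
    _ ≤ _ := by
        have k1 : 0 ≤ (1 - 7 * x) / π := div_nonneg (by linarith) (by positivity)
        have k2 : L / 2 - c ≤ Real.log (Nat.sqrt N) - Real.log (9 * W ^ 4) := by linarith
        exact mul_le_mul e1 (mul_le_mul_of_nonneg_left k2 k1) (mul_nonneg k1 e3) (by positivity)

end Pool.Agent.Lib.MP_cdccbc_an.Inf
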