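import Pool.Agent.Lib.MP_cdccbc_an.InfKernel

/-! Upper bound for the partial sums of a bounded Dirichlet series. -/

namespace Pool.Agent.Lib.MP_cdccbc_an.Inf

open MeasureTheory Real Complex Filter Topology Set FourierTransform

lemma H_hasDerivAt {u v x : ℝ} (hu : 0 < u) (huv : u < v) (hx : 0 ≤ x) :
    HasDerivAt (fun x => v / (v - u) * (Real.log (x + u) - Real.log (x + v)))
      (v / ((x + u) * (x + v))) x := by
  have h1 : x + u ≠ 0 := by positivity
  have h2 : x + v ≠ 0 := by have : 0 < v := hu.trans huv; positivity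
  have h3 : v - u ≠ 0 := (sub_pos.2 huv).ne'
  have := ((((hasDerivAt_id' x).add_const u).log h1).sub
    (((hasDerivAt_id' x).add_const v).log h2)).const_mul (v / (v - u))
  have e : v / ((x + u) * (x + v)) = v / (v - u) * (1 / (x + u) - 1 / (x + v)) := by
    field_simp
    ring
  rw [e]; exact this

lemma H_tendsto {u v : ℝ} (hu : 0 < u) (huv : u < v) :
    Tendsto (fun x => v / (v - u) * (Real.log (x + u) - Real.log (x + v))) atTop (𝓝 0) := by
  have h1 : Tendsto (fun x : ℝ => 1 - (v - u) / (x + v)) atTop (𝓝 (1 - 0)) :=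
    tendsto_const_nhds.sub (tendsto_const_nhds.div_atTop (tendsto_atTop_add_const_right _ _ tendsto_id))
  have h2 := (h1.log (by norm_num)).const_mul (v / (v - u))
  simp only [sub_zero, Real.log_one, mul_zero] at h2
  refine h2.congr' ?_
  filter_upwards [eventually_gt_atTop 0] with x hx
  have h3 : 0 < x + u := by positivity
  have h4 : 0 < x + v := by linarith
  rw [← Real.log_div h3.ne' h4.ne']
  congr 2
  field_simp
  ring

lemma H_integrableOn {u v : ℝ} (hu : 0 < u) (huv : u < v) :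
    IntegrableOn (fun x => v / ((x + u) * (x + v))) (Ioi 0) := by
  refine integrableOn_Ioi_deriv_of_nonneg' (fun x hx => H_hasDerivAt hu huv hx) ?_
    (H_tendsto hu huv)
  intro x hx
  have : 0 < v := hu.trans huv
  have : 0 < x := hx
  positivity

lemma H_integral {u v : ℝ} (hu : 0 < u) (huv : u < v) :
    ∫ x in Ioi 0, v / ((x + u) * (x + v)) = v / (v - u) * Real.log (v / u) := by
  rw [integral_Ioi_of_hasDerivAt_of_tendsto' (fun x hx => H_hasDerivAt hu huv hx)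
    (H_integrableOn hu huv) (H_tendsto hu huv), Real.log_div (hu.trans huv).ne' hu.ne']
  simp only [zero_add]
  ring

lemma ker_pointwise {L δ η : ℝ} (hL : 0 ≤ L) (hδ : 0 < δ) (hη : 0 < η) (hη' : η ≤ 1 / 2)
    (ξ : ℝ) :
    ‖ker L δ ξ‖ ≤ (1 + η) ^ 2 / (2 * π) * ((cb + 1) / (η * δ) /
        ((|ξ| + η / (L + δ + 1)) * (|ξ| + (cb + 1) / (η * δ))))
      + (cb + 2) * (1 / ((|ξ| + η / (L + δ + 1)) * (|ξ| + 1))) := by
  have hc := cb_nonneg
  set x := |ξ| with hxdef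
  have hx : 0 ≤ x := abs_nonneg _
  set u := η / (L + δ + 1) with hudef
  set v := (cb + 1) / (η * δ) with hvdef
  have hu : 0 < u := by positivity
  have hv : 0 < v := by positivity
  have huη : u ≤ η := div_le_self hη.le (by linarith)
  set K := ‖ker L δ ξ‖ with hK
  have hK0 : 0 ≤ K := norm_nonneg _
  set m1 := ‖𝓕 (bs (-1) 1) ξ‖
  set m2 := ‖𝓕 (bs L δ) ξ‖
  have hm1 : 0 ≤ m1 := norm_nonneg _
  have hm2 : 0 ≤ m2 := norm_nonneg _
  have a1 : m1 ≤ 1 := norm_fourier_bs_le _ one_pos ξ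
  have a2 : m2 ≤ 1 := norm_fourier_bs_le _ hδ ξ
  have a3 : 1 * x * m1 ≤ cb := norm_fourier_bs_le' _ one_pos ξ
  have a4 : δ * x * m2 ≤ cb := norm_fourier_bs_le' _ hδ ξ
  have a5 : 2 * π * x * K ≤ m1 + m2 := norm_ker_le' hL hδ ξ
  have a6 : u * K ≤ η := by
    have := norm_ker_le hL hδ ξ
    calc u * K ≤ u * (L + δ + 1) := by gcongr
      _ = η := by rw [hudef]; field_simp
  have b1 : m1 ≤ (cb + 1) / (x + 1) := by
    rw [le_div_iff₀ (by positivity)]; nlinarith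
  have b2 : m2 ≤ (1 + η) * v / (x + v) := by
    rw [le_div_iff₀ (by positivity)]
    have e : η * v * δ = cb + 1 := by rw [hvdef]; field_simp
    have : x * m2 ≤ η * v := by
      by_contra h
      push Not at h
      nlinarith
    nlinarith
  have hpi := Real.pi_gt_three
  have c1 : x * K ≤ (m1 + m2) / (2 * π) := by
    rw [le_div_iff₀ (by positivity)]; linarith
  have c2 : (x + u) * K ≤ (1 + η) * ((m1 + m2) / (2 * π)) + 1 / (x + 1) := by
    have d0 : 0 ≤ (m1 + m2) / (2 * π) := by positivity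
    rcases le_total x 1 with h | h
    · have : η ≤ 1 / (x + 1) := by rw [le_div_iff₀ (by positivity)]; nlinarith
      nlinarith
    · have d1 : 0 ≤ 1 / (x + 1) := by positivity
      have d2 : u * K ≤ η * (x * K) := by nlinarith [mul_nonneg hη.le hK0]
      nlinarith
  have c3 : (1 + η) * ((m1 + m2) / (2 * π)) ≤
      (1 + η) ^ 2 / (2 * π) * (v / (x + v)) + (cb + 1) / (x + 1) := by
    have d1 : (1 + η) * (m1 / (2 * π)) ≤ m1 := by
      rw [← mul_div_assoc, div_le_iff₀ (by positivity)]; nlinarith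
    have d2 : (1 + η) * (m2 / (2 * π)) ≤ (1 + η) * (((1 + η) * v / (x + v)) / (2 * π)) := by
      gcongr
    have d3 : (1 + η) * (((1 + η) * v / (x + v)) / (2 * π)) =
        (1 + η) ^ 2 / (2 * π) * (v / (x + v)) := by field_simp
    rw [add_div, mul_add]; linarith
  have hxu : 0 < x + u := by positivity
  have e1 : (1 + η) ^ 2 / (2 * π) * (v / ((x + u) * (x + v))) + (cb + 2) * (1 / ((x + u) * (x + 1)))
      = ((1 + η) ^ 2 / (2 * π) * (v / (x + v)) + (cb + 1) / (x + 1) + 1 / (x + 1)) / (x + u) := by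
    field_simp
    ring
  rw [e1, le_div_iff₀ hxu]
  linarith

lemma integral_norm_ker_le {L δ η : ℝ} (hL : 0 ≤ L) (hδ : 0 < δ) (hδ' : δ ≤ 1) (hη : 0 < η)
    (hη' : η ≤ 1 / 2) :
    ∫ ξ, ‖ker L δ ξ‖ ≤ (1 + η) ^ 3 / π * Real.log ((cb + 1) / (η * δ) / (η / (L + δ + 1)))
      + 4 * (cb + 2) * Real.log (1 / (η / (L + δ + 1))) := by
  have hc := cb_nonneg
  have hp := ker_pointwise hL hδ hη hη'
  set u := η / (L + δ + 1) with hudef
  set v := (cb + 1) / (η * δ) with hvdef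
  have hu : 0 < u := by positivity
  have huη : u ≤ η := div_le_self hη.le (by linarith)
  have hv : 2 ≤ v := by
    rw [hvdef, le_div_iff₀ (by positivity)]; nlinarith
  have huv : u < v := by linarith
  have hu1 : u < 1 := by linarith
  set G : ℝ → ℝ := fun x => (1 + η) ^ 2 / (2 * π) * (v / ((x + u) * (x + v)))
      + (cb + 2) * (1 / ((x + u) * (x + 1))) with hG
  have hGi : IntegrableOn G (Ioi 0) :=
    ((H_integrableOn hu huv).const_mul _).add ((H_integrableOn hu hu1).const_mul _)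
  have hGi' : Integrable fun ξ => G |ξ| := by
    have h1 : IntegrableOn (fun ξ => G |ξ|) (Ioi 0) :=
      hGi.congr_fun (fun x hx => by rw [abs_of_pos hx]) measurableSet_Ioi
    have h2 : IntegrableOn (fun ξ => G |ξ|) (Iic 0) := by
      rw [← Measure.map_neg_eq_self (volume : Measure ℝ)]
      let m : MeasurableEmbedding fun x : ℝ => -x := (Homeomorph.neg ℝ).measurableEmbedding
      rw [m.integrableOn_map_iff]
      simp_rw [Function.comp_def, abs_neg, neg_preimage, neg_Iic, neg_zero]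
      exact Iff.mpr integrableOn_Ici_iff_integrableOn_Ioi h1
    have := h2.union h1
    rwa [Iic_union_Ioi, integrableOn_univ] at this
  have h1 : ∫ ξ, ‖ker L δ ξ‖ ≤ ∫ ξ, G |ξ| :=
    integral_mono (ker_integrable hL hδ).norm hGi' hp
  rw [integral_comp_abs (f := G), hG, integral_add ((H_integrableOn hu huv).const_mul _)
    ((H_integrableOn hu hu1).const_mul _), integral_const_mul, integral_const_mul,
    H_integral hu huv, H_integral hu hu1] at h1
  refine h1.trans ?_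
  have l1 : 0 ≤ Real.log (v / u) := Real.log_nonneg (by rw [le_div_iff₀ hu]; linarith)
  have l2 : 0 ≤ Real.log (1 / u) := Real.log_nonneg (by rw [le_div_iff₀ hu]; linarith)
  have k1 : v / (v - u) ≤ 1 + η := by rw [div_le_iff₀ (by linarith)]; nlinarith
  have k2 : 1 / (1 - u) ≤ 2 := by rw [div_le_iff₀ (by linarith)]; linarith
  have hpi := Real.pi_pos
  calc 2 * ((1 + η) ^ 2 / (2 * π) * (v / (v - u) * Real.log (v / u))
        + (cb + 2) * (1 / (1 - u) * Real.log (1 / u)))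
      ≤ 2 * ((1 + η) ^ 2 / (2 * π) * ((1 + η) * Real.log (v / u))
        + (cb + 2) * (2 * Real.log (1 / u))) := by gcongr
    _ = _ := by field_simp; ring

/-- Partial sum of a Dirichlet series. -/
noncomputable def ps (a : ℕ → ℂ) (N : ℕ) (s : ℂ) : ℂ :=
  ∑ n ∈ Finset.Icc 1 N, a n * (n : ℂ) ^ (-s)

lemma abel_id (c g : ℕ → ℂ) (M : ℕ) :
    ∑ n ∈ Finset.Icc 1 M, c n * g n = (∑ n ∈ Finset.Icc 1 M, c n) * g (M + 1)
      + ∑ n ∈ Finset.Icc 1 M, (∑ k ∈ Finset.Icc 1 n, c k) * (g n - g (n + 1)) := by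
  induction M with
  | zero => simp
  | succ M ih =>
    rw [Finset.sum_Icc_succ_top (by omega), Finset.sum_Icc_succ_top (by omega),
      Finset.sum_Icc_succ_top (by omega), ih, Finset.sum_Icc_succ_top (by omega)]
    ring

lemma norm_cpow_sub_le {w : ℂ} (hw : 0 < w.re) {n : ℕ} (hn : 1 ≤ n) :
    ‖(n : ℂ) ^ (-w) - ((n + 1 : ℕ) : ℂ) ^ (-w)‖ ≤ ‖w‖ * (n : ℝ) ^ (-w.re - 1) := by
  have hn' : (1 : ℝ) ≤ n := by exact_mod_cast hn
  have hw0 : -w ≠ 0 := by
    intro h; rw [neg_eq_zero] at h; simp [h] at hw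
  have := norm_image_sub_le_of_norm_deriv_le_segment' (f := fun y : ℝ => (y : ℂ) ^ (-w))
    (f' := fun y : ℝ => -w * (y : ℂ) ^ (-w - 1)) (a := n) (b := n + 1)
    (C := ‖w‖ * (n : ℝ) ^ (-w.re - 1))
    (fun x hx => (hasDerivAt_ofReal_cpow_const (by linarith [hx.1]) hw0).hasDerivWithinAt)
    (fun x hx => by
      rw [norm_mul, norm_neg, Complex.norm_cpow_eq_rpow_re_of_pos (by linarith [hx.1])]
      simp only [sub_re, neg_re, one_re]
      exact mul_le_mul_of_nonneg_left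
        (Real.rpow_le_rpow_of_nonpos (by linarith) hx.1 (by linarith)) (norm_nonneg _))
    (n + 1) ⟨by linarith, le_rfl⟩
  rw [norm_sub_rev]
  simpa using this

lemma abel_bound {c : ℕ → ℂ} {B : ℝ} (hB : ∀ M, ‖∑ n ∈ Finset.Icc 1 M, c n‖ ≤ B) {w : ℂ}
    (hw : 0 < w.re) (M : ℕ) :
    ‖∑ n ∈ Finset.Icc 1 M, c n * (n : ℂ) ^ (-w)‖ ≤
      B * (1 + ‖w‖ * ∑' n : ℕ, (n : ℝ) ^ (-w.re - 1)) := by
  have hB0 : 0 ≤ B := (norm_nonneg _).trans (hB 0)
  rw [abel_id c (fun n => (n : ℂ) ^ (-w))]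
  refine (norm_add_le _ _).trans ?_
  have h1 : ‖((M + 1 : ℕ) : ℂ) ^ (-w)‖ ≤ 1 := by
    rw [Complex.norm_natCast_cpow_of_pos (by omega)]
    exact Real.rpow_le_one_of_one_le_of_nonpos (by exact_mod_cast Nat.le_add_left 1 M)
      (by simpa using hw.le)
  have h2 : ‖(∑ n ∈ Finset.Icc 1 M, c n) * ((M + 1 : ℕ) : ℂ) ^ (-w)‖ ≤ B * 1 := by
    rw [norm_mul]; gcongr; exact hB M
  have hs : Summable fun n : ℕ => (n : ℝ) ^ (-w.re - 1) :=
    Real.summable_nat_rpow.2 (by linarith)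
  have h3 : ‖∑ n ∈ Finset.Icc 1 M, (∑ k ∈ Finset.Icc 1 n, c k) *
      ((n : ℂ) ^ (-w) - ((n + 1 : ℕ) : ℂ) ^ (-w))‖ ≤
      B * (‖w‖ * ∑' n : ℕ, (n : ℝ) ^ (-w.re - 1)) := by
    refine (norm_sum_le _ _).trans ?_
    calc ∑ n ∈ Finset.Icc 1 M, ‖(∑ k ∈ Finset.Icc 1 n, c k) *
          ((n : ℂ) ^ (-w) - ((n + 1 : ℕ) : ℂ) ^ (-w))‖
        ≤ ∑ n ∈ Finset.Icc 1 M, B * (‖w‖ * (n : ℝ) ^ (-w.re - 1)) := by
          refine Finset.sum_le_sum fun n hn => ?_
          rw [norm_mul]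
          gcongr
          · exact hB n
          · exact norm_cpow_sub_le hw (Finset.mem_Icc.1 hn).1
      _ = B * (‖w‖ * ∑ n ∈ Finset.Icc 1 M, (n : ℝ) ^ (-w.re - 1)) := by
          rw [Finset.mul_sum, Finset.mul_sum]
      _ ≤ _ := by
          gcongr
          exact hs.sum_le_tsum _ fun n _ => by positivity
  linarith

lemma ps_bound {a : ℕ → ℂ} {s : ℂ} (hs : 0 < s.re)
    (ha : ∀ s : ℂ, 0 < s.re → ∃ z : ℂ, ‖z‖ ≤ 1 ∧ Tendsto (fun M => ps a M s) atTop (𝓝 z)) :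
    ∃ A : ℝ, ∀ (M : ℕ) (ξ : ℝ), ‖ps a M (s - ((2 * π * ξ : ℝ) : ℂ) * I)‖ ≤ A * (1 + |ξ|) := by
  obtain ⟨z, -, hz⟩ := ha (s - ((s.re / 2 : ℝ) : ℂ)) (by simp; linarith)
  obtain ⟨B, hB⟩ := hz.norm.bddAbove_range
  have hB' : ∀ M, ‖∑ n ∈ Finset.Icc 1 M, a n * (n : ℂ) ^ (-(s - ((s.re / 2 : ℝ) : ℂ)))‖ ≤ B :=
    fun M => hB ⟨M, rfl⟩
  have hB0 : 0 ≤ B := (norm_nonneg _).trans (hB' 0)
  set Z := ∑' n : ℕ, (n : ℝ) ^ (-(s.re / 2) - 1)
  have hZ : 0 ≤ Z := tsum_nonneg fun n => by positivity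
  refine ⟨B * (1 + (s.re / 2 + 2 * π) * Z), fun M ξ => ?_⟩
  set w : ℂ := ((s.re / 2 : ℝ) : ℂ) - ((2 * π * ξ : ℝ) : ℂ) * I with hw
  have hwre : w.re = s.re / 2 := by simp [hw]
  have h1 := abel_bound hB' (w := w) (by rw [hwre]; linarith) M
  have h2 : ps a M (s - ((2 * π * ξ : ℝ) : ℂ) * I) =
      ∑ n ∈ Finset.Icc 1 M, a n * (n : ℂ) ^ (-(s - ((s.re / 2 : ℝ) : ℂ))) * (n : ℂ) ^ (-w) := by
    refine Finset.sum_congr rfl fun n hn => ?_
    have : (n : ℂ) ≠ 0 := by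
      have := (Finset.mem_Icc.1 hn).1
      exact_mod_cast (by omega : n ≠ 0)
    rw [mul_assoc (a n), ← Complex.cpow_add _ _ this]
    congr 2
    rw [hw]; ring
  rw [h2]
  refine h1.trans ?_
  rw [hwre]
  have h3 : ‖w‖ ≤ s.re / 2 + 2 * π * |ξ| := by
    refine (norm_sub_le _ _).trans (le_of_eq ?_)
    rw [norm_mul, Complex.norm_I, Complex.norm_real, Complex.norm_real, Real.norm_eq_abs,
      Real.norm_eq_abs, abs_of_pos (by linarith), abs_mul, abs_of_pos (by positivity), mul_one]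
  have h4 := abs_nonneg ξ
  have hpi := Real.pi_pos
  have h5 : ‖w‖ ≤ (s.re / 2 + 2 * π) * (1 + |ξ|) := by nlinarith
  rw [mul_assoc]
  gcongr
  calc 1 + ‖w‖ * Z ≤ 1 + (s.re / 2 + 2 * π) * (1 + |ξ|) * Z := by gcongr
    _ ≤ _ := by nlinarith

lemma ps_eq_integral (a : ℕ → ℂ) (s : ℂ) {L δ : ℝ} (hL : 0 ≤ L) (hδ : 0 < δ) (M : ℕ) :
    ∑ n ∈ Finset.Icc 1 M, a n * (n : ℂ) ^ (-s) * phi L δ (Real.log n) =
      ∫ ξ, ker L δ ξ * ps a M (s - ((2 * π * ξ : ℝ) : ℂ) * I) := by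
  have key : ∀ n ∈ Finset.Icc 1 M, ∀ ξ : ℝ,
      ker L δ ξ * (a n * (n : ℂ) ^ (-(s - ((2 * π * ξ : ℝ) : ℂ) * I))) =
        a n * (n : ℂ) ^ (-s) *
          (Complex.exp (((2 * π * (ξ * Real.log n) : ℝ) : ℂ) * I) * ker L δ ξ) := by
    intro n hn ξ
    have h0 : (n : ℂ) ≠ 0 := by
      have := (Finset.mem_Icc.1 hn).1
      exact_mod_cast (by omega : n ≠ 0)
    rw [neg_sub, sub_eq_neg_add, Complex.cpow_add _ _ h0,
      Complex.cpow_def_of_ne_zero h0 (((2 * π * ξ : ℝ) : ℂ) * I), ← Complex.natCast_log]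
    have : ((Real.log n : ℝ) : ℂ) * (((2 * π * ξ : ℝ) : ℂ) * I) =
        ((2 * π * (ξ * Real.log n) : ℝ) : ℂ) * I := by push_cast; ring
    rw [this]; ring
  have hint : ∀ x : ℝ, Integrable fun ξ : ℝ =>
      Complex.exp (((2 * π * (ξ * x) : ℝ) : ℂ) * I) * ker L δ ξ := by
    intro x
    refine (ker_integrable hL hδ).bdd_mul (c := 1) (by fun_prop) ?_
    exact Eventually.of_forall fun ξ => (Complex.norm_exp_ofReal_mul_I _).le
  simp only [ps, Finset.mul_sum]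
  rw [integral_finsetSum]
  · refine Finset.sum_congr rfl fun n hn => ?_
    simp_rw [key n hn]
    rw [integral_const_mul, ker_inv hL hδ]
  · intro n hn
    simp_rw [key n hn]
    exact (hint _).const_mul _

lemma ps_continuous (a : ℕ → ℂ) (M : ℕ) : Continuous (ps a M) := by
  refine continuous_finsetSum _ fun n hn => continuous_const.mul ?_
  have h0 : (n : ℂ) ≠ 0 := by
    have := (Finset.mem_Icc.1 hn).1
    exact_mod_cast (by omega : n ≠ 0)
  exact continuous_neg.const_cpow (Or.inl h0)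

theorem ps_le_integral {a : ℕ → ℂ} {s : ℂ} (hs : 0 < s.re)
    (ha : ∀ s : ℂ, 0 < s.re → ∃ z : ℂ, ‖z‖ ≤ 1 ∧ Tendsto (fun M => ps a M s) atTop (𝓝 z))
    {N : ℕ} (hN : 1 ≤ N) :
    ‖ps a N s‖ ≤ ∫ ξ, ‖ker (Real.log N) (Real.log (N + 1) - Real.log N) ξ‖ := by
  have hN' : (1 : ℝ) ≤ N := by exact_mod_cast hN
  set L := Real.log N with hLdef
  set δ := Real.log (N + 1) - L with hδdef
  have hL : 0 ≤ L := Real.log_nonneg hN'
  have hδ : 0 < δ := sub_pos.2 (Real.log_lt_log (by linarith) (by linarith))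
  obtain ⟨A, hA⟩ := ps_bound hs ha
  have hre : ∀ ξ : ℝ, 0 < (s - ((2 * π * ξ : ℝ) : ℂ) * I).re := fun ξ => by simpa using hs
  choose f hf1 hf2 using fun ξ : ℝ => ha _ (hre ξ)
  have h1 : Tendsto (fun M => ∫ ξ, ker L δ ξ * ps a M (s - ((2 * π * ξ : ℝ) : ℂ) * I)) atTop
      (𝓝 (∫ ξ, ker L δ ξ * f ξ)) := by
    refine tendsto_integral_of_dominated_convergence
      (fun ξ => A * (‖ker L δ ξ‖ + |ξ| * ‖ker L δ ξ‖)) (fun M => ?_) ?_ (fun M => ?_) ?_
    · exact ((ker_continuous hL hδ).mul ((ps_continuous a M).comp (by fun_prop))).aestronglyMeasurable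
    · exact ((ker_integrable hL hδ).norm.add (ker_integrable' hL hδ)).const_mul _
    · refine Eventually.of_forall fun ξ => ?_
      rw [norm_mul]
      calc _ ≤ ‖ker L δ ξ‖ * (A * (1 + |ξ|)) := by gcongr; exact hA M ξ
        _ = _ := by ring
    · exact Eventually.of_forall fun ξ => (hf2 ξ).const_mul _
  have h2 : ∀ᶠ M in atTop, ∫ ξ, ker L δ ξ * ps a M (s - ((2 * π * ξ : ℝ) : ℂ) * I) = ps a N s := by
    filter_upwards [eventually_ge_atTop N] with M hM
    rw [← ps_eq_integral a s hL hδ M, ps]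
    symm
    refine Finset.sum_subset_zero_on_sdiff (Finset.Icc_subset_Icc_right hM) ?_ ?_
    · intro n hn
      simp only [Finset.mem_sdiff, Finset.mem_Icc, not_and, not_le] at hn
      have h3 : N + 1 ≤ n := hn.2 hn.1.1
      have h4 : (N : ℝ) + 1 ≤ n := by exact_mod_cast h3
      rw [phi_zero hL hδ, mul_zero]
      have := Real.log_le_log (by linarith) h4
      rw [hδdef]; linarith
    · intro n hn
      have h3 := Finset.mem_Icc.1 hn
      have h4 : (1 : ℝ) ≤ n := by exact_mod_cast h3.1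
      have h5 : (n : ℝ) ≤ N := by exact_mod_cast h3.2
      rw [phi_one hδ (Real.log_nonneg h4) (Real.log_le_log (by linarith) h5), mul_one]
  have h3 : ∫ ξ, ker L δ ξ * f ξ = ps a N s :=
    tendsto_nhds_unique h1 (tendsto_const_nhds.congr' (h2.mono fun M h => h.symm))
  rw [← h3]
  refine norm_integral_le_of_norm_le (ker_integrable hL hδ).norm
    (Eventually.of_forall fun ξ => ?_)
  rw [norm_mul]
  exact mul_le_of_le_one_right (norm_nonneg _) (hf1 ξ)

end Pool.Agent.Lib.MP_cdccbc_an.Inf
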