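import Pool.Agent.Lib.MP_cdccbc_an.Bridge
import Pool.Agent.Lib.MP_cdccbc_an.Entropy

/-! The lower bound: a Riesz product with large entropy. -/

namespace Pool.Agent.Lib.MP_cdccbc_an

open MeasureTheory Complex Filter Topology
open scoped ComplexConjugate

noncomputable section

/-- Dirichlet polynomials on the torus. -/
def dir : (ℕ+ →₀ ℂ) →ₗ[ℂ] C(Om, ℂ) := Finsupp.linearCombination ℂ fun n : ℕ+ => chi (kap n)

@[simp] lemma dir_single (n : ℕ+) (a : ℂ) : dir (Finsupp.single n a) = a • chi (kap n) := by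
  simp [dir]

lemma dir_apply (a : ℕ+ →₀ ℂ) (ω : Om) : dir a ω = ∑ n ∈ a.support, a n * chi (kap n) ω := by
  simp [dir, Finsupp.linearCombination_apply, Finsupp.sum, ContinuousMap.sum_apply]

lemma dir_flow (a : ℕ+ →₀ ℂ) (t : ℝ) :
    dir a (flow t) = a.sum fun n c => c * ((n : ℕ) : ℂ) ^ (-((t : ℂ) * I)) := by
  rw [dir_apply, Finsupp.sum]
  exact Finset.sum_congr rfl fun n _ => by rw [chi_kap_flow n.ne_zero]

lemma dir_shift (m n₀ : ℕ+) (b : ℕ+ →₀ ℂ) :
    dir (Finsupp.mapDomain (fun k => m * k) b) =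
      chi (kap (m * n₀)) * tr (Finsupp.mapDomain (fun k : ℕ+ => kap k - kap n₀) b) := by
  induction b using Finsupp.induction_linear with
  | zero => simp
  | add x y hx hy => simp only [Finsupp.mapDomain_add, map_add, hx, hy, mul_add]
  | single k a =>
    simp only [Finsupp.mapDomain_single, dir_single, tr_single, mul_smul_comm, ← chi_add,
      PNat.mul_coe, kap_mul m.ne_zero k.ne_zero, kap_mul m.ne_zero n₀.ne_zero]
    congr 2; abel

lemma lam_kap_sub_le (k n₀ : ℕ+) : lam (kap k - kap n₀) ≤ 0 ↔ (k : ℕ) ≤ n₀ := by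
  rw [map_sub, lam_kap k.ne_zero, lam_kap n₀.ne_zero, sub_nonpos,
    Real.log_le_log_iff (by exact_mod_cast k.pos) (by exact_mod_cast n₀.pos), Nat.cast_le]

open Classical in
lemma dir_filter_shift (m n₀ : ℕ+) (N : ℕ) (h : ∀ k : ℕ+, (m : ℕ) * k ≤ N ↔ (k : ℕ) ≤ n₀)
    (b : ℕ+ →₀ ℂ) :
    dir ((Finsupp.mapDomain (fun k => m * k) b).filter fun n : ℕ+ => (n : ℕ) ≤ N) =
      chi (kap (m * n₀)) *
        tr ((Finsupp.mapDomain (fun k : ℕ+ => kap k - kap n₀) b).filter fun α => lam α ≤ 0) := by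
  induction b using Finsupp.induction_linear with
  | zero => simp [Finsupp.filter_zero]
  | add x y hx hy =>
    simp only [Finsupp.mapDomain_add, Finsupp.filter_add, map_add, hx, hy, mul_add]
  | single k a =>
    simp only [Finsupp.mapDomain_single]
    by_cases hk : (k : ℕ) ≤ n₀
    · rw [Finsupp.filter_single_of_pos _ (by simpa using (h k).2 hk),
        Finsupp.filter_single_of_pos (fun α => lam α ≤ 0) ((lam_kap_sub_le k n₀).2 hk)]
      simp only [dir_single, tr_single, mul_smul_comm, ← chi_add,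
        PNat.mul_coe, kap_mul m.ne_zero k.ne_zero, kap_mul m.ne_zero n₀.ne_zero]
      congr 2; abel
    · rw [Finsupp.filter_single_of_neg _ (by simpa using fun h' => hk ((h k).1 h')),
        Finsupp.filter_single_of_neg (fun α => lam α ≤ 0)
          (fun h' => hk ((lam_kap_sub_le k n₀).1 h'))]
      simp

lemma dir_mul (a b : ℕ+ →₀ ℂ) : ∃ c, dir c = dir a * dir b := by
  induction a using Finsupp.induction_linear with
  | zero => exact ⟨0, by simp⟩
  | add x y hx hy =>
    obtain ⟨c, hc⟩ := hx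
    obtain ⟨d, hd⟩ := hy
    exact ⟨c + d, by rw [map_add, map_add, hc, hd, add_mul]⟩
  | single k a =>
    induction b using Finsupp.induction_linear with
    | zero => exact ⟨0, by simp⟩
    | add x y hx hy =>
      obtain ⟨c, hc⟩ := hx
      obtain ⟨d, hd⟩ := hy
      exact ⟨c + d, by rw [map_add, map_add, hc, hd, mul_add]⟩
    | single j b =>
      refine ⟨Finsupp.single (k * j) (a * b), ?_⟩
      simp only [dir_single, PNat.mul_coe, kap_mul k.ne_zero j.ne_zero, chi_add]
      rw [smul_mul_smul_comm]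

/-- Half the real part of a coordinate. -/
def xx (p : Nat.Primes) (ω : Om) : ℝ := (ω p : ℂ).re / 2

@[fun_prop] lemma continuous_xx (p : Nat.Primes) : Continuous (xx p) := by
  unfold xx; fun_prop

lemma abs_xx_le (p : Nat.Primes) (ω : Om) : |xx p ω| ≤ 1 / 2 := by
  have := Complex.abs_re_le_norm (ω p : ℂ)
  rw [Circle.norm_coe] at this
  rw [xx, abs_div, abs_two]; linarith

lemma one_add_xx_pos (p : Nat.Primes) (ω : Om) : 0 < 1 + xx p ω := by
  have := abs_le.1 (abs_xx_le p ω); linarith [this.1]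

open Classical in
/-- The sign change in one coordinate. -/
def sg (r : Nat.Primes) : Om := Pi.mulSingle r (Circle.exp Real.pi)

lemma xx_sg_self (r : Nat.Primes) (ω : Om) : xx r (sg r * ω) = -xx r ω := by
  simp [xx, sg, Complex.exp_pi_mul_I]; ring

lemma xx_sg_ne {p r : Nat.Primes} (h : p ≠ r) (ω : Om) : xx p (sg r * ω) = xx p ω := by
  simp [xx, sg, Pi.mulSingle_eq_of_ne h]

lemma integral_mul_xx {G : Om → ℝ} {r : Nat.Primes} (h : ∀ ω, G (sg r * ω) = G ω) :
    ∫ ω, G ω * xx r ω ∂mu = 0 := by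
  have := integral_shift (fun ω => G ω * xx r ω) (sg r)
  simp only [h, xx_sg_self, mul_neg, integral_neg] at this
  linarith

lemma integral_mul_prod (S : Finset Nat.Primes) {G : Om → ℝ} (hG : Continuous G)
    (h : ∀ r ∈ S, ∀ ω, G (sg r * ω) = G ω) :
    ∫ ω, G ω * ∏ r ∈ S, (1 + xx r ω) ∂mu = ∫ ω, G ω ∂mu := by
  classical
  induction S using Finset.induction_on with
  | empty => simp
  | insert r S hr ih =>
    have h1 : ∀ ω, G ω * ∏ q ∈ insert r S, (1 + xx q ω) =
        G ω * ∏ q ∈ S, (1 + xx q ω) + (G ω * ∏ q ∈ S, (1 + xx q ω)) * xx r ω := by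
      intro ω; rw [Finset.prod_insert hr]; ring
    simp only [h1]
    rw [integral_add (cont_integrable (by fun_prop)) (cont_integrable (by fun_prop)),
      ih fun q hq => h q (Finset.mem_insert_of_mem hq), integral_mul_xx, add_zero]
    intro ω
    rw [h r (Finset.mem_insert_self _ _)]
    congr 1
    refine Finset.prod_congr rfl fun q hq => ?_
    rw [xx_sg_ne (by rintro rfl; exact hr hq)]

lemma integral_xx (p : Nat.Primes) : ∫ ω, xx p ω ∂mu = 0 := by
  simpa using integral_mul_xx (G := fun _ => 1) (r := p) fun _ => rfl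

lemma integral_xx_sq (p : Nat.Primes) : ∫ ω, xx p ω ^ 2 ∂mu = 1 / 8 := by
  have h1 : ∀ ω, xx p ω ^ 2 = 1 / 8 + (1 / 8) * (chi (Finsupp.single p 2) ω).re := by
    intro ω
    have h := Complex.normSq_apply (ω p : ℂ)
    rw [Circle.normSq_coe] at h
    rw [chi_apply, ev_single, xx, Circle.coe_zpow, zpow_two, Complex.mul_re]
    nlinarith
  simp only [h1]
  rw [integral_add (integrable_const _) (cont_integrable (by fun_prop)), integral_const_mul]
  have h2 := integral_re (μ := mu) (f := fun ω => chi (Finsupp.single p 2) ω) (cm_integrable _)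
  simp only [RCLike.re_to_complex] at h2
  rw [h2, integral_chi]
  simp

lemma mul_log_ge {x : ℝ} (hx : |x| ≤ 1 / 2) : x + x ^ 2 / 8 ≤ (1 + x) * Real.log (1 + x) := by
  obtain ⟨h1, h2⟩ := abs_le.1 hx
  have h0 : 0 < 1 + x := by linarith
  set s := Real.sqrt (1 + x) with hs
  have hs0 : 0 < s := Real.sqrt_pos.2 h0
  have hs2 : s ^ 2 = 1 + x := Real.sq_sqrt h0.le
  have hs3 : s ≤ 1 + x / 2 - x ^ 2 / 16 := by
    refine Real.sqrt_le_iff.2 ⟨by nlinarith, ?_⟩
    nlinarith [sq_nonneg x, sq_nonneg (x ^ 2), mul_nonneg (sq_nonneg x) (sub_nonneg.2 h2)]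
  have h4 : 1 - s⁻¹ ≤ Real.log s := Real.one_sub_inv_le_log_of_pos hs0
  have h5 : Real.log (1 + x) = 2 * Real.log s := by
    rw [← hs2, Real.log_pow]; norm_num
  have h6 : s ^ 2 * (2 * (1 - s⁻¹)) = 2 * (s ^ 2 - s) := by field_simp
  calc x + x ^ 2 / 8 ≤ 2 * (s ^ 2 - s) := by rw [hs2]; linarith
    _ = s ^ 2 * (2 * (1 - s⁻¹)) := h6.symm
    _ ≤ s ^ 2 * (2 * Real.log s) := by gcongr
    _ = _ := by rw [h5, hs2]

/-- The Riesz product. -/
def riesz (S : Finset Nat.Primes) (ω : Om) : ℝ := ∏ r ∈ S, (1 + xx r ω)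

@[fun_prop] lemma continuous_riesz (S : Finset Nat.Primes) : Continuous (riesz S) := by
  unfold riesz; fun_prop

lemma riesz_pos (S : Finset Nat.Primes) (ω : Om) : 0 < riesz S ω :=
  Finset.prod_pos fun r _ => one_add_xx_pos r ω

lemma integral_riesz (S : Finset Nat.Primes) : ∫ ω, riesz S ω ∂mu = 1 := by
  simpa [riesz] using integral_mul_prod S (G := fun _ => 1) continuous_const fun _ _ _ => rfl

lemma continuous_log_xx (p : Nat.Primes) : Continuous fun ω => Real.log (1 + xx p ω) :=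
  Continuous.log (by fun_prop) fun ω => (one_add_xx_pos p ω).ne'

lemma entropy_riesz (S : Finset Nat.Primes) :
    (S.card : ℝ) / 64 ≤ ∫ ω, riesz S ω * Real.log (riesz S ω) ∂mu := by
  classical
  have h1 : ∀ ω, riesz S ω * Real.log (riesz S ω) =
      ∑ p ∈ S, ((1 + xx p ω) * Real.log (1 + xx p ω)) * ∏ r ∈ S.erase p, (1 + xx r ω) := by
    intro ω
    rw [riesz, Real.log_prod fun r _ => (one_add_xx_pos r ω).ne', Finset.mul_sum]
    refine Finset.sum_congr rfl fun p hp => ?_
    rw [← Finset.mul_prod_erase S _ hp]; ring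
  simp only [h1]
  rw [integral_finsetSum]
  · have h2 : ∀ p ∈ S, (1 / 64 : ℝ) ≤ ∫ ω, ((1 + xx p ω) * Real.log (1 + xx p ω)) *
        ∏ r ∈ S.erase p, (1 + xx r ω) ∂mu := by
      intro p _
      have hc := continuous_log_xx p
      rw [integral_mul_prod _ (by fun_prop)]
      · calc (1 / 64 : ℝ) = ∫ ω, xx p ω + xx p ω ^ 2 / 8 ∂mu := by
              rw [integral_add (cont_integrable (by fun_prop)) (cont_integrable (by fun_prop)),
                integral_div, integral_xx, integral_xx_sq]; norm_num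
          _ ≤ _ := integral_mono (cont_integrable (by fun_prop)) (cont_integrable (by fun_prop))
              fun ω => mul_log_ge (abs_xx_le p ω)
      · intro r hr ω
        rw [xx_sg_ne (Finset.ne_of_mem_erase hr).symm]
    calc (S.card : ℝ) / 64 = ∑ _p ∈ S, (1 / 64 : ℝ) := by simp; ring
      _ ≤ _ := Finset.sum_le_sum h2
  · intro p _
    have hc := continuous_log_xx p
    exact cont_integrable (by fun_prop)

lemma riesz_dir (S : Finset Nat.Primes) :
    ∃ b, ∀ ω, dir b ω = chi (kap (∏ p ∈ S, (p : ℕ))) ω * (riesz S ω : ℂ) := by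
  classical
  induction S using Finset.induction_on with
  | empty => exact ⟨Finsupp.single 1 1, fun ω => by simp [riesz]⟩
  | insert p S hp ih =>
    obtain ⟨b, hb⟩ := ih
    set q : ℕ+ := ⟨p, p.2.pos⟩ with hq
    obtain ⟨c, hc⟩ := dir_mul
      (Finsupp.single q 1 + Finsupp.single (q * q) (1 / 4) + Finsupp.single 1 (1 / 4)) b
    refine ⟨c, fun ω => ?_⟩
    have hS : ∏ p ∈ S, (p : ℕ) ≠ 0 := Finset.prod_ne_zero_iff.2 fun r _ => r.2.ne_zero
    have hq' : (q : ℕ) = p := rfl
    rw [hc, ContinuousMap.mul_apply, hb, riesz, riesz, Finset.prod_insert hp, Finset.prod_insert hp,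
      kap_mul p.2.ne_zero hS, chi_add, ContinuousMap.mul_apply]
    simp only [map_add, dir_single, PNat.mul_coe, hq', kap_mul p.2.ne_zero p.2.ne_zero, chi_add,
      PNat.one_coe, kap_one, chi_zero, ContinuousMap.add_apply, ContinuousMap.smul_apply,
      ContinuousMap.mul_apply, ContinuousMap.one_apply, kap_prime, smul_eq_mul]
    have h1 : chi (Finsupp.single p 1) ω = (ω p : ℂ) := by simp [chi_apply]
    have h2 : ((xx p ω : ℝ) : ℂ) = ((ω p : ℂ) + conj (ω p : ℂ)) / 4 := by
      rw [Complex.add_conj, xx]; push_cast; ring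
    have h3 : (ω p : ℂ) * conj (ω p : ℂ) = 1 := by
      rw [Complex.mul_conj, Circle.normSq_coe]; simp
    rw [h1]
    push_cast
    rw [h2]
    linear_combination (-(1 / 4 : ℂ) * chi (kap (∏ p ∈ S, (p : ℕ))) ω *
      ∏ r ∈ S, (1 + (xx r ω : ℂ))) * h3

open Classical in
lemma lower_core {c : Gam →₀ ℂ} {F : Om → ℝ} (hF : Continuous F) (hpos : ∀ ω, 0 < F ω)
    (h1 : ∫ ω, F ω ∂mu = 1) (hc : ∀ ω, tr c ω = F ω) :
    (∫ ω, F ω * Real.log (F ω) ∂mu) / 4 ≤ ∫ ω, ‖tr (c.filter fun α => lam α ≤ 0) ω‖ ∂mu := by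
  have hl : ∀ α, (-lam) α = 0 → α = 0 := fun α h => lam_eq_zero (by simpa using h)
  have hreal : ∀ ω, (tr c ω).im = 0 := fun ω => by simp [hc]
  set h := tr (compl (-lam) c) with hh
  have hre : ∀ ω, (h ω).re = F ω := fun ω => by rw [hh, compl_re hl hreal, hc]; simp
  have hpos' : ∀ ω, 0 < (h ω).re := fun ω => by rw [hre]; exact hpos ω
  have hc0 : c 0 = 1 := by
    rw [coeff_zero_real hreal]; simp [hc, h1]
  have hI : ∫ ω, h ω ∂mu = (1 : ℝ) := by rw [hh, integral_compl, hc0]; simp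
  have hent := anal_entropy_re hl (compl_anal c) hpos' zero_le_one hI
  rw [← hh] at hent
  have c1 := continuous_log_norm hpos'
  have c2 := continuous_arg hpos'
  have c3 : Continuous fun ω => Real.log (F ω) := hF.log fun ω => (hpos ω).ne'
  have hsplit : (c.filter fun α => lam α ≤ 0) =
      Finsupp.single 0 (c 0) + c.filter fun α => 0 < (-lam) α := by
    ext α
    simp only [Finsupp.add_apply, Finsupp.filter_apply, LinearMap.neg_apply, neg_pos]
    rcases lt_trichotomy (lam α) 0 with h | h | h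
    · have : α ≠ 0 := by rintro rfl; simp at h
      simp [h, h.le, Finsupp.single_eq_of_ne this]
    · obtain rfl := lam_eq_zero h
      simp
    · have : α ≠ 0 := by rintro rfl; simp at h
      simp [h.not_ge, h.le, Finsupp.single_eq_of_ne this]
  have him : ∀ ω, |(h ω).im| ≤ 2 * ‖tr (c.filter fun α => lam α ≤ 0) ω‖ := by
    intro ω
    have : (h ω).im = 2 * (tr (c.filter fun α => lam α ≤ 0) ω).im := by
      rw [hh, tr_compl, hsplit, map_add, ContinuousMap.add_apply, hc0]
      simp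
    rw [this, abs_mul, abs_two]
    gcongr
    exact Complex.abs_im_le_norm _
  have h2 : ∫ ω, F ω * Real.log (F ω) ∂mu ≤ ∫ ω, (h ω).re * Real.log ‖h ω‖ ∂mu := by
    refine integral_mono (cont_integrable (by fun_prop)) (cont_integrable (by fun_prop)) fun ω => ?_
    simp only [hre]
    refine mul_le_mul_of_nonneg_left (Real.log_le_log (hpos ω) ?_) (hpos ω).le
    rw [← hre]; exact Complex.re_le_norm _
  have h3 : ∫ ω, (h ω).im * Complex.arg (h ω) ∂mu ≤
      ∫ ω, 4 * ‖tr (c.filter fun α => lam α ≤ 0) ω‖ ∂mu := by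
    refine integral_mono (cont_integrable (by fun_prop)) (cont_integrable (by fun_prop)) fun ω => ?_
    have h4 := Complex.abs_arg_le_pi_div_two_iff.2 (hpos' ω).le
    have h5 : |Complex.arg (h ω)| ≤ 2 := by linarith [Real.pi_le_four]
    calc (h ω).im * Complex.arg (h ω) ≤ |(h ω).im| * |Complex.arg (h ω)| := by
          rw [← abs_mul]; exact le_abs_self _
      _ ≤ (2 * ‖tr (c.filter fun α => lam α ≤ 0) ω‖) * 2 := by gcongr; exact him ω
      _ = _ := by ring
  rw [integral_const_mul] at h3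
  simp only [Real.log_one, mul_zero, sub_zero] at hent
  linarith

open Classical in
theorem lower_finset (S : Finset Nat.Primes) (N : ℕ) (hN : (∏ p ∈ S, (p : ℕ)) ^ 2 ≤ N) :
    ∃ a : ℕ+ →₀ ℂ, ∫ ω, ‖dir a ω‖ ∂mu = 1 ∧
      (S.card : ℝ) / 256 ≤ ∫ ω, ‖dir (a.filter fun n : ℕ+ => (n : ℕ) ≤ N) ω‖ ∂mu := by
  obtain ⟨b, hb⟩ := riesz_dir S
  have hS : 0 < ∏ p ∈ S, (p : ℕ) := Finset.prod_pos fun r _ => r.2.pos
  set n₀ : ℕ+ := ⟨∏ p ∈ S, (p : ℕ), hS⟩ with hn₀
  have hn₀' : ∏ p ∈ S, (p : ℕ) = n₀ := rfl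
  rw [hn₀'] at hN hb
  have hm : (n₀ : ℕ) ≤ N / n₀ := (Nat.le_div_iff_mul_le n₀.pos).2 (by nlinarith)
  set m : ℕ+ := ⟨N / n₀, n₀.pos.trans_le hm⟩ with hm'
  have hm2 : (m : ℕ) = N / n₀ := rfl
  have hk : ∀ k : ℕ+, (m : ℕ) * k ≤ N ↔ (k : ℕ) ≤ n₀ := by
    intro k
    have e1 := Nat.div_add_mod N n₀
    have e2 := Nat.mod_lt N n₀.pos
    rw [← hm2] at hm e1
    constructor
    · intro h
      by_contra hcon
      push Not at hcon
      have : (m : ℕ) * (n₀ + 1) ≤ m * k := Nat.mul_le_mul_left _ hcon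
      nlinarith
    · intro h
      have : (m : ℕ) * k ≤ m * n₀ := Nat.mul_le_mul_left _ h
      have e3 : (m : ℕ) * n₀ ≤ N := by rw [← e1, mul_comm]; exact Nat.le_add_right _ _
      exact this.trans e3
  set c := Finsupp.mapDomain (fun k : ℕ+ => kap k - kap n₀) b with hc
  have hcF : ∀ ω, tr c ω = riesz S ω := by
    intro ω
    have h1 := dir_shift 1 n₀ b
    simp only [one_mul, PNat.one_coe] at h1
    rw [show (fun k : ℕ+ => k) = id from rfl, Finsupp.mapDomain_id] at h1
    have h2 := hb ω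
    rw [h1, ContinuousMap.mul_apply] at h2
    refine mul_left_cancel₀ ?_ h2
    intro h0
    have := norm_chi (kap n₀) ω
    rw [h0] at this; simp at this
  refine ⟨Finsupp.mapDomain (fun k => m * k) b, ?_, ?_⟩
  · rw [dir_shift m n₀, ← integral_riesz S]
    refine integral_congr_ae (Eventually.of_forall fun ω => ?_)
    simp only [ContinuousMap.mul_apply, norm_mul, norm_chi, one_mul, ← hc, hcF, Complex.norm_real,
      Real.norm_eq_abs, abs_of_pos (riesz_pos S ω)]
  · rw [dir_filter_shift m n₀ N hk]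
    simp only [ContinuousMap.mul_apply, norm_mul, norm_chi, one_mul, ← hc]
    have h1 := lower_core (continuous_riesz S) (riesz_pos S) (integral_riesz S) hcF
    have h2 := entropy_riesz S
    linarith

end

end Pool.Agent.Lib.MP_cdccbc_an
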