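import Mathlib

/-! The infinite torus indexed by the primes, its characters and Haar measure. -/

namespace Pool.Agent.Lib.MP_cdccbc_an

open MeasureTheory Complex Filter Topology
open scoped ComplexConjugate

noncomputable section

/-- The free abelian group on the primes. -/
abbrev Gam := Nat.Primes →₀ ℤ

/-- The infinite torus. -/
abbrev Om := Nat.Primes → Circle

instance omMeas : MeasurableSpace Om := borel Om
instance omBorel : BorelSpace Om := ⟨rfl⟩

/-- Haar probability measure on the infinite torus. -/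
def mu : Measure Om := Measure.haarMeasure ⊤

instance muHaar : mu.IsHaarMeasure := by unfold mu; infer_instance

instance muProb : IsProbabilityMeasure mu := ⟨by
  have := Measure.haarMeasure_self (G := Om) (K₀ := ⊤)
  simpa [mu] using this⟩

/-- The pairing between the torus and the free abelian group. -/
def ev (ω : Om) (α : Gam) : Circle := α.prod fun p k => ω p ^ k

@[simp] lemma ev_zero (ω : Om) : ev ω 0 = 1 := by simp [ev]

lemma ev_add (ω : Om) (α β : Gam) : ev ω (α + β) = ev ω α * ev ω β := by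
  unfold ev
  exact Finsupp.prod_add_index' (fun _ => zpow_zero _) (fun _ _ _ => zpow_add _ _ _)

lemma ev_neg (ω : Om) (α : Gam) : ev ω (-α) = (ev ω α)⁻¹ := by
  apply eq_inv_of_mul_eq_one_left
  rw [← ev_add]; simp

lemma ev_mul (ω σ : Om) (α : Gam) : ev (ω * σ) α = ev ω α * ev σ α := by
  unfold ev
  simp only [Pi.mul_apply, mul_zpow, Finsupp.prod, Finset.prod_mul_distrib]

@[simp] lemma ev_single (ω : Om) (p : Nat.Primes) (k : ℤ) :
    ev ω (Finsupp.single p k) = ω p ^ k := by
  unfold ev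
  exact Finsupp.prod_single_index (zpow_zero _)

lemma continuous_ev (α : Gam) : Continuous fun ω : Om => ev ω α := by
  unfold ev Finsupp.prod
  exact continuous_finsetProd _ fun p _ => (continuous_apply p).zpow _

/-- The linear form on `Gam` with prescribed real values on the generators. -/
def lin (r : Nat.Primes → ℝ) : Gam →ₗ[ℤ] ℝ := Finsupp.linearCombination ℤ r

@[simp] lemma lin_single (r : Nat.Primes → ℝ) (p : Nat.Primes) (k : ℤ) :
    lin r (Finsupp.single p k) = k * r p := by
  simp [lin]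

/-- The point of the torus with arguments `r`. -/
def pt (r : Nat.Primes → ℝ) : Om := fun p => Circle.exp (r p)

lemma ev_pt (r : Nat.Primes → ℝ) (α : Gam) : ev (pt r) α = Circle.exp (lin r α) := by
  induction α using Finsupp.induction_linear with
  | zero => simp
  | add a b ha hb => rw [ev_add, map_add, Circle.exp_add, ha, hb]
  | single p k =>
    rw [ev_single, lin_single, pt]
    ext
    rw [Circle.coe_zpow, Circle.coe_exp, Circle.coe_exp, ← Complex.exp_int_mul]
    congr 1; push_cast; ring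

lemma lin_smul (t : ℝ) (r : Nat.Primes → ℝ) (α : Gam) :
    lin (fun p => t * r p) α = t * lin r α := by
  induction α using Finsupp.induction_linear with
  | zero => simp
  | add a b ha hb => rw [map_add, map_add, ha, hb, mul_add]
  | single p k => rw [lin_single, lin_single]; ring

/-- The characters as continuous complex functions. -/
def chi (α : Gam) : C(Om, ℂ) :=
  ⟨fun ω => (ev ω α : ℂ), continuous_subtype_val.comp (continuous_ev α)⟩

lemma chi_apply (α : Gam) (ω : Om) : chi α ω = (ev ω α : ℂ) := rfl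

@[simp] lemma chi_zero : chi 0 = 1 := by
  ext ω; simp [chi_apply]

lemma chi_add (α β : Gam) : chi (α + β) = chi α * chi β := by
  ext ω; simp [chi_apply, ev_add]

lemma chi_neg (α : Gam) : chi (-α) = star (chi α) := by
  ext ω
  rw [chi_apply, ev_neg, Circle.coe_inv_eq_conj]; rfl

lemma chi_neg_apply (α : Gam) (ω : Om) : chi (-α) ω = conj (chi α ω) := by
  rw [chi_neg]; rfl

@[simp] lemma norm_chi (α : Gam) (ω : Om) : ‖chi α ω‖ = 1 := by
  simp [chi_apply]

lemma chi_mul (α : Gam) (ω σ : Om) : chi α (σ * ω) = chi α σ * chi α ω := by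
  simp [chi_apply, ev_mul]

lemma cont_integrable {E : Type*} [NormedAddCommGroup E] {f : Om → E} (hf : Continuous f) :
    Integrable f mu :=
  hf.integrable_of_hasCompactSupport (HasCompactSupport.of_compactSpace f)

lemma integral_shift {E : Type*} [NormedAddCommGroup E] [NormedSpace ℝ E] (f : Om → E) (σ : Om) :
    ∫ ω, f (σ * ω) ∂mu = ∫ ω, f ω ∂mu :=
  integral_mul_left_eq_self f σ

lemma integral_chi (α : Gam) : ∫ ω, chi α ω ∂mu = if α = 0 then 1 else 0 := by
  split_ifs with h
  · subst h; simp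
  · obtain ⟨p, hp⟩ : ∃ p, α p ≠ 0 := by
      by_contra hcon
      push Not at hcon
      exact h (Finsupp.ext hcon)
    classical
    set r : Nat.Primes → ℝ := Pi.single p (Real.pi / α p) with hr
    have h1 : lin r α = Real.pi := by
      have hp' : (α p : ℝ) ≠ 0 := by exact_mod_cast hp
      rw [lin, Finsupp.linearCombination_apply, Finsupp.sum, Finset.sum_eq_single p]
      · simp only [hr, Pi.single_eq_same, zsmul_eq_mul]; field_simp
      · intro q _ hq; simp [hr, Pi.single_eq_of_ne hq]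
      · intro hq; exact absurd (Finsupp.mem_support_iff.2 hp) hq
    have h2 : chi α (pt r) = -1 := by
      rw [chi_apply, ev_pt, h1, Circle.coe_exp, Complex.exp_pi_mul_I]
    have h3 := integral_shift (fun ω => chi α ω) (pt r)
    simp only [chi_mul, h2, neg_mul, one_mul, integral_neg] at h3
    linear_combination (-1 / 2 : ℂ) * h3

/-- Trigonometric polynomials. -/
def tr : (Gam →₀ ℂ) →ₗ[ℂ] C(Om, ℂ) := Finsupp.linearCombination ℂ chi

lemma tr_apply (c : Gam →₀ ℂ) (ω : Om) : tr c ω = ∑ α ∈ c.support, c α * chi α ω := by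
  simp [tr, Finsupp.linearCombination_apply, Finsupp.sum, ContinuousMap.sum_apply]

@[simp] lemma tr_single (α : Gam) (a : ℂ) : tr (Finsupp.single α a) = a • chi α := by
  simp [tr]

/-- The star subalgebra of trigonometric polynomials. -/
def trigAlg : StarSubalgebra ℂ C(Om, ℂ) where
  toSubalgebra := Algebra.adjoin ℂ (Set.range chi)
  star_mem' := by
    change Algebra.adjoin ℂ (Set.range chi) ≤ star (Algebra.adjoin ℂ (Set.range chi))
    refine Algebra.adjoin_le ?_
    rintro - ⟨n, rfl⟩
    exact Algebra.subset_adjoin ⟨-n, chi_neg n⟩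

lemma trigAlg_coe :
    Subalgebra.toSubmodule trigAlg.toSubalgebra = Submodule.span ℂ (Set.range chi) := by
  apply Algebra.adjoin_eq_span_of_subset
  refine Set.Subset.trans ?_ Submodule.subset_span
  intro x hx
  refine Submonoid.closure_induction (fun _ => id) ⟨0, chi_zero⟩ ?_ hx
  rintro - - - - ⟨m, rfl⟩ ⟨n, rfl⟩
  exact ⟨m + n, chi_add m n⟩

lemma mem_trigAlg {f : C(Om, ℂ)} : f ∈ trigAlg ↔ ∃ c, tr c = f := by
  have : f ∈ trigAlg ↔ f ∈ Subalgebra.toSubmodule trigAlg.toSubalgebra := Iff.rfl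
  rw [this, trigAlg_coe, ← Finsupp.range_linearCombination, LinearMap.mem_range]
  rfl

lemma tr_mem (c : Gam →₀ ℂ) : tr c ∈ trigAlg := mem_trigAlg.2 ⟨c, rfl⟩

lemma chi_mem (α : Gam) : chi α ∈ trigAlg := mem_trigAlg.2 ⟨Finsupp.single α 1, by simp⟩

lemma trigAlg_sep : trigAlg.SeparatesPoints := by
  intro x y hxy
  obtain ⟨p, hp⟩ := Function.ne_iff.1 hxy
  refine ⟨_, ⟨chi (Finsupp.single p 1), chi_mem _, rfl⟩, ?_⟩
  simp only [chi_apply, ev_single, zpow_one]
  intro h
  exact hp (Circle.ext h)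

lemma trigAlg_dense : trigAlg.topologicalClosure = ⊤ :=
  ContinuousMap.starSubalgebra_topologicalClosure_eq_top_of_separatesPoints trigAlg trigAlg_sep

lemma exists_tr_near (f : C(Om, ℂ)) {ε : ℝ} (hε : 0 < ε) :
    ∃ c, ∀ ω, ‖tr c ω - f ω‖ < ε := by
  have hf : f ∈ closure (trigAlg : Set C(Om, ℂ)) := by
    have : f ∈ trigAlg.topologicalClosure := by rw [trigAlg_dense]; trivial
    exact this
  obtain ⟨g, hg, hfg⟩ := Metric.mem_closure_iff.1 hf ε hε
  obtain ⟨c, rfl⟩ := mem_trigAlg.1 hg
  refine ⟨c, fun ω => ?_⟩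
  rw [dist_comm, dist_eq_norm] at hfg
  exact lt_of_le_of_lt ((tr c - f).norm_coe_le_norm ω) hfg

lemma exists_tr_re (c : Gam →₀ ℂ) : ∃ a, ∀ ω, tr a ω = ((tr c ω).re : ℂ) := by
  have h : (1 / 2 : ℂ) • (tr c + star (tr c)) ∈ trigAlg :=
    trigAlg.smul_mem (add_mem (tr_mem c) (star_mem (tr_mem c))) _
  obtain ⟨a, ha⟩ := mem_trigAlg.1 h
  refine ⟨a, fun ω => ?_⟩
  rw [ha]
  simp only [ContinuousMap.smul_apply, ContinuousMap.add_apply, ContinuousMap.star_apply,
    RCLike.star_def, Complex.add_conj, smul_eq_mul]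
  push_cast; ring

lemma integral_chi_mul_conj (α β : Gam) :
    ∫ ω, chi α ω * conj (chi β ω) ∂mu = if α = β then 1 else 0 := by
  have : ∀ ω, chi α ω * conj (chi β ω) = chi (α - β) ω := by
    intro ω
    rw [sub_eq_add_neg, chi_add, ContinuousMap.mul_apply, chi_neg_apply]
  simp only [this, integral_chi, sub_eq_zero]

/-- Recovering the coefficients. -/
lemma integral_tr_mul_conj (c : Gam →₀ ℂ) (β : Gam) :
    ∫ ω, tr c ω * conj (chi β ω) ∂mu = c β := by
  classical
  simp only [tr_apply, Finset.sum_mul, mul_assoc]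
  rw [integral_finsetSum]
  · simp only [integral_const_mul, integral_chi_mul_conj, mul_ite, mul_one, mul_zero,
      Finset.sum_ite_eq', Finsupp.mem_support_iff]
    split_ifs with h
    · rfl
    · push Not at h; exact h.symm
  · intro α _
    exact cont_integrable (by fun_prop)

lemma integral_tr (c : Gam →₀ ℂ) : ∫ ω, tr c ω ∂mu = c 0 := by
  simpa using integral_tr_mul_conj c 0

/-- The basic mean square formula. -/
lemma integral_normSq_sum {ι : Type*} [DecidableEq Gam] (s : Finset ι) (a : ι → ℂ) (e : ι → Gam) :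
    ((∫ ω, ‖∑ i ∈ s, a i * chi (e i) ω‖ ^ 2 ∂mu : ℝ) : ℂ) =
      ∑ i ∈ s, ∑ j ∈ s, if e i = e j then a i * conj (a j) else 0 := by
  rw [← integral_complex_ofReal]
  have : ∀ ω, ((‖∑ i ∈ s, a i * chi (e i) ω‖ ^ 2 : ℝ) : ℂ) =
      ∑ i ∈ s, ∑ j ∈ s, (a i * conj (a j)) * (chi (e i) ω * conj (chi (e j) ω)) := by
    intro ω
    rw [← Complex.normSq_eq_norm_sq, ← Complex.mul_conj, map_sum, Finset.sum_mul_sum]
    refine Finset.sum_congr rfl fun i _ => Finset.sum_congr rfl fun j _ => ?_
    rw [map_mul]; ring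
  simp only [this]
  rw [integral_finsetSum]
  · refine Finset.sum_congr rfl fun i _ => ?_
    rw [integral_finsetSum]
    · refine Finset.sum_congr rfl fun j _ => ?_
      rw [integral_const_mul, integral_chi_mul_conj]
      split_ifs <;> simp
    · intro j _
      exact cont_integrable (by fun_prop)
  · intro i _
    exact cont_integrable (by fun_prop)

/-- Parseval. -/
lemma parseval (c : Gam →₀ ℂ) : ∫ ω, ‖tr c ω‖ ^ 2 ∂mu = ∑ α ∈ c.support, ‖c α‖ ^ 2 := by
  classical
  have h := integral_normSq_sum c.support c id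
  simp only [id] at h
  simp only [tr_apply]
  apply Complex.ofReal_injective
  rw [h]
  push_cast
  refine Finset.sum_congr rfl fun α hα => ?_
  rw [Finset.sum_ite_eq, if_pos hα, Complex.mul_conj, Complex.normSq_eq_norm_sq]
  push_cast; rfl

/-- Almost orthogonality. -/
lemma almost_orth {ι : Type*} [DecidableEq Gam] (s : Finset ι) (a : ι → ℂ) (e : ι → Gam) (D : ℝ)
    (hD : ∀ i ∈ s, ((s.filter fun j => e i = e j).card : ℝ) ≤ D) :
    ∫ ω, ‖∑ i ∈ s, a i * chi (e i) ω‖ ^ 2 ∂mu ≤ D * ∑ i ∈ s, ‖a i‖ ^ 2 := by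
  have h := integral_normSq_sum s a e
  have h1 : ∫ ω, ‖∑ i ∈ s, a i * chi (e i) ω‖ ^ 2 ∂mu ≤
      ∑ i ∈ s, ∑ j ∈ s, if e i = e j then (‖a i‖ ^ 2 / 2 + ‖a j‖ ^ 2 / 2) else 0 := by
    have h2 := congrArg Complex.re h
    rw [Complex.ofReal_re] at h2
    rw [h2, Complex.re_sum]
    refine Finset.sum_le_sum fun i _ => ?_
    rw [Complex.re_sum]
    refine Finset.sum_le_sum fun j _ => ?_
    split_ifs
    · refine (Complex.re_le_norm _).trans ?_
      rw [norm_mul, Complex.norm_conj]
      nlinarith [sq_nonneg (‖a i‖ - ‖a j‖)]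
    · simp
  refine h1.trans ?_
  have h3 : ∀ i j, (if e i = e j then (‖a i‖ ^ 2 / 2 + ‖a j‖ ^ 2 / 2) else 0) =
      (if e i = e j then ‖a i‖ ^ 2 / 2 else 0) + (if e j = e i then ‖a j‖ ^ 2 / 2 else 0) := by
    intro i j
    by_cases hij : e i = e j
    · simp [hij]
    · simp [hij, Ne.symm hij]
  simp only [h3, Finset.sum_add_distrib]
  rw [Finset.sum_comm (f := fun i j => if e j = e i then ‖a j‖ ^ 2 / 2 else 0), ← two_mul,
    Finset.mul_sum, Finset.mul_sum]
  refine Finset.sum_le_sum fun i hi => ?_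
  rw [← Finset.sum_filter, Finset.sum_const, nsmul_eq_mul]
  have := hD i hi
  nlinarith [sq_nonneg ‖a i‖]

end

end Pool.Agent.Lib.MP_cdccbc_an
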