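import Pool.Agent.Lib.MP_cdccbc_an.Lower

/-! A smooth truncation of Dirichlet polynomials, bounded in `L¹`. -/

namespace Pool.Agent.Lib.MP_cdccbc_an

open MeasureTheory Complex Filter Topology
open scoped ComplexConjugate

noncomputable section

/-- Integer weights on the primes. -/
def lg (p : Nat.Primes) : ℝ := Nat.log 2 p

lemma exists_wt {n : ℕ} (hn : n ≠ 0) :
    ∃ w : ℕ, lin lg (kap n) = w ∧ 2 ^ w ≤ n ∧ n ≤ 4 ^ w := by
  induction n using induction_on_primes with
  | zero => exact absurd rfl hn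
  | one => exact ⟨0, by simp⟩
  | prime_mul p a hp ih =>
    have ha : a ≠ 0 := fun h => hn (by simp [h])
    obtain ⟨w, h1, h2, h3⟩ := ih ha
    refine ⟨Nat.log 2 p + w, ?_, ?_, ?_⟩
    · have := kap_prime ⟨p, hp⟩
      simp only at this
      rw [kap_mul hp.ne_zero ha, map_add, h1, this, lin_single, lg]
      simp
    · rw [pow_add]
      exact Nat.mul_le_mul (Nat.pow_log_le_self 2 hp.ne_zero) h2
    · rw [pow_add]
      refine Nat.mul_le_mul ?_ h3
      have h4 : 1 ≤ Nat.log 2 p := Nat.log_pos (by norm_num) hp.two_le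
      calc p ≤ 2 ^ (Nat.log 2 p + 1) := (Nat.lt_pow_succ_log_self (by norm_num) p).le
        _ ≤ 2 ^ (2 * Nat.log 2 p) := Nat.pow_le_pow_right (by norm_num) (by omega)
        _ = 4 ^ Nat.log 2 p := by rw [pow_mul]; norm_num

/-- The integer weight of a positive integer. -/
def wt (n : ℕ+) : ℕ := (exists_wt n.ne_zero).choose

lemma wt_spec (n : ℕ+) : lin lg (kap n) = wt n ∧ 2 ^ wt n ≤ (n : ℕ) ∧ (n : ℕ) ≤ 4 ^ wt n :=
  (exists_wt n.ne_zero).choose_spec

/-- The circle action. -/
def rot (θ : ℝ) : Om := pt fun p => θ * lg p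

lemma chi_rot (θ : ℝ) (n : ℕ+) : chi (kap n) (rot θ) = Complex.exp (θ * (wt n : ℤ) * I) := by
  rw [chi_apply, rot, ev_pt, lin_smul, (wt_spec n).1, Circle.coe_exp]
  push_cast; rfl

/-- Equally spaced angles. -/
def ang (R j : ℕ) : ℝ := 2 * Real.pi * j / R

lemma sum_ang {R : ℕ} (k : ℤ) (hk : |k| < R) :
    ∑ j ∈ Finset.range R, Complex.exp (ang R j * k * I) = if k = 0 then (R : ℂ) else 0 := by
  split_ifs with h
  · simp [h]
  · have hR : 0 < R := by
      have := abs_nonneg k
      omega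
    have hRc : (R : ℂ) ≠ 0 := by exact_mod_cast hR.ne'
    set z : ℂ := Complex.exp (2 * Real.pi * I * k / R) with hz
    have h1 : ∀ j : ℕ, Complex.exp (ang R j * k * I) = z ^ j := by
      intro j
      rw [hz, ← Complex.exp_nat_mul, ang]
      congr 1; push_cast; ring
    have h2 : z ^ R = 1 := by
      rw [hz, ← Complex.exp_nat_mul, Complex.exp_eq_one_iff]
      exact ⟨k, by field_simp⟩
    have h3 : z ≠ 1 := by
      rw [hz, Ne, Complex.exp_eq_one_iff]
      rintro ⟨m, hm⟩
      have hπ : (Real.pi : ℂ) ≠ 0 := by exact_mod_cast Real.pi_ne_zero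
      have h4 : (k : ℂ) = m * R := by
        field_simp at hm
        linear_combination hm
      have h5 : k = m * R := by exact_mod_cast h4
      have h6 : m ≠ 0 := by rintro rfl; exact h (by simpa using h5)
      rw [h5, abs_mul, Nat.abs_cast] at hk
      have h7 : 1 ≤ |m| := Int.one_le_abs h6
      nlinarith
    simp only [h1]
    have := geom_sum_mul z R
    rw [h2, sub_self] at this
    exact (mul_eq_zero.1 this).resolve_right (sub_ne_zero.2 h3)

/-- The Dirichlet kernel. -/
def dk (n : ℕ) (θ : ℝ) : ℂ := ∑ a ∈ Finset.range n, Complex.exp (θ * (a : ℤ) * I)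

lemma conj_exp_aux (θ : ℝ) (k : ℤ) :
    conj (Complex.exp (θ * k * I)) = Complex.exp (θ * (-k : ℤ) * I) := by
  rw [← Complex.exp_conj]; congr 1; simp

lemma dk_mul_conj (n m : ℕ) (θ : ℝ) (w : ℤ) :
    dk n θ * conj (dk m θ) * Complex.exp (θ * w * I) =
      ∑ a ∈ Finset.range n, ∑ b ∈ Finset.range m,
        Complex.exp (θ * ((a : ℤ) - b + w : ℤ) * I) := by
  rw [dk, dk, map_sum, Finset.sum_mul_sum, Finset.sum_mul]
  refine Finset.sum_congr rfl fun a _ => ?_
  rw [Finset.sum_mul]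
  refine Finset.sum_congr rfl fun b _ => ?_
  rw [conj_exp_aux, ← Complex.exp_add, ← Complex.exp_add]
  congr 1; push_cast; ring

lemma sum_dk_mul_conj {R n m w : ℕ} (h1 : n + w ≤ R) (h2 : m ≤ R) :
    ∑ j ∈ Finset.range R, dk n (ang R j) * conj (dk m (ang R j)) *
        Complex.exp (ang R j * (w : ℤ) * I) =
      R * ∑ a ∈ Finset.range n, if a + w < m then 1 else 0 := by
  simp only [dk_mul_conj]
  rw [Finset.sum_comm, Finset.mul_sum]
  refine Finset.sum_congr rfl fun a ha => ?_
  rw [Finset.sum_comm]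
  have h3 : ∀ b ∈ Finset.range m, ∑ j ∈ Finset.range R,
      Complex.exp (ang R j * ((a : ℤ) - b + w : ℤ) * I) = if a + w = b then (R : ℂ) else 0 := by
    intro b hb
    rw [Finset.mem_range] at ha hb
    rw [sum_ang _ (by rw [abs_lt]; omega)]
    exact if_congr (by omega) rfl rfl
  rw [Finset.sum_congr rfl h3, Finset.sum_ite_eq]
  simp

lemma sum_dk_sq {R n : ℕ} (h : n ≤ R) :
    ∑ j ∈ Finset.range R, ‖dk n (ang R j)‖ ^ 2 = R * n := by
  have h1 := sum_dk_mul_conj (R := R) (n := n) (m := n) (w := 0) h h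
  simp only [Nat.cast_zero, Int.cast_zero, mul_zero, zero_mul, Complex.exp_zero, mul_one,
    Complex.mul_conj, Complex.normSq_eq_norm_sq, add_zero] at h1
  rw [Finset.sum_congr rfl (g := fun _ => (1 : ℂ))
    fun a ha => if_pos (Finset.mem_range.1 ha)] at h1
  simp only [Finset.sum_const, Finset.card_range, nsmul_eq_mul, mul_one] at h1
  exact_mod_cast h1

lemma integral_norm_sum_shift {ι : Type*} (s : Finset ι) (k : ι → ℂ) (σ : ι → Om)
    (f : C(Om, ℂ)) :
    ∫ ω, ‖∑ j ∈ s, k j * f (σ j * ω)‖ ∂mu ≤ (∑ j ∈ s, ‖k j‖) * ∫ ω, ‖f ω‖ ∂mu := by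
  calc ∫ ω, ‖∑ j ∈ s, k j * f (σ j * ω)‖ ∂mu ≤ ∫ ω, ∑ j ∈ s, ‖k j‖ * ‖f (σ j * ω)‖ ∂mu := by
        refine integral_mono (cont_integrable (by fun_prop)) (cont_integrable (by fun_prop))
          fun ω => ?_
        simpa only [norm_mul] using norm_sum_le s fun j => k j * f (σ j * ω)
    _ = _ := by
        rw [integral_finsetSum _ fun j _ => cont_integrable (by fun_prop), Finset.sum_mul]
        refine Finset.sum_congr rfl fun j _ => ?_
        rw [integral_const_mul, integral_shift (fun ω => ‖f ω‖)]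

theorem exists_trunc (a : ℕ+ →₀ ℂ) {L : ℕ} (hL : 0 < L) :
    ∃ g : ℕ+ →₀ ℂ, (∀ n, wt n ≤ L → g n = a n) ∧ (∀ n ∈ g.support, wt n < 2 * L) ∧
      ∫ ω, ‖dir g ω‖ ∂mu ≤ 3 / 2 * ∫ ω, ‖dir a ω‖ ∂mu := by
  set m : ℕ → ℂ := fun w => (L : ℂ)⁻¹ * ∑ a ∈ Finset.range L, if a + w < 2 * L then 1 else 0
    with hm
  have hLc : (L : ℂ) ≠ 0 := by exact_mod_cast hL.ne'
  set g : ℕ+ →₀ ℂ := Finsupp.onFinset a.support (fun n => m (wt n) * a n)
    (fun n hn => Finsupp.mem_support_iff.2 (right_ne_zero_of_mul hn)) with hg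
  have hg' : ∀ n, g n = m (wt n) * a n := fun n => rfl
  refine ⟨g, fun n hn => ?_, fun n hn => ?_, ?_⟩
  · rw [hg', hm]
    simp only
    rw [Finset.sum_congr rfl (g := fun _ => (1 : ℂ))
      fun a ha => if_pos (by rw [Finset.mem_range] at ha; omega)]
    simp [hLc]
  · by_contra h
    apply Finsupp.mem_support_iff.1 hn
    rw [hg', hm]
    simp only
    rw [Finset.sum_congr rfl (g := fun _ => (0 : ℂ)) fun a ha => if_neg (by omega)]
    simp
  · set R := 2 * L + a.support.sup wt with hR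
    have hR0 : 0 < R := by omega
    have hRc : (R : ℂ) ≠ 0 := by exact_mod_cast hR0.ne'
    set k : ℕ → ℂ := fun j => ((R : ℂ) * L)⁻¹ * (dk L (ang R j) * conj (dk (2 * L) (ang R j)))
      with hk
    have h1 : ∀ ω, dir g ω = ∑ j ∈ Finset.range R, k j * dir a (rot (ang R j) * ω) := by
      intro ω
      simp only [dir_apply, chi_mul, chi_rot, Finset.mul_sum]
      rw [Finset.sum_comm, Finset.sum_subset (Finsupp.support_onFinset_subset :
        g.support ⊆ a.support) (fun n _ hn => by rw [Finsupp.notMem_support_iff.1 hn, zero_mul])]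
      refine Finset.sum_congr rfl fun n hn => ?_
      have h2 : wt n ≤ a.support.sup wt := Finset.le_sup hn
      have h3 := sum_dk_mul_conj (R := R) (n := L) (m := 2 * L) (w := wt n) (by omega) (by omega)
      have h4 : m (wt n) = ∑ j ∈ Finset.range R, k j * Complex.exp (ang R j * (wt n : ℤ) * I) := by
        simp only [hk, mul_assoc ((R : ℂ) * L)⁻¹]
        rw [← Finset.mul_sum, h3, hm]
        field_simp
      rw [hg', h4, Finset.sum_mul, Finset.sum_mul]
      refine Finset.sum_congr rfl fun j _ => ?_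
      ring
    simp only [h1]
    refine (integral_norm_sum_shift _ _ _ _).trans ?_
    refine mul_le_mul_of_nonneg_right ?_ (integral_nonneg fun ω => norm_nonneg _)
    have hRL : (0 : ℝ) < R * L := by positivity
    calc ∑ j ∈ Finset.range R, ‖k j‖ ≤ ∑ j ∈ Finset.range R, ((R : ℝ) * L)⁻¹ *
          ((‖dk L (ang R j)‖ ^ 2 + ‖dk (2 * L) (ang R j)‖ ^ 2) / 2) := by
          refine Finset.sum_le_sum fun j _ => ?_
          simp only [hk, norm_mul, norm_inv, Complex.norm_natCast, Complex.norm_conj]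
          gcongr
          nlinarith [sq_nonneg (‖dk L (ang R j)‖ - ‖dk (2 * L) (ang R j)‖)]
      _ = 3 / 2 := by
          rw [← Finset.mul_sum, ← Finset.sum_div, Finset.sum_add_distrib, sum_dk_sq (by omega),
            sum_dk_sq (by omega)]
          push_cast
          field_simp
          ring

end

end Pool.Agent.Lib.MP_cdccbc_an
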