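import Pool.Agent.Lib.MP_cdccbc_an.Entropy

/-! An `L log L` type bound for the half-space projection. -/

namespace Pool.Agent.Lib.MP_cdccbc_an

open MeasureTheory Complex Filter Topology
open scoped ComplexConjugate

noncomputable section

variable {l : Gam →ₗ[ℤ] ℝ}

lemma abs_im_le_aux {z : ℂ} (hz : 0 < z.re) : |z.im| ≤ z.re + z.im * Complex.arg z := by
  have hz0 : z ≠ 0 := by rintro rfl; simp at hz
  have hr : 0 < ‖z‖ := norm_pos_iff.2 hz0
  have hs : Real.sin (Complex.arg z) = z.im / ‖z‖ := Complex.sin_arg z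
  have h1 : z.im * (z.im / ‖z‖) ≤ z.im * Complex.arg z := by
    rw [← hs]
    rcases le_total 0 z.im with h | h
    · exact mul_le_mul_of_nonneg_left (Real.sin_le (Complex.arg_nonneg_iff.2 h)) h
    · refine mul_le_mul_of_nonpos_left ?_ h
      rcases h.eq_or_lt with h' | h'
      · have : Complex.arg z = 0 := Complex.arg_eq_zero_iff.2 ⟨hz.le, h'⟩
        simp [this]
      · exact Real.le_sin (Complex.arg_neg_iff.2 h').le
  have h2 : ‖z‖ ≤ z.re + |z.im| := by
    have := Complex.norm_le_abs_re_add_abs_im z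
    rwa [abs_of_pos hz] at this
  have h3 : |z.im| ≤ ‖z‖ := Complex.abs_im_le_norm z
  have h4 : |z.im| ≤ z.re + z.im * (z.im / ‖z‖) := by
    rw [← mul_div_assoc, ← abs_mul_abs_self, ← sub_le_iff_le_add', le_div_iff₀ hr]
    nlinarith [abs_nonneg z.im]
  linarith

open Classical in
lemma zyg_pos (hl : ∀ α, l α = 0 → α = 0) {c : Gam →₀ ℂ} (hc : ∀ ω, (tr c ω).im = 0)
    (h1 : ∀ ω, 1 ≤ (tr c ω).re) {K : ℝ} (hK : 1 ≤ K) (hA : ∫ ω, (tr c ω).re ∂mu ≤ 4)
    (hB : ∫ ω, ‖tr c ω‖ ^ 2 ∂mu ≤ 16 * K) :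
    ∫ ω, ‖tr (c.filter fun α => 0 < l α) ω‖ ∂mu ≤ 38 + 2 * Real.log K := by
  set h := tr (compl l c) with hh
  set c₀ := ∫ ω, (tr c ω).re ∂mu with hc₀
  have hre : ∀ ω, (h ω).re = (tr c ω).re := compl_re hl hc
  have hpos : ∀ ω, 0 < (h ω).re := fun ω => by rw [hre]; linarith [h1 ω]
  have hc1 : 1 ≤ c₀ := by
    calc (1 : ℝ) = ∫ _ω, (1 : ℝ) ∂mu := by simp
      _ ≤ _ := integral_mono (integrable_const _) (cont_integrable (by fun_prop)) h1
  have hc0 : c 0 = c₀ := coeff_zero_real hc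
  have hI : ∫ ω, h ω ∂mu = c₀ := by rw [hh, integral_compl, hc0]
  have hent := anal_entropy_re hl (compl_anal c) hpos (zero_le_one.trans hc1) hI
  rw [← hh] at hent
  have c1 := continuous_log_norm hpos
  have c2 := continuous_arg hpos
  have hK0 : 0 < K := by linarith
  have hlogK : 0 ≤ Real.log K := Real.log_nonneg hK
  have hsq : ∫ ω, ‖h ω‖ ^ 2 ∂mu ≤ 64 * K := by
    have := compl_sq (l := l) c
    rw [← hh] at this; linarith
  have hre_int : ∫ ω, (h ω).re ∂mu = c₀ := by simp only [hre, hc₀]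
  have e1 : ∫ ω, (h ω).re * Real.log ‖h ω‖ ∂mu ≤ c₀ * Real.log K + 64 := by
    calc ∫ ω, (h ω).re * Real.log ‖h ω‖ ∂mu
        ≤ ∫ ω, (h ω).re * Real.log K + ‖h ω‖ ^ 2 / K ∂mu := by
          refine integral_mono (cont_integrable (by fun_prop)) (cont_integrable (by fun_prop))
            fun ω => ?_
          have hn : (h ω).re ≤ ‖h ω‖ := Complex.re_le_norm _
          have hn0 : 0 < ‖h ω‖ := (hpos ω).trans_le hn
          have h2 : Real.log ‖h ω‖ ≤ Real.log K + ‖h ω‖ / K := by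
            have := Real.log_le_sub_one_of_pos (div_pos hn0 hK0)
            rw [Real.log_div hn0.ne' hK0.ne'] at this
            linarith
          have h3 : (h ω).re * (‖h ω‖ / K) ≤ ‖h ω‖ ^ 2 / K := by
            rw [pow_two, mul_div_assoc]; gcongr
          have h4 := mul_le_mul_of_nonneg_left h2 (hpos ω).le
          simp only
          linarith
      _ = c₀ * Real.log K + (∫ ω, ‖h ω‖ ^ 2 ∂mu) / K := by
          rw [integral_add (cont_integrable (by fun_prop)) (cont_integrable (by fun_prop)),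
            integral_mul_const, integral_div, hre_int]
      _ ≤ _ := by
          have : (∫ ω, ‖h ω‖ ^ 2 ∂mu) / K ≤ 64 := by rw [div_le_iff₀ hK0]; exact hsq
          linarith
  have e2 : ∫ ω, |(h ω).im| ∂mu ≤ c₀ + ∫ ω, (h ω).im * Complex.arg (h ω) ∂mu := by
    rw [← hre_int, ← integral_add (cont_integrable (by fun_prop)) (cont_integrable (by fun_prop))]
    exact integral_mono (cont_integrable (by fun_prop)) (cont_integrable (by fun_prop))
      fun ω => abs_im_le_aux (hpos ω)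
  have e3 : 0 ≤ c₀ * Real.log c₀ := mul_nonneg (by linarith) (Real.log_nonneg hc1)
  have e4 : ∫ ω, ‖tr (c.filter fun α => 0 < l α) ω‖ ∂mu ≤
      ∫ ω, ((h ω).re + |(h ω).im| + c₀) / 2 ∂mu := by
    refine integral_mono (cont_integrable (by fun_prop)) (cont_integrable (by fun_prop))
      fun ω => ?_
    have h2 : tr (c.filter fun α => 0 < l α) ω = (h ω - c₀) / 2 := by
      rw [hh, tr_compl, hc0]; ring
    have h3 := Complex.norm_le_abs_re_add_abs_im (h ω)
    rw [abs_of_pos (hpos ω)] at h3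
    have h4 := norm_sub_le (h ω) c₀
    rw [Complex.norm_real, Real.norm_eq_abs, abs_of_pos (by linarith : 0 < c₀)] at h4
    simp only
    rw [h2, norm_div, Complex.norm_two]
    linarith
  rw [integral_div, integral_add (cont_integrable (by fun_prop)) (integrable_const _),
    integral_add (cont_integrable (by fun_prop)) (cont_integrable (by fun_prop)), hre_int] at e4
  simp only [integral_const, probReal_univ, one_smul] at e4
  have e5 : c₀ * Real.log K ≤ 4 * Real.log K := by gcongr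
  linarith

lemma integral_norm_add_le (f g : C(Om, ℂ)) :
    ∫ ω, ‖(f + g) ω‖ ∂mu ≤ ∫ ω, ‖f ω‖ ∂mu + ∫ ω, ‖g ω‖ ∂mu := by
  rw [← integral_add (cont_integrable (by fun_prop)) (cont_integrable (by fun_prop))]
  exact integral_mono (cont_integrable (by fun_prop)) (cont_integrable (by fun_prop))
    fun ω => norm_add_le _ _

lemma integral_norm_sub_le (f g : C(Om, ℂ)) :
    ∫ ω, ‖(f - g) ω‖ ∂mu ≤ ∫ ω, ‖f ω‖ ∂mu + ∫ ω, ‖g ω‖ ∂mu := by
  rw [← integral_add (cont_integrable (by fun_prop)) (cont_integrable (by fun_prop))]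
  exact integral_mono (cont_integrable (by fun_prop)) (cont_integrable (by fun_prop))
    fun ω => norm_sub_le _ _

lemma integral_norm_smul (a : ℂ) (f : C(Om, ℂ)) :
    ∫ ω, ‖(a • f) ω‖ ∂mu = ‖a‖ * ∫ ω, ‖f ω‖ ∂mu := by
  simp only [ContinuousMap.smul_apply, norm_smul, integral_const_mul]

open Classical in
lemma zyg_real (hl : ∀ α, l α = 0 → α = 0) {c : Gam →₀ ℂ} (hc : ∀ ω, (tr c ω).im = 0)
    {K : ℝ} (hK : 1 ≤ K) (hA : ∫ ω, ‖tr c ω‖ ∂mu ≤ 1) (hB : ∫ ω, ‖tr c ω‖ ^ 2 ∂mu ≤ K) :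
    ∫ ω, ‖tr (c.filter fun α => 0 < l α) ω‖ ∂mu ≤ 76 + 4 * Real.log K := by
  obtain ⟨q', hq'⟩ := exists_tr_near ⟨fun ω => ((‖tr c ω‖ + 3 / 2 : ℝ) : ℂ), by fun_prop⟩
    (ε := 1 / 2) (by norm_num)
  obtain ⟨q, hq⟩ := exists_tr_re q'
  have hq1 : ∀ ω, |(tr q ω).re - (‖tr c ω‖ + 3 / 2)| ≤ 1 / 2 := by
    intro ω
    have h1 := (Complex.abs_re_le_norm _).trans (hq' ω).le
    simpa [hq ω] using h1
  have hq2 : ∀ ω, (tr q ω).im = 0 := fun ω => by simp [hq ω]
  have hcre : ∀ ω, |(tr c ω).re| ≤ ‖tr c ω‖ := fun ω => Complex.abs_re_le_norm _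
  have key : ∀ u : Gam →₀ ℂ, (∀ ω, (tr u ω).im = 0) → (∀ ω, 1 ≤ (tr u ω).re) →
      (∀ ω, (tr u ω).re ≤ 2 * ‖tr c ω‖ + 2) →
      ∫ ω, ‖tr (u.filter fun α => 0 < l α) ω‖ ∂mu ≤ 38 + 2 * Real.log K := by
    intro u hu1 hu2 hu3
    refine zyg_pos hl hu1 hu2 hK ?_ ?_
    · calc ∫ ω, (tr u ω).re ∂mu ≤ ∫ ω, 2 * ‖tr c ω‖ + 2 ∂mu :=
            integral_mono (cont_integrable (by fun_prop)) (cont_integrable (by fun_prop)) hu3
        _ = 2 * ∫ ω, ‖tr c ω‖ ∂mu + 2 := by
            rw [integral_add (cont_integrable (by fun_prop)) (integrable_const _),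
              integral_const_mul]; simp
        _ ≤ 4 := by linarith
    · calc ∫ ω, ‖tr u ω‖ ^ 2 ∂mu ≤ ∫ ω, 8 * ‖tr c ω‖ ^ 2 + 8 ∂mu := by
            refine integral_mono (cont_integrable (by fun_prop)) (cont_integrable (by fun_prop))
              fun ω => ?_
            have h1 : ‖tr u ω‖ = (tr u ω).re := by
              rw [← Complex.abs_re_eq_norm.2 (hu1 ω), abs_of_pos (by linarith [hu2 ω])]
            simp only
            rw [h1]
            nlinarith [hu2 ω, hu3 ω, sq_nonneg (‖tr c ω‖ - 1), norm_nonneg (tr c ω)]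
        _ = 8 * ∫ ω, ‖tr c ω‖ ^ 2 ∂mu + 8 := by
            rw [integral_add (cont_integrable (by fun_prop)) (integrable_const _),
              integral_const_mul]; simp
        _ ≤ 16 * K := by linarith
  have k1 := key q hq2 (fun ω => by linarith [(abs_le.1 (hq1 ω)).1, norm_nonneg (tr c ω)])
    (fun ω => by linarith [(abs_le.1 (hq1 ω)).2, norm_nonneg (tr c ω)])
  have k2 := key (q - c) (fun ω => by simp [hq2 ω, hc ω])
    (fun ω => by
      simp only [map_sub, ContinuousMap.sub_apply, Complex.sub_re]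
      linarith [(abs_le.1 (hq1 ω)).1, (abs_le.1 (hcre ω)).2])
    (fun ω => by
      simp only [map_sub, ContinuousMap.sub_apply, Complex.sub_re]
      linarith [(abs_le.1 (hq1 ω)).2, (abs_le.1 (hcre ω)).1])
  have h3 : tr (c.filter fun α => 0 < l α) =
      tr (q.filter fun α => 0 < l α) - tr ((q - c).filter fun α => 0 < l α) := by
    rw [Finsupp.filter_sub, map_sub]; abel
  rw [h3]
  linarith [integral_norm_sub_le (tr (q.filter fun α => 0 < l α))
    (tr ((q - c).filter fun α => 0 < l α))]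

open Classical in
lemma zyg_one (hl : ∀ α, l α = 0 → α = 0) {c : Gam →₀ ℂ}
    {K : ℝ} (hK : 1 ≤ K) (hA : ∫ ω, ‖tr c ω‖ ∂mu ≤ 1) (hB : ∫ ω, ‖tr c ω‖ ^ 2 ∂mu ≤ K) :
    ∫ ω, ‖tr (c.filter fun α => l α ≤ 0) ω‖ ∂mu ≤ 153 + 8 * Real.log K := by
  obtain ⟨a, ha⟩ := exists_tr_re c
  set b : Gam →₀ ℂ := (-I) • (c - a) with hb
  have hb' : ∀ ω, tr b ω = ((tr c ω).im : ℂ) := by
    intro ω
    simp only [hb, map_smul, map_sub, ContinuousMap.smul_apply, ContinuousMap.sub_apply, ha,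
      smul_eq_mul]
    apply Complex.ext <;> simp
  have key : ∀ u : Gam →₀ ℂ, (∀ ω, (tr u ω).im = 0) → (∀ ω, ‖tr u ω‖ ≤ ‖tr c ω‖) →
      ∫ ω, ‖tr (u.filter fun α => 0 < l α) ω‖ ∂mu ≤ 76 + 4 * Real.log K := by
    intro u hu1 hu2
    refine zyg_real hl hu1 hK (le_trans ?_ hA) (le_trans ?_ hB)
    · exact integral_mono (cont_integrable (by fun_prop)) (cont_integrable (by fun_prop)) hu2
    · refine integral_mono (cont_integrable (by fun_prop)) (cont_integrable (by fun_prop))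
        fun ω => ?_
      have := hu2 ω
      simp only
      gcongr
  have k1 := key a (fun ω => by simp [ha]) fun ω => by
    rw [ha, Complex.norm_real]; exact Complex.abs_re_le_norm _
  have k2 := key b (fun ω => by simp [hb']) fun ω => by
    rw [hb', Complex.norm_real]; exact Complex.abs_im_le_norm _
  have h3 : tr (c.filter fun α => l α ≤ 0) = tr c -
      (tr (a.filter fun α => 0 < l α) + I • tr (b.filter fun α => 0 < l α)) := by
    rw [← map_smul, ← map_add, ← map_sub]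
    congr 1
    ext α
    simp only [hb, Finsupp.filter_apply, Finsupp.sub_apply, Finsupp.add_apply, Finsupp.smul_apply,
      smul_eq_mul]
    by_cases h : l α ≤ 0
    · simp [h, h.not_gt]
    · simp only [h, not_le.1 h, if_true, if_false]
      linear_combination (c α - a α) * (-Complex.I_mul_I)
  rw [h3]
  have e1 := integral_norm_sub_le (tr c)
    (tr (a.filter fun α => 0 < l α) + I • tr (b.filter fun α => 0 < l α))
  have e2 := integral_norm_add_le (tr (a.filter fun α => 0 < l α))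
    (I • tr (b.filter fun α => 0 < l α))
  rw [integral_norm_smul, Complex.norm_I, one_mul] at e2
  linarith

open Classical in
/-- The `L log L` bound in homogeneous form. -/
theorem zygmund (hl : ∀ α, l α = 0 → α = 0) (c : Gam →₀ ℂ) {K : ℝ} (hK : 1 ≤ K)
    (hB : ∫ ω, ‖tr c ω‖ ^ 2 ∂mu ≤ K * (∫ ω, ‖tr c ω‖ ∂mu) ^ 2) :
    ∫ ω, ‖tr (c.filter fun α => l α ≤ 0) ω‖ ∂mu ≤
      (153 + 8 * Real.log K) * ∫ ω, ‖tr c ω‖ ∂mu := by
  set A := ∫ ω, ‖tr c ω‖ ∂mu with hA
  have hA0 : 0 ≤ A := integral_nonneg fun ω => norm_nonneg _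
  rcases hA0.eq_or_lt with h0 | h0
  · have hc : c = 0 := by
      rw [← h0, parseval] at hB
      ext α
      by_contra hα
      have h1 : ‖c α‖ ^ 2 ≤ ∑ α ∈ c.support, ‖c α‖ ^ 2 :=
        Finset.single_le_sum (f := fun α => ‖c α‖ ^ 2) (fun _ _ => by positivity)
          (Finsupp.mem_support_iff.2 hα)
      have h2 : 0 < ‖c α‖ ^ 2 := pow_pos (norm_pos_iff.2 hα) 2
      nlinarith
    rw [← h0, hc]; simp [Finsupp.filter_zero]
  · have h1 := zyg_one hl (c := ((A⁻¹ : ℝ) : ℂ) • c) hK ?_ ?_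
    · rw [Finsupp.filter_smul, map_smul, integral_norm_smul, Complex.norm_real, Real.norm_eq_abs,
        abs_of_pos (inv_pos.2 h0), inv_mul_le_iff₀ h0] at h1
      linarith
    · rw [map_smul, integral_norm_smul, Complex.norm_real, Real.norm_eq_abs,
        abs_of_pos (inv_pos.2 h0), inv_mul_cancel₀ h0.ne']
    · simp only [map_smul, ContinuousMap.smul_apply, norm_smul, mul_pow, integral_const_mul,
        Complex.norm_real, Real.norm_eq_abs, abs_of_pos (inv_pos.2 h0)]
      rw [inv_pow, inv_mul_le_iff₀ (by positivity)]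
      linarith

end

end Pool.Agent.Lib.MP_cdccbc_an
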