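import Pool.Agent.Lib.MP_cdccbc_an.Trunc
import Pool.Agent.Lib.MP_cdccbc_an.Zygmund
import Pool.Agent.Lib.MP_cdccbc_an.Divisor

/-! The upper bound and the final two-sided estimate on the torus. -/

namespace Pool.Agent.Lib.MP_cdccbc_an

open MeasureTheory Complex Filter Topology
open scoped ComplexConjugate

noncomputable section

lemma parseval_dir (g : ℕ+ →₀ ℂ) : ∫ ω, ‖dir g ω‖ ^ 2 ∂mu = ∑ n ∈ g.support, ‖g n‖ ^ 2 := by
  classical
  have h := integral_normSq_sum g.support g fun n => kap n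
  simp only [dir_apply]
  apply Complex.ofReal_injective
  rw [h]
  push_cast
  refine Finset.sum_congr rfl fun α hα => ?_
  have : ∀ j : ℕ+, (kap α = kap j) = (α = j) := fun j =>
    propext ⟨fun h => PNat.eq (kap_inj α.ne_zero j.ne_zero h), fun h => by rw [h]⟩
  simp only [this]
  rw [Finset.sum_ite_eq, if_pos hα, Complex.mul_conj, Complex.normSq_eq_norm_sq]
  push_cast; rfl

lemma fourth_le (g : ℕ+ →₀ ℂ) {X : ℕ} (hX : ∀ n ∈ g.support, (n : ℕ) ≤ X) {D : ℝ}
    (hD : ∀ n : ℕ, n ≠ 0 → n ≤ X ^ 2 → (n.divisors.card : ℝ) ≤ D) :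
    ∫ ω, ‖dir g ω‖ ^ 4 ∂mu ≤ D * (∫ ω, ‖dir g ω‖ ^ 2 ∂mu) ^ 2 := by
  classical
  have h := almost_orth (g.support ×ˢ g.support) (fun i => g i.1 * g i.2)
    (fun i => kap i.1 + kap i.2) D ?_
  · have h1 : ∀ ω, ‖dir g ω‖ ^ 4 = ‖∑ i ∈ g.support ×ˢ g.support,
        g i.1 * g i.2 * chi (kap i.1 + kap i.2) ω‖ ^ 2 := by
      intro ω
      have : ∑ i ∈ g.support ×ˢ g.support, g i.1 * g i.2 * chi (kap i.1 + kap i.2) ω =
          dir g ω * dir g ω := by
        rw [dir_apply, Finset.sum_mul_sum, Finset.sum_product]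
        refine Finset.sum_congr rfl fun i _ => Finset.sum_congr rfl fun j _ => ?_
        rw [chi_add, ContinuousMap.mul_apply]; ring
      rw [this, norm_mul]; ring
    simp only [h1]
    refine h.trans (le_of_eq ?_)
    rw [parseval_dir, pow_two (∑ n ∈ g.support, ‖g n‖ ^ 2), Finset.sum_mul_sum,
      Finset.sum_product]
    simp only [norm_mul, mul_pow]
  · rintro ⟨a, b⟩ hab
    rw [Finset.mem_product] at hab
    refine le_trans ?_ (hD (a * b) (mul_ne_zero a.ne_zero b.ne_zero)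
      (by rw [pow_two]; exact Nat.mul_le_mul (hX a hab.1) (hX b hab.2)))
    have key : ∀ j ∈ (g.support ×ˢ g.support).filter fun j : ℕ+ × ℕ+ =>
        kap a + kap b = kap j.1 + kap j.2, (a : ℕ) * b = j.1 * j.2 := by
      intro j hj
      have h2 := (Finset.mem_filter.1 hj).2
      rw [← kap_mul a.ne_zero b.ne_zero, ← kap_mul j.1.ne_zero j.2.ne_zero] at h2
      exact kap_inj (mul_ne_zero a.ne_zero b.ne_zero) (mul_ne_zero j.1.ne_zero j.2.ne_zero) h2
    rw [Nat.cast_le]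
    refine Finset.card_le_card_of_injOn (fun j => (j.1 : ℕ)) ?_ ?_
    · intro j hj
      simp only [Finset.mem_coe, Nat.mem_divisors]
      exact ⟨⟨j.2, key j hj⟩, mul_ne_zero a.ne_zero b.ne_zero⟩
    · intro i hi j hj hij
      have h1 := key i hi
      have h2 := key j hj
      have h3 : (i.1 : ℕ) = j.1 := hij
      rw [h1, h3] at h2
      exact Prod.ext (PNat.eq h3) (PNat.eq (Nat.eq_of_mul_eq_mul_left j.1.pos h2))

lemma sq_le_of_fourth (G : C(Om, ℂ)) {D : ℝ} (hD : 0 < D)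
    (h : ∫ ω, ‖G ω‖ ^ 4 ∂mu ≤ D * (∫ ω, ‖G ω‖ ^ 2 ∂mu) ^ 2) :
    ∫ ω, ‖G ω‖ ^ 2 ∂mu ≤ 8 * D * (∫ ω, ‖G ω‖ ∂mu) ^ 2 := by
  set A := ∫ ω, ‖G ω‖ ∂mu with hA
  set B := ∫ ω, ‖G ω‖ ^ 2 ∂mu with hB
  have hA0 : 0 ≤ A := integral_nonneg fun ω => norm_nonneg _
  have hB0 : 0 ≤ B := integral_nonneg fun ω => by positivity
  rcases hB0.eq_or_lt with h0 | h0
  · rw [← h0]; positivity
  set t := Real.sqrt (2 * D * B) with ht
  have ht0 : 0 < t := Real.sqrt_pos.2 (by positivity)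
  have ht2 : t ^ 2 = 2 * D * B := Real.sq_sqrt (by positivity)
  have h1 : B ≤ t * A + (∫ ω, ‖G ω‖ ^ 4 ∂mu) / t ^ 2 := by
    rw [hA, ← integral_const_mul, ← integral_div,
      ← integral_add (cont_integrable (by fun_prop)) (cont_integrable (by fun_prop))]
    refine integral_mono (cont_integrable (by fun_prop)) (cont_integrable (by fun_prop))
      fun ω => ?_
    simp only
    have hy := norm_nonneg (G ω)
    set y := ‖G ω‖
    rcases le_total y t with h2 | h2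
    · have : 0 ≤ y ^ 4 / t ^ 2 := by positivity
      nlinarith
    · have h3 : y ^ 2 ≤ y ^ 4 / t ^ 2 := by
        rw [le_div_iff₀ (by positivity)]
        calc y ^ 2 * t ^ 2 ≤ y ^ 2 * y ^ 2 := by gcongr
          _ = y ^ 4 := by ring
      have : 0 ≤ t * y := by positivity
      linarith
  have h2 : (∫ ω, ‖G ω‖ ^ 4 ∂mu) / t ^ 2 ≤ B / 2 := by
    rw [div_le_iff₀ (by positivity), ht2]
    nlinarith
  have h3 : B / 2 ≤ t * A := by linarith
  have h4 : (B / 2) ^ 2 ≤ (t * A) ^ 2 := by gcongr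
  rw [mul_pow, ht2] at h4
  have h5 : B * B ≤ B * (8 * D * A ^ 2) := by nlinarith
  exact le_of_mul_le_mul_left h5 h0

open Classical in
theorem upper_core {N : ℕ} (hN : N ≠ 0) {D : ℝ} (hD1 : 1 ≤ D)
    (hD : ∀ n : ℕ, n ≠ 0 → n ≤ 256 * N ^ 8 → (n.divisors.card : ℝ) ≤ D) (a : ℕ+ →₀ ℂ) :
    ∫ ω, ‖dir (a.filter fun n : ℕ+ => (n : ℕ) ≤ N) ω‖ ∂mu ≤
      (153 + 8 * Real.log (8 * D)) * (3 / 2) * ∫ ω, ‖dir a ω‖ ∂mu := by
  obtain ⟨g, hg1, hg2, hg3⟩ := exists_trunc a (L := Nat.log 2 N + 1) (by omega)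
  have h1 : (a.filter fun n : ℕ+ => (n : ℕ) ≤ N) = g.filter fun n : ℕ+ => (n : ℕ) ≤ N := by
    ext n
    simp only [Finsupp.filter_apply]
    split_ifs with h
    · refine (hg1 n ?_).symm
      have := Nat.le_log_of_pow_le (by norm_num) ((wt_spec n).2.1.trans h)
      omega
    · rfl
  have hX : ∀ n ∈ g.support, (n : ℕ) ≤ 16 * N ^ 4 := by
    intro n hn
    calc (n : ℕ) ≤ 4 ^ wt n := (wt_spec n).2.2
      _ ≤ 4 ^ (2 * (Nat.log 2 N + 1)) := Nat.pow_le_pow_right (by norm_num) (hg2 n hn).le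
      _ = 16 * (2 ^ Nat.log 2 N) ^ 4 := by
          rw [show 4 = 2 ^ 2 from rfl, ← pow_mul, ← pow_mul]; ring
      _ ≤ _ := Nat.mul_le_mul_left _ (Nat.pow_le_pow_left (Nat.pow_log_le_self 2 hN) _)
  have h4 := fourth_le g hX (D := D) fun n hn h => hD n hn (h.trans (le_of_eq (by ring)))
  have h2 := sq_le_of_fourth (dir g) (by linarith) h4
  set N' : ℕ+ := ⟨N, Nat.pos_of_ne_zero hN⟩ with hN'
  set c := Finsupp.mapDomain (fun k : ℕ+ => kap k - kap N') g with hc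
  have e1 := dir_shift 1 N' g
  have e2 := dir_filter_shift 1 N' N (fun k => by simp [hN']) g
  simp only [one_mul] at e1 e2
  rw [show (fun k : ℕ+ => k) = id from rfl, Finsupp.mapDomain_id, ← hc] at e1 e2
  have e3 : ∀ ω, ‖dir g ω‖ = ‖tr c ω‖ := fun ω => by
    rw [e1, ContinuousMap.mul_apply, norm_mul, norm_chi, one_mul]
  simp only [e3] at h2 hg3
  have h3 := zygmund (l := lam) (fun α => lam_eq_zero) c (K := 8 * D) (by linarith) h2
  rw [h1, e2]
  simp only [ContinuousMap.mul_apply, norm_mul, norm_chi, one_mul]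
  refine h3.trans ?_
  rw [mul_assoc]
  have : 0 ≤ Real.log (8 * D) := Real.log_nonneg (by linarith)
  gcongr

open Classical in
theorem upper_bdd (N : ℕ) : ∃ C : ℝ, 0 ≤ C ∧ ∀ a : ℕ+ →₀ ℂ,
    ∫ ω, ‖dir (a.filter fun n : ℕ+ => (n : ℕ) ≤ N) ω‖ ∂mu ≤ C * ∫ ω, ‖dir a ω‖ ∂mu := by
  rcases eq_or_ne N 0 with rfl | hN
  · refine ⟨0, le_rfl, fun a => ?_⟩
    have : (a.filter fun n : ℕ+ => (n : ℕ) ≤ 0) = 0 := by
      ext n; simp
    rw [this]; simp
  · have h1 : (1 : ℝ) ≤ 256 * N ^ 8 := by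
      have : (1 : ℝ) ≤ N := by exact_mod_cast Nat.pos_of_ne_zero hN
      nlinarith [one_le_pow₀ (n := 8) this]
    refine ⟨_, ?_, upper_core hN h1 fun n _ hn => ?_⟩
    · have : 0 ≤ Real.log (8 * (256 * N ^ 8)) := Real.log_nonneg (by linarith)
      positivity
    · exact_mod_cast (Nat.card_divisors_le_self n).trans hn

open Classical in
theorem upper_final {N : ℕ} (hN : 3 ≤ Real.log N) (a : ℕ+ →₀ ℂ) :
    ∫ ω, ‖dir (a.filter fun n : ℕ+ => (n : ℕ) ≤ N) ω‖ ∂mu ≤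
      2000 * (Real.log N / Real.log (Real.log N)) * ∫ ω, ‖dir a ω‖ ∂mu := by
  have hN0 : N ≠ 0 := by rintro rfl; norm_num at hN
  have hN' : (0 : ℝ) < N := by positivity
  obtain ⟨k, hk, hk2⟩ := upper_asymp hN
  have hk' : (0 : ℝ) < k := by exact_mod_cast hk
  set x := Real.log N with hx
  have hX : ((256 * N ^ 8 : ℕ) : ℝ) ≤ Real.exp (8 + 8 * x) := by
    rw [← Real.log_le_iff_le_exp (by positivity)]
    push_cast
    rw [Real.log_mul (by norm_num) (by positivity), Real.log_pow,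
      show (256 : ℝ) = 2 ^ 8 by norm_num, Real.log_pow]
    push_cast
    linarith [Real.log_two_lt_d9]
  have h1 := upper_core hN0 (D := Real.exp ((8 + 8 * x) / k + 2 ^ k * k))
    (Real.one_le_exp (by positivity)) (fun n hn h => by
      have := card_divisors_le_exp hk hn (X := Real.exp (8 + 8 * x))
        (le_trans (by exact_mod_cast h) hX)
      rwa [Real.log_exp] at this) a
  refine h1.trans (mul_le_mul_of_nonneg_right ?_ (integral_nonneg fun ω => norm_nonneg _))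
  rw [Real.log_mul (by norm_num) (by positivity), Real.log_exp,
    show (8 : ℝ) = 2 ^ 3 by norm_num, Real.log_pow]
  have h2 : 1 ≤ x / Real.log x := by
    rw [one_le_div (Real.log_pos (by linarith))]
    linarith [Real.log_le_sub_one_of_pos (x := x) (by linarith)]
  push_cast
  have := Real.log_two_lt_d9
  norm_num at hk2 ⊢
  linarith

open Classical in
theorem lower_final {N : ℕ} (hN : 32 ≤ Real.log N) :
    ∃ a : ℕ+ →₀ ℂ, ∫ ω, ‖dir a ω‖ ∂mu = 1 ∧
      Real.log N / Real.log (Real.log N) / 8192 ≤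
        ∫ ω, ‖dir (a.filter fun n : ℕ+ => (n : ℕ) ≤ N) ω‖ ∂mu := by
  obtain ⟨y, hy1, hy2⟩ := lower_asymp hN
  have e1 : ∏ p ∈ (Finset.range (y + 1)).subtype Nat.Prime, (p : ℕ) = primorial y :=
    Finset.prod_subtype_eq_prod_filter (fun p => p)
  have e2 : ((Finset.range (y + 1)).subtype Nat.Prime).card = Nat.primeCounting y := by
    rw [Finset.card_subtype, ← Nat.primesLE_eq_filter_range, Nat.primesLE_card_eq_primeCounting]
  obtain ⟨a, ha1, ha2⟩ := lower_finset ((Finset.range (y + 1)).subtype Nat.Prime) N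
    (le_of_eq_of_le (congrArg (· ^ 2) e1) hy1)
  refine ⟨a, ha1, le_trans ?_ ha2⟩
  have e3 : ((Finset.card (α := Nat.Primes) ((Finset.range (y + 1)).subtype Nat.Prime) : ℕ) : ℝ) =
    Nat.primeCounting y := by exact_mod_cast e2
  rw [e3]
  linarith

end

end Pool.Agent.Lib.MP_cdccbc_an
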